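import Mathlib
import Pool.Agent.Lib.MP_95e7ec_an.Ry.Defs
import Pool.Agent.Lib.MP_95e7ec_an.Ry.RDefs

/-!
# Rt: the mean theorem with an explicit exponent: definitions

The aim: the mean number of the closed orbits over all the rotations is at most `K n^6 (1 + log n)`.
-/

set_option autoImplicit false

open Set Filter Topology MeasureTheory Polynomial
open scoped ContDiff ENNReal Polynomial.Bivariate

namespace Pool.Agent.Lib.MP_95e7ec_an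

/-- `1 + log n` -/
noncomputable def lgn (n : ℕ) : ℝ := 1 + Real.log n

/-- **Part Z with explicit exponents** (zones with fixed centres) -/
def PartZX : Prop := ∃ K : ℝ, 1 ≤ K ∧ ∀ n : ℕ, 1 ≤ n → ∀ P Q : MvPolynomial (Fin 2) ℝ,
  P.totalDegree ≤ n → Q.totalDegree ≤ n → IsRelPrime P Q → vf P Q 0 = 0 →
    ∃ U : Finset ℝ, (U.card : ℝ) ≤ K * n ^ 2 ∧
      ∀ t : ℝ, 0 < t → t ≤ 1 / 20 → ∃ G : Set ℝ, (∀ x : ℝ, ∃ c ∈ G, x ≤ c ∧ c ≤ x + t) ∧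
        ∀ I : Set ℝ, I.OrdConnected →
          (∀ s ∈ I, ∀ u ∈ U, K * n * (lgn n + Real.log (1 / t)) < |s - u|) →
            Zone (cf (vf P Q)) (Real.tan (2 * t)) G I

/-- **Part R with explicit exponents** (roots) -/
def PartRX : Prop := ∃ K : ℝ, 1 ≤ K ∧ ∀ n : ℕ, 1 ≤ n → ∀ P Q : MvPolynomial (Fin 2) ℝ,
  P.totalDegree ≤ n → Q.totalDegree ≤ n → IsRelPrime P Q → vf P Q 0 = 0 →
    ∃ (U : Finset ℝ) (Λ : ℝ), (U.card : ℝ) ≤ K * n ^ 2 ∧ 1 ≤ Λ ∧ Real.log Λ ≤ K * lgn n ∧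
      ∀ t : ℝ, 0 < t → t ≤ 1 / 20 →
        ∀ I : Set ℝ, IsOpen I → I.OrdConnected → I.Nonempty →
          (∀ s ∈ I, ∀ u ∈ U, K * n * (lgn n + Real.log (1 / t)) < |s - u|) →
            ∃ (d : ℕ) (b : Fin d → ℂ → ℂ) (c : ℂ → ℂ) (m : ℤ) (τ : ℝ → ℝ) (κ : ℝ),
              d ≤ 2 * n + 2 ∧ |m| ≤ 2 * n + 2 ∧ RootSys (cf (vf P Q)) I d b c m ∧
              CutOff τ (t ^ 3) ∧ 0 < κ ∧ κ ≤ 1 ∧
              RootBd I d b c τ Λ (kapV (2 * n + 2) Λ κ t) κ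

/-- the bounds for the first two derivatives of `g` at `x`, relative to `g x` -/
def DBd (L : ℝ) (g : ℂ → ℂ) (x : ℂ) : Prop :=
  ‖deriv g x‖ ≤ 2 * L * ‖g x‖ ∧ ‖deriv (deriv g) x‖ ≤ 8 * L * ‖g x‖

/-- the variation of the coefficients on a good circle -/
noncomputable def cV (N e : ℕ) : ℝ := e * (3 + Real.log (12 * (3 * ((N : ℝ) + 1) * e + 1)))

/-- the constant of the two-term argument on a good circle -/
noncomputable def cM (N e : ℕ) : ℝ :=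
  ((N : ℝ) + 1) ^ 2 * (2 * (Real.log ((N : ℝ) + 1) + 2 * cV N e))

/-- the bounds for the roots, in terms of derivatives -/
structure DerBd (A : ℂ[X][Y]) (I : Set ℝ) {d : ℕ} (b : Fin d → ℂ → ℂ) (L : ℝ) : Prop where
  one : ∀ x ∈ I, Metric.ball (x : ℂ) 4 ⊆ strip I → ∀ j, DBd L (b j) x
  star : ∀ x ∈ I, Metric.ball (x : ℂ) 4 ⊆ strip I → ∀ j,
    DBd L (fun ρ => 1 / (starRingEnd ℂ) (b j ((starRingEnd ℂ) ρ))) x
  two : ∀ x ∈ I, Metric.ball (x : ℂ) 4 ⊆ strip I → ∀ i j, DBd L (fun ρ => b i ρ - b j ρ) x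
  refl : ∀ x ∈ I, Metric.ball (x : ℂ) 4 ⊆ strip I → ∀ j,
    DBd L (fun ρ => b j ρ - 1 / (starRingEnd ℂ) (b j ((starRingEnd ℂ) ρ))) x
  lead : ∀ x ∈ I, Metric.ball (x : ℂ) 4 ⊆ strip I →
    DBd L (fun ρ => A.leadingCoeff.eval (Complex.exp ρ)) x

end Pool.Agent.Lib.MP_95e7ec_an
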