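import Mathlib
import Pool.Agent.Lib.MP_95e7ec_an.Rt.Defs
import Pool.Agent.Lib.MP_95e7ec_an.Ry.BrMain

/-!
# Rt, Branch2: the branches of every polynomial, few centres
-/

set_option autoImplicit false

open Set Filter Topology MeasureTheory Polynomial
open scoped ContDiff ENNReal Polynomial.Bivariate

namespace Pool.Agent.Lib.MP_95e7ec_an

private theorem br2_ne {A : ℂ[X][Y]} (hA : A ≠ 0) : Polynomial.Bivariate.swap A ≠ 0 := by
  intro h
  apply hA
  exact (map_eq_zero_iff _ (Polynomial.Bivariate.swap (R := ℂ)).injective).1 h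

private theorem br2_sum (f : Multiset ℂ[X][Y]) (hf : ∀ Q ∈ f, Q ≠ 0) :
    (f.map fun Q => (Polynomial.Bivariate.swap Q).natDegree).sum =
      (Polynomial.Bivariate.swap f.prod).natDegree := by
  induction f using Multiset.induction with
  | empty => simp
  | cons Q f ih =>
    have h1 := ih fun R hR => hf R (Multiset.mem_cons_of_mem hR)
    have hQ0 : Q ≠ 0 := hf Q (Multiset.mem_cons_self Q f)
    have hf0 : f.prod ≠ 0 := by
      intro h
      rw [Multiset.prod_eq_zero_iff] at h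
      exact hf 0 (Multiset.mem_cons_of_mem h) rfl
    rw [Multiset.map_cons, Multiset.sum_cons, Multiset.prod_cons, map_mul,
      natDegree_mul (br2_ne hQ0) (br2_ne hf0), h1]

/-- The inner degrees add. Proof. Let `idg A = (Polynomial.Bivariate.swap A).natDegree`; `IDeg A e ↔ idg A ≤ e` (`ideg_iff`,
Ry/InnerDeg.lean), `idg (A * B) = idg A + idg B` for `A, B ≠ 0` (`natDegree_mul` in a domain). Induction over `f`. -/
theorem ideg_split (f : Multiset ℂ[X][Y]) (hf : ∀ Q ∈ f, Q ≠ 0) {e : ℕ} (he : IDeg f.prod e) :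
    ∃ d : ℂ[X][Y] → ℕ, (∀ Q ∈ f, IDeg Q (d Q)) ∧ (f.map d).sum ≤ e := by
  refine ⟨fun Q => (Polynomial.Bivariate.swap Q).natDegree, fun Q _ => ideg_iff.2 le_rfl, ?_⟩
  rw [br2_sum f hf]
  exact ideg_iff.1 he

private theorem br2_irr {Q : ℂ[X][Y]} (hQ : Irreducible Q) {N e : ℕ}
    (hN : Q.natDegree ≤ N) (he : IDeg Q e) : ∃ U : Finset ℝ, U.card ≤ 2 * N * e + e ∧
      ∀ I : Set ℝ, IsOpen I → I.OrdConnected → I.Nonempty → (∀ x ∈ I, ∀ u ∈ U, x ≠ u) →
        ∃ b : Fin Q.natDegree → ℂ → ℂ, Branches Q I b := by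
  classical
  rcases Nat.eq_zero_or_pos Q.natDegree with hd | hd
  · exact ⟨∅, by simp, fun I _ _ _ _ => branches_const hd I⟩
  · obtain ⟨δ, hδ, hδd, hδe⟩ := irr_disc hQ hd hN he
    refine ⟨cen1 δ ∪ cen1 Q.leadingCoeff, ?_, ?_⟩
    · refine (Finset.card_union_le _ _).trans (add_le_add ((cen1_card δ).trans hδd) ?_)
      exact (cen1_card _).trans (he _)
    · intro I hI hI' hne hU
      have h1 : ∀ ρ ∈ strip I, δ.eval (Complex.exp ρ) ≠ 0 := fun ρ hρ =>
        eval_exp_ne hδ fun u hu => hU ρ.re hρ u (Finset.mem_union_left _ hu)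
      have h2 : ∀ ρ ∈ strip I, Q.leadingCoeff.eval (Complex.exp ρ) ≠ 0 := fun ρ hρ =>
        eval_exp_ne (leadingCoeff_ne_zero.2 hQ.ne_zero) fun u hu =>
          hU ρ.re hρ u (Finset.mem_union_right _ hu)
      exact branches_of_simple hI hI' hne h2 fun ρ hρ s hs hs' => h1 ρ hρ (hδe _ _ hs hs')

private theorem br2_prod (f : Multiset ℂ[X][Y]) (D : ℂ[X][Y] → ℕ)
    (hf : ∀ Q ∈ f, Q ≠ 0 ∧ ∃ U : Finset ℝ, U.card ≤ D Q ∧
      ∀ I : Set ℝ, IsOpen I → I.OrdConnected → I.Nonempty → (∀ x ∈ I, ∀ u ∈ U, x ≠ u) →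
        ∃ b : Fin Q.natDegree → ℂ → ℂ, Branches Q I b) :
    f.prod ≠ 0 ∧ ∃ U : Finset ℝ, U.card ≤ (f.map D).sum ∧
      ∀ I : Set ℝ, IsOpen I → I.OrdConnected → I.Nonempty → (∀ x ∈ I, ∀ u ∈ U, x ≠ u) →
        ∃ b : Fin f.prod.natDegree → ℂ → ℂ, Branches f.prod I b := by
  classical
  induction f using Multiset.induction_on with
  | empty =>
    rw [Multiset.prod_zero]
    exact ⟨one_ne_zero, ∅, by simp, fun I _ _ _ _ => branches_const natDegree_one I⟩
  | cons Q f ih =>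
    obtain ⟨hQ0, UQ, hUQ, hQ⟩ := hf Q (Multiset.mem_cons_self Q f)
    obtain ⟨hf0, Uf, hUf, hfb⟩ := ih fun P hP => hf P (Multiset.mem_cons_of_mem hP)
    rw [Multiset.prod_cons]
    refine ⟨mul_ne_zero hQ0 hf0, UQ ∪ Uf, ?_, ?_⟩
    · refine (Finset.card_union_le _ _).trans ?_
      rw [Multiset.map_cons, Multiset.sum_cons]
      omega
    · intro I hI hI' hne hU
      exact branches_mul hQ0 hf0
        (hQ I hI hI' hne fun x hx u hu => hU x hx u (Finset.mem_union_left _ hu))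
        (hfb I hI hI' hne fun x hx u hu => hU x hx u (Finset.mem_union_right _ hu))

/-- `exists_branches` (Ry/BrMain.lean) with at most `2 N e + e` centres. Proof. The proof of `exists_branches`: the irreducible
factor `Q` has at most `2 N d(Q) + d(Q)` centres, `d` the function of `ideg_split` (for `f.prod`, which divides `A`:
`IDeg.of_dvd`); in `brMain_prod` replace the bound `card f * D` by the sum of the bounds of the factors. (`brMain_irr` and
`brMain_prod` are private: copy them.) -/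
theorem exists_branches2 {A : ℂ[X][Y]} (hA : A ≠ 0) {N e : ℕ} (hN : A.natDegree ≤ N)
    (he : IDeg A e) : ∃ U : Finset ℝ, U.card ≤ 2 * N * e + e ∧
      ∀ I : Set ℝ, IsOpen I → I.OrdConnected → I.Nonempty → (∀ x ∈ I, ∀ u ∈ U, x ≠ u) →
        ∃ b : Fin A.natDegree → ℂ → ℂ, Branches A I b := by
  obtain ⟨f, hf, u, hu⟩ := WfDvdMonoid.exists_factors A hA
  have hdvd : f.prod ∣ A := ⟨u, hu.symm⟩
  obtain ⟨d, hd, hds⟩ := ideg_split f (fun Q hQ => (hf Q hQ).ne_zero) (he.of_dvd hA hdvd)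
  have hQ : ∀ Q ∈ f, Q ≠ 0 ∧ ∃ U : Finset ℝ, U.card ≤ (2 * N + 1) * d Q ∧
      ∀ I : Set ℝ, IsOpen I → I.OrdConnected → I.Nonempty → (∀ x ∈ I, ∀ u ∈ U, x ≠ u) →
        ∃ b : Fin Q.natDegree → ℂ → ℂ, Branches Q I b := by
    intro Q hQf
    have hQA : Q ∣ A := (Multiset.dvd_prod hQf).trans hdvd
    obtain ⟨U, hU, hb⟩ := br2_irr (hf Q hQf) ((natDegree_le_of_dvd hQA hA).trans hN) (hd Q hQf)
    exact ⟨(hf Q hQf).ne_zero, U, hU.trans (le_of_eq (by ring)), hb⟩
  obtain ⟨hf0, U, hU, hb⟩ := br2_prod f (fun Q => (2 * N + 1) * d Q) hQ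
  refine ⟨U, hU.trans ?_, ?_⟩
  · rw [Multiset.sum_map_mul_left]
    calc (2 * N + 1) * (f.map d).sum ≤ (2 * N + 1) * e := Nat.mul_le_mul_left _ hds
      _ = 2 * N * e + e := by ring
  intro I hI hI' hne hx
  have hu0 : ((u : (ℂ[X][Y])ˣ) : ℂ[X][Y]).natDegree = 0 := natDegree_coe_units u
  have h := branches_mul hf0 u.ne_zero (hb I hI hI' hne hx) (branches_const hu0 I)
  rw [hu] at h
  exact h

end Pool.Agent.Lib.MP_95e7ec_an
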