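import Mathlib
import Pool.Agent.Lib.MP_95e7ec_an.Rt.Defs

/-!
# Rt, BorC: from the oscillation on a circle to the derivatives at the centre
-/

set_option autoImplicit false

open Set Filter Topology MeasureTheory Polynomial
open scoped ContDiff ENNReal Polynomial.Bivariate

namespace Pool.Agent.Lib.MP_95e7ec_an

/-- Proof. Let `ρ₁`, `ρ₂` be a maximum and a minimum point of `‖g‖` on the circle. By the maximum principle for `g`
and for `1/g` on the closed disc of radius `s` (`Complex.norm_le_of_forall_mem_frontier_norm_le`): `‖g ρ‖ ≤ ‖g ρ₁‖` and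
`‖g ρ₂‖ ≤ ‖g x‖`; `log ‖g ρ₁‖ - log ‖g ρ₂‖ ≤ M`. -/
theorem max_disc {g : ℂ → ℂ} {x : ℂ} {s M : ℝ} (h2 : 2 ≤ s) (h3 : s ≤ 3)
    (hg : DifferentiableOn ℂ g (Metric.ball x 4)) (hne : ∀ ρ ∈ Metric.ball x 4, g ρ ≠ 0)
    (h : ∀ ρ ∈ Metric.sphere x s, ∀ ρ' ∈ Metric.sphere x s,
      Real.log ‖g ρ‖ - Real.log ‖g ρ'‖ ≤ M) :
    ∀ ρ ∈ Metric.ball x 2, ‖g ρ‖ ≤ Real.exp M * ‖g x‖ := by
  have hs0 : s ≠ 0 := by linarith
  have hsub : Metric.closedBall x s ⊆ Metric.ball x 4 :=
    Metric.closedBall_subset_ball (by linarith)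
  have hsph : Metric.sphere x s ⊆ Metric.ball x 4 := Metric.sphere_subset_closedBall.trans hsub
  have hcl : closure (Metric.ball x s) = Metric.closedBall x s := closure_ball x hs0
  have hfr : frontier (Metric.ball x s) = Metric.sphere x s := frontier_ball x hs0
  have hgd : DiffContOnCl ℂ g (Metric.ball x s) := by
    apply DifferentiableOn.diffContOnCl
    rw [hcl]
    exact hg.mono hsub
  have hgi : DiffContOnCl ℂ (fun ρ => (g ρ)⁻¹) (Metric.ball x s) := by
    apply DifferentiableOn.diffContOnCl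
    rw [hcl]
    exact (hg.mono hsub).inv (fun ρ hρ => hne ρ (hsub hρ))
  have hcont : ContinuousOn (fun ρ => ‖g ρ‖) (Metric.sphere x s) :=
    (hg.continuousOn.mono hsph).norm
  have hne' : (Metric.sphere x s).Nonempty := by
    rw [NormedSpace.sphere_nonempty]
    linarith
  obtain ⟨ρ₁, hρ₁, hmax⟩ := (isCompact_sphere x s).exists_isMaxOn hne' hcont
  obtain ⟨ρ₂, hρ₂, hmin⟩ := (isCompact_sphere x s).exists_isMinOn hne' hcont
  have hpos : ∀ ρ ∈ Metric.ball x 4, 0 < ‖g ρ‖ := fun ρ hρ => norm_pos_iff.mpr (hne ρ hρ)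
  have h1 : ∀ ρ ∈ Metric.closedBall x s, ‖g ρ‖ ≤ ‖g ρ₁‖ := by
    intro ρ hρ
    refine Complex.norm_le_of_forall_mem_frontier_norm_le Metric.isBounded_ball hgd ?_
      (by rw [hcl]; exact hρ)
    rw [hfr]
    intro z hz
    exact hmax hz
  have h2' : ‖(g x)⁻¹‖ ≤ ‖g ρ₂‖⁻¹ := by
    refine Complex.norm_le_of_forall_mem_frontier_norm_le Metric.isBounded_ball hgi ?_
      (by rw [hcl]; exact Metric.mem_closedBall_self (by linarith))
    rw [hfr]
    intro z hz
    rw [norm_inv]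
    exact inv_anti₀ (hpos _ (hsph hρ₂)) (hmin hz)
  have hx4 : x ∈ Metric.ball x 4 := Metric.mem_ball_self (by norm_num)
  have h3' : ‖g ρ₂‖ ≤ ‖g x‖ := by
    rw [norm_inv] at h2'
    exact (inv_le_inv₀ (hpos _ hx4) (hpos _ (hsph hρ₂))).mp h2'
  intro ρ hρ
  have hρ' : ρ ∈ Metric.closedBall x s :=
    Metric.ball_subset_closedBall (Metric.ball_subset_ball h2 hρ)
  have h4 := h ρ₁ hρ₁ ρ₂ hρ₂
  have h5 : ‖g ρ₁‖ ≤ Real.exp M * ‖g ρ₂‖ := by
    have p1 := hpos _ (hsph hρ₁)
    have p2 := hpos _ (hsph hρ₂)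
    calc ‖g ρ₁‖ = Real.exp (Real.log ‖g ρ₁‖) := (Real.exp_log p1).symm
      _ ≤ Real.exp (M + Real.log ‖g ρ₂‖) := Real.exp_le_exp.mpr (by linarith)
      _ = Real.exp M * ‖g ρ₂‖ := by rw [Real.exp_add, Real.exp_log p2]
  calc ‖g ρ‖ ≤ ‖g ρ₁‖ := h1 ρ hρ'
    _ ≤ Real.exp M * ‖g ρ₂‖ := h5
    _ ≤ Real.exp M * ‖g x‖ := mul_le_mul_of_nonneg_left h3' (Real.exp_pos _).le

/-- Proof. `g'/g` has a primitive `H` on the disc with `H x = 0` (`DifferentiableOn.isExactOn_ball`, HasPrimitives.lean), and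
`g = g x * exp H` (the derivative of `g exp (-H)` is `0`). `Re H ≤ M` on `ball x 2`, so by Borel and Caratheodory
(`Complex.borelCaratheodory_zero`, Mathlib/Analysis/Complex/BorelCaratheodory.lean) `‖H‖ ≤ 2 M r / (2 - r) ≤ 2 M` for
`‖ρ - x‖ ≤ r ≤ 1`. Cauchy on the circle of radius `1` (or less): `‖H' x‖ ≤ 2 M`, `‖H'' x‖ ≤ 4 M`
(`Complex.norm_deriv_le_of_forall_mem_sphere_norm_le`, `Complex.norm_iteratedDeriv_le_of_forall_mem_sphere_norm_le`).
`g' = H' g`, `g'' = (H'' + H'^2) g`: at most `(4 M + 4 M²) ‖g x‖ ≤ 8 M² ‖g x‖`. -/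
theorem bor_dbd {g : ℂ → ℂ} {x : ℂ} {M : ℝ} (hM : 1 ≤ M)
    (hg : DifferentiableOn ℂ g (Metric.ball x 2)) (hne : ∀ ρ ∈ Metric.ball x 2, g ρ ≠ 0)
    (h : ∀ ρ ∈ Metric.ball x 2, ‖g ρ‖ ≤ Real.exp M * ‖g x‖) : DBd (M ^ 2) g x := by
  have hx2 : x ∈ Metric.ball x 2 := Metric.mem_ball_self (by norm_num)
  have hgd : ∀ z ∈ Metric.ball x 2, DifferentiableAt ℂ g z := fun z hz =>
    (hg z hz).differentiableAt (Metric.isOpen_ball.mem_nhds hz)
  have hq : DifferentiableOn ℂ (fun z => deriv g z / g z) (Metric.ball x 2) :=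
    (hg.deriv Metric.isOpen_ball).div hg hne
  obtain ⟨H, hH0, hH⟩ := (DifferentiableOn.isExactOn_ball hq).with_val_at x 0
  have hHd : DifferentiableOn ℂ H (Metric.ball x 2) := fun z hz =>
    (hH z hz).differentiableAt.differentiableWithinAt
  have hgH : ∀ z ∈ Metric.ball x 2, g z = g x * Complex.exp (H z) := by
    have hpre : IsPreconnected (Metric.ball x 2) := (convex_ball x 2).isPreconnected
    have hder : ∀ z ∈ Metric.ball x 2, HasDerivAt (fun z => g z * Complex.exp (-(H z))) 0 z := by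
      intro z hz
      have e1 := (hgd z hz).hasDerivAt
      have e2 := ((hH z hz).neg).cexp
      have e3 := e1.mul e2
      refine e3.congr_deriv ?_
      have := hne z hz
      field_simp
      ring
    intro z hz
    have e4 := Metric.isOpen_ball.is_const_of_deriv_eq_zero hpre
      (f := fun z => g z * Complex.exp (-(H z)))
      (fun z hz => (hder z hz).differentiableAt.differentiableWithinAt)
      (fun z hz => (hder z hz).deriv) hz hx2
    simp only [hH0, neg_zero, Complex.exp_zero, mul_one] at e4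
    rw [← e4, mul_assoc, ← Complex.exp_add, neg_add_cancel, Complex.exp_zero, mul_one]
  have hgx : 0 < ‖g x‖ := norm_pos_iff.mpr (hne x hx2)
  have hre : ∀ z ∈ Metric.ball x 2, (H z).re ≤ M := by
    intro z hz
    have e1 := h z hz
    rw [hgH z hz, norm_mul, Complex.norm_exp, mul_comm] at e1
    exact Real.exp_le_exp.mp (le_of_mul_le_mul_right e1 hgx)
  have hM0 : 0 < M := by linarith
  have hbc : ∀ z ∈ Metric.sphere x 1, ‖H z‖ ≤ 2 * M := by
    intro z hz
    have hz1 : ‖z - x‖ = 1 := by rwa [mem_sphere_iff_norm] at hz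
    have hz2 : z - x ∈ Metric.ball (0 : ℂ) 2 := by
      rw [mem_ball_zero_iff, hz1]; norm_num
    have hmap : ∀ w ∈ Metric.ball (0 : ℂ) 2, x + w ∈ Metric.ball x 2 := by
      intro w hw
      rw [mem_ball_zero_iff] at hw
      rw [mem_ball_iff_norm, add_sub_cancel_left]
      exact hw
    have e1 := Complex.borelCaratheodory_zero (f := fun w => H (x + w)) (M := M) (R := 2)
      (z := z - x) hM0
      (hHd.comp ((differentiable_id.const_add x).differentiableOn) hmap)
      (fun w hw => hre _ (hmap w hw)) (by norm_num) hz2 (by simpa using hH0)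
    rw [hz1] at e1
    simp only [add_sub_cancel] at e1
    linarith
  have hcl : DiffContOnCl ℂ H (Metric.ball x 1) := by
    apply DifferentiableOn.diffContOnCl
    rw [closure_ball x one_ne_zero]
    exact hHd.mono (Metric.closedBall_subset_ball (by norm_num))
  have d1 : ‖deriv H x‖ ≤ 2 * M := by
    have := Complex.norm_deriv_le_of_forall_mem_sphere_norm_le one_pos hcl hbc
    simpa using this
  have d2 : ‖deriv (deriv H) x‖ ≤ 4 * M := by
    have := Complex.norm_iteratedDeriv_le_of_forall_mem_sphere_norm_le 2 one_pos hcl hbc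
    rw [iteratedDeriv_succ, iteratedDeriv_one] at this
    have e : ((2 : ℕ).factorial : ℝ) * (2 * M) / 1 ^ 2 = 4 * M := by
      norm_num [Nat.factorial]
      ring
    rwa [e] at this
  have g1 : ∀ z ∈ Metric.ball x 2, deriv g z = deriv H z * g z := by
    intro z hz
    rw [(hH z hz).deriv, div_mul_cancel₀ _ (hne z hz)]
  have g2 : deriv (deriv g) x = deriv (deriv H) x * g x + deriv H x * (deriv H x * g x) := by
    have e1 : deriv g =ᶠ[𝓝 x] fun z => deriv H z * g z :=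
      Filter.eventuallyEq_of_mem (Metric.isOpen_ball.mem_nhds hx2) g1
    rw [e1.deriv_eq]
    have e2 : DifferentiableAt ℂ (deriv H) x :=
      ((hHd.deriv Metric.isOpen_ball) x hx2).differentiableAt (Metric.isOpen_ball.mem_nhds hx2)
    have e3 := (e2.hasDerivAt.mul (hgd x hx2).hasDerivAt).deriv
    rw [g1 x hx2] at e3
    exact e3
  refine ⟨?_, ?_⟩
  · rw [g1 x hx2, norm_mul]
    refine mul_le_mul_of_nonneg_right (d1.trans ?_) hgx.le
    nlinarith
  · rw [g2]
    have d3 : ‖deriv H x‖ ^ 2 ≤ (2 * M) ^ 2 := pow_le_pow_left₀ (norm_nonneg _) d1 2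
    calc ‖deriv (deriv H) x * g x + deriv H x * (deriv H x * g x)‖
        ≤ ‖deriv (deriv H) x * g x‖ + ‖deriv H x * (deriv H x * g x)‖ := norm_add_le _ _
      _ = (‖deriv (deriv H) x‖ + ‖deriv H x‖ ^ 2) * ‖g x‖ := by
          rw [norm_mul, norm_mul, norm_mul]; ring
      _ ≤ (8 * M ^ 2) * ‖g x‖ := by
          refine mul_le_mul_of_nonneg_right ?_ hgx.le
          nlinarith

end Pool.Agent.Lib.MP_95e7ec_an
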