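import Mathlib
import Pool.Agent.Lib.MP_95e7ec_an.Rt.Defs
import Pool.Agent.Lib.MP_95e7ec_an.Ry.TwoTerm

/-!
# Rt, CTwo: the two-term argument on a circle
-/

set_option autoImplicit false

open Set Filter Topology MeasureTheory Polynomial
open scoped ContDiff ENNReal Polynomial.Bivariate

namespace Pool.Agent.Lib.MP_95e7ec_an

private theorem cTwo_evalEval {A : ℂ[X][Y]} {N : ℕ} (hN : A.natDegree ≤ N) (r y : ℂ) :
    A.evalEval r y = ∑ k ∈ Finset.range (N + 1), (A.coeff k).eval r * y ^ k := by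
  unfold evalEval
  rw [eval_eq_sum_range' (Nat.lt_succ_of_le hN), eval_finsetSum]
  refine Finset.sum_congr rfl fun k _ => ?_
  rw [eval_mul, eval_pow, eval_C]

private theorem cTwo_cV_nonneg (N e : ℕ) : 0 ≤ cV N e := by
  unfold cV
  refine mul_nonneg (Nat.cast_nonneg e) (add_nonneg (by norm_num) (Real.log_nonneg ?_))
  have h1 : (0 : ℝ) ≤ 3 * ((N : ℝ) + 1) * e := by positivity
  linarith

/-- Proof. The last part of the proof of `two_term` (Ry/TwoTerm.lean), with the circle in place of the ball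
(`isPreconnected_sphere`, `Complex.rank_real_complex`), `L = ℓ` and `cV N e` in place of `3 e`: by `two_large` there are
`j ≠ k` with `|log ‖g ρ‖ - c_{jk}| ≤ w := log (N+1) + 2 cV N e`, `c_{jk} = (ℓ j - ℓ k) / (k - j)`; `connected_cover` with the
`(N+1)²` intervals of length `2w`. -/
theorem circle_two {A : ℂ[X][Y]} (hA : A ≠ 0) {N e : ℕ} (hN : A.natDegree ≤ N) (he1 : 1 ≤ e)
    {x s : ℝ} (hs : 0 < s) {ℓ : ℕ → ℝ} (hℓ : ∀ k, A.coeff k ≠ 0 → ∀ ρ : ℂ, ‖ρ - x‖ = s →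
      (A.coeff k).eval (Complex.exp ρ) ≠ 0 ∧
        |Real.log ‖(A.coeff k).eval (Complex.exp ρ)‖ - ℓ k| ≤ cV N e) {g : ℂ → ℂ}
    (hg : ContinuousOn g (Metric.sphere (x : ℂ) s)) (hne : ∀ ρ ∈ Metric.sphere (x : ℂ) s, g ρ ≠ 0)
    (h : ∀ ρ ∈ Metric.sphere (x : ℂ) s, A.evalEval (Complex.exp ρ) (g ρ) = 0) :
    ∀ ρ ∈ Metric.sphere (x : ℂ) s, ∀ ρ' ∈ Metric.sphere (x : ℂ) s,
      Real.log ‖g ρ‖ - Real.log ‖g ρ'‖ ≤ cM N e := by
  have hpre : IsPreconnected (Metric.sphere (x : ℂ) s) :=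
    isPreconnected_sphere (by rw [Complex.rank_real_complex]; exact Nat.one_lt_ofNat) _ _
  set m := A.natTrailingDegree with hm
  have hm0 : A.coeff m ≠ 0 := by
    have := trailingCoeff_nonzero_iff_nonzero.2 hA
    exact this
  have hmN : m ≤ N := (le_natDegree_of_ne_zero hm0).trans hN
  have hcV : 0 ≤ cV N e := cTwo_cV_nonneg N e
  set w : ℝ := Real.log ((N : ℝ) + 1) + 2 * cV N e with hw
  have hlogN : 0 ≤ Real.log ((N : ℝ) + 1) := Real.log_nonneg (by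
    have : (0 : ℝ) ≤ N := by positivity
    linarith)
  have hw0 : 0 ≤ w := by positivity
  set c : Fin (N + 1) × Fin (N + 1) → ℝ := fun p =>
    (ℓ p.1 - ℓ p.2) / (((p.2 : ℕ) : ℝ) - ((p.1 : ℕ) : ℝ)) with hc
  set S : Set ℝ := (fun ρ => Real.log ‖g ρ‖) '' Metric.sphere (x : ℂ) s with hS
  have hSord : S.OrdConnected := by
    have hcont : ContinuousOn (fun ρ => Real.log ‖g ρ‖) (Metric.sphere (x : ℂ) s) :=
      ContinuousOn.log hg.norm (fun ρ hρ => (norm_pos_iff.2 (hne ρ hρ)).ne')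
    exact (hpre.image _ hcont).ordConnected
  have hcov : S ⊆ ⋃ i ∈ (Finset.univ : Finset (Fin (N + 1) × Fin (N + 1))),
      Icc (c i - w) (c i + w) := by
    rintro _ ⟨ρ, hρ, rfl⟩
    have hρs : ‖ρ - x‖ = s := mem_sphere_iff_norm.1 hρ
    have hgρ := hne ρ hρ
    have hsum : ∑ k : Fin (N + 1), (A.coeff (k : ℕ)).eval (Complex.exp ρ) * g ρ ^ (k : ℕ) = 0 := by
      rw [Fin.sum_univ_eq_sum_range
        (fun k => (A.coeff k).eval (Complex.exp ρ) * g ρ ^ k) (N + 1), ← cTwo_evalEval hN]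
      exact h ρ hρ
    obtain ⟨j, k, hjk, hj, hk, hkj1, hkj2⟩ := two_large
      (fun k : Fin (N + 1) => (A.coeff (k : ℕ)).eval (Complex.exp ρ) * g ρ ^ (k : ℕ)) hsum
      ⟨⟨m, by omega⟩, mul_ne_zero (hℓ m hm0 ρ hρs).1 (pow_ne_zero _ hgρ)⟩
    have hcoef : ∀ i : Fin (N + 1), (A.coeff (i : ℕ)).eval (Complex.exp ρ) * g ρ ^ (i : ℕ) ≠ 0 →
        A.coeff (i : ℕ) ≠ 0 := by
      intro i hi h0
      rw [h0, eval_zero, zero_mul] at hi
      exact hi rfl
    have hlog : ∀ i : Fin (N + 1), (A.coeff (i : ℕ)).eval (Complex.exp ρ) * g ρ ^ (i : ℕ) ≠ 0 →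
        |Real.log ‖(A.coeff (i : ℕ)).eval (Complex.exp ρ) * g ρ ^ (i : ℕ)‖ -
          (ℓ i + (i : ℕ) * Real.log ‖g ρ‖)| ≤ cV N e := by
      intro i hi
      have h1 := hℓ i (hcoef i hi) ρ hρs
      rw [norm_mul, norm_pow, Real.log_mul (norm_pos_iff.2 h1.1).ne'
        (pow_pos (norm_pos_iff.2 hgρ) _).ne', Real.log_pow, add_sub_add_right_eq_sub]
      exact h1.2
    have l1 := hlog j hj
    have l2 := hlog k hk
    have n1 : Real.log ‖(A.coeff (j : ℕ)).eval (Complex.exp ρ) * g ρ ^ (j : ℕ)‖ ≤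
        Real.log ‖(A.coeff (k : ℕ)).eval (Complex.exp ρ) * g ρ ^ (k : ℕ)‖ :=
      Real.log_le_log (norm_pos_iff.2 hj) hkj2
    have n2 : Real.log ‖(A.coeff (k : ℕ)).eval (Complex.exp ρ) * g ρ ^ (k : ℕ)‖ ≤
        Real.log ((N : ℝ) + 1) +
          Real.log ‖(A.coeff (j : ℕ)).eval (Complex.exp ρ) * g ρ ^ (j : ℕ)‖ := by
      rw [← Real.log_mul (by positivity) (norm_pos_iff.2 hj).ne']
      refine Real.log_le_log (norm_pos_iff.2 hk) (hkj1.trans ?_)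
      have := norm_nonneg ((A.coeff (j : ℕ)).eval (Complex.exp ρ) * g ρ ^ (j : ℕ))
      nlinarith
    refine mem_iUnion₂.2 ⟨(j, k), Finset.mem_univ _, ?_⟩
    have hd : ((k : ℕ) : ℝ) - ((j : ℕ) : ℝ) ≠ 0 := by
      intro h0
      apply hjk
      apply Fin.ext
      have : ((k : ℕ) : ℝ) = ((j : ℕ) : ℝ) := by linarith
      exact_mod_cast this.symm
    have hd1 : 1 ≤ |((k : ℕ) : ℝ) - ((j : ℕ) : ℝ)| := by
      have h1 : (((k : ℕ) : ℤ) - ((j : ℕ) : ℤ)) ≠ 0 := by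
        intro h0
        apply hd
        exact_mod_cast h0
      have h2 := Int.one_le_abs h1
      exact_mod_cast h2
    have hmain : |(((k : ℕ) : ℝ) - ((j : ℕ) : ℝ)) * (Real.log ‖g ρ‖ - c (j, k))| ≤ w := by
      have h1 : (((k : ℕ) : ℝ) - ((j : ℕ) : ℝ)) * (Real.log ‖g ρ‖ - c (j, k)) =
          (((k : ℕ) : ℝ) - ((j : ℕ) : ℝ)) * Real.log ‖g ρ‖ - (ℓ j - ℓ k) := by
        rw [hc]
        field_simp
      rw [h1, abs_le]
      rw [abs_le] at l1 l2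
      constructor <;> linarith [l1.1, l1.2, l2.1, l2.2]
    have habs : |Real.log ‖g ρ‖ - c (j, k)| ≤ w := by
      rw [abs_mul] at hmain
      have h1 := mul_le_mul_of_nonneg_right hd1 (abs_nonneg (Real.log ‖g ρ‖ - c (j, k)))
      linarith
    rw [abs_le] at habs
    exact ⟨by linarith [habs.1], by linarith [habs.2]⟩
  intro ρ hρ ρ' hρ'
  have hfin := connected_cover hSord Finset.univ c (fun _ => w) (fun _ _ => hw0) hcov
    (x := Real.log ‖g ρ‖) (y := Real.log ‖g ρ'‖) ⟨ρ, hρ, rfl⟩ ⟨ρ', hρ', rfl⟩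
  rw [Finset.sum_const, Finset.card_univ, Fintype.card_prod, Fintype.card_fin, nsmul_eq_mul]
    at hfin
  have htt : (((N + 1) * (N + 1) : ℕ) : ℝ) * (2 * w) = cM N e := by
    rw [hw, cM]
    push_cast
    ring
  rw [htt] at hfin
  exact (abs_le.1 hfin).2

end Pool.Agent.Lib.MP_95e7ec_an
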