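import Mathlib
import Pool.Agent.Lib.MP_95e7ec_an.Rt.Defs

/-!
# Rt, Radius: a good radius
-/

set_option autoImplicit false

open Set Filter Topology MeasureTheory Polynomial
open scoped ContDiff ENNReal Polynomial.Bivariate

namespace Pool.Agent.Lib.MP_95e7ec_an

/-- Proof. The `M + 1` points `s i = 2 + (2 i + 1) / (2 (M+1))`, `i = 0, .., M`, are in `[2,3]` and their distances are at least
`2 η`, `η = 1 / (2 (M+1))`; if every one of them had a point of `T` at distance less than `η`, then `T` would have more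
than `M` points. -/
theorem good_radius (T : Finset ℝ) {M : ℕ} (hT : T.card ≤ M) :
    ∃ s : ℝ, 2 ≤ s ∧ s ≤ 3 ∧ ∀ z ∈ T, 1 / (2 * ((M : ℝ) + 1)) ≤ |z - s| := by
  have hM : (0 : ℝ) < (M : ℝ) + 1 := by positivity
  set η : ℝ := 1 / (2 * ((M : ℝ) + 1)) with hη
  have hη0 : 0 < η := by rw [hη]; positivity
  have hη2 : η * (2 * ((M : ℝ) + 1)) = 1 := by rw [hη]; field_simp
  by_contra hcon
  push Not at hcon
  -- the candidates
  have key : ∀ i : Fin (M + 1), ∃ z ∈ T, |z - (2 + (2 * (i : ℝ) + 1) * η)| < η := by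
    intro i
    have hi : ((i : ℕ) : ℝ) ≤ M := by exact_mod_cast Nat.lt_succ_iff.1 i.2
    apply hcon
    · have : 0 ≤ (2 * ((i : ℕ) : ℝ) + 1) * η := by positivity
      linarith
    · nlinarith
  choose z hz1 hz2 using key
  have hinj : Function.Injective z := by
    intro i j hij
    by_contra hne
    have h1 := hz2 i
    have h2 := hz2 j
    rw [hij] at h1
    have hne' : ((i : ℕ) : ℤ) ≠ ((j : ℕ) : ℤ) := by
      intro h
      exact hne (Fin.ext (by exact_mod_cast h))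
    rw [abs_lt] at h1 h2
    rcases lt_or_gt_of_ne hne' with h | h
    · have h3 : ((i : ℕ) : ℝ) + 1 ≤ ((j : ℕ) : ℝ) := by exact_mod_cast h
      nlinarith
    · have h3 : ((j : ℕ) : ℝ) + 1 ≤ ((i : ℕ) : ℝ) := by exact_mod_cast h
      nlinarith
  have hc : (Finset.univ.image z).card ≤ T.card := by
    apply Finset.card_le_card
    intro x hx
    rw [Finset.mem_image] at hx
    obtain ⟨i, _, rfl⟩ := hx
    exact hz1 i
  rw [Finset.card_image_of_injective _ hinj, Finset.card_univ, Fintype.card_fin] at hc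
  omega

/-- the exact value of the norm of `e^w - 1` -/
private theorem radius_exp_norm_sq (w : ℂ) : ‖Complex.exp w - 1‖ ^ 2 =
    (1 - Real.exp w.re) ^ 2 + 4 * Real.exp w.re * Real.sin (w.im / 2) ^ 2 := by
  rw [← Complex.normSq_eq_norm_sq, Complex.normSq_apply, Complex.sub_re, Complex.sub_im,
    Complex.exp_re, Complex.exp_im, Complex.one_re, Complex.one_im]
  have h1 : Real.cos w.im = 1 - 2 * Real.sin (w.im / 2) ^ 2 := by
    have := Real.cos_two_mul (w.im / 2)
    rw [show 2 * (w.im / 2) = w.im by ring] at this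
    rw [this, ← Real.sin_sq_add_cos_sq (w.im / 2)]
    ring
  have h2 := Real.sin_sq_add_cos_sq w.im
  have h3 : (Real.exp w.re * Real.cos w.im - 1) * (Real.exp w.re * Real.cos w.im - 1) +
      (Real.exp w.re * Real.sin w.im - 0) * (Real.exp w.re * Real.sin w.im - 0) =
      Real.exp w.re ^ 2 * (Real.sin w.im ^ 2 + Real.cos w.im ^ 2) -
        2 * Real.exp w.re * Real.cos w.im + 1 := by ring
  rw [h3, h2, h1]
  ring

/-- the case `Re w ≤ 0` -/
private theorem radius_exp_sub_one_ge_neg {w : ℂ} (hw : |w.im| ≤ Real.pi) (h0 : w.re ≤ 0) {η : ℝ}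
    (hη : 0 < η) (hη1 : η ≤ 1) (h : η ≤ ‖w‖) : η / 6 ≤ ‖Complex.exp w - 1‖ := by
  have hp := Real.pi_pos
  have hsq := radius_exp_norm_sq w
  rcases le_total (-1) w.re with h1 | h1
  · -- `-1 ≤ Re w ≤ 0`
    have e1 : -w.re / 2 ≤ 1 - Real.exp w.re := by
      have h3 : 1 + -w.re ≤ Real.exp (-w.re) := by linarith [Real.add_one_le_exp (-w.re)]
      have h4 : Real.exp w.re * Real.exp (-w.re) = 1 := by
        rw [← Real.exp_add]; simp
      have h5 := Real.exp_pos w.re
      -- `exp a ≤ 1 / (1 - a)`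
      have h6 : Real.exp w.re * (1 + -w.re) ≤ 1 := by
        calc _ ≤ Real.exp w.re * Real.exp (-w.re) := mul_le_mul_of_nonneg_left h3 h5.le
          _ = 1 := h4
      by_contra hc
      push Not at hc
      nlinarith
    have e2 : 1 / 3 ≤ Real.exp w.re := by
      have h2 : Real.exp (-1) ≤ Real.exp w.re := Real.exp_le_exp.2 h1
      have h3 : Real.exp 1 < 3 := by linarith [Real.exp_one_lt_d9]
      have h4 : Real.exp (-1) * Real.exp 1 = 1 := by rw [← Real.exp_add]; simp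
      have h5 := Real.exp_pos (-1)
      nlinarith
    have e3 : (w.im / Real.pi) ^ 2 ≤ Real.sin (w.im / 2) ^ 2 := by
      have h2 : 2 / Real.pi * (|w.im| / 2) ≤ Real.sin (|w.im| / 2) :=
        Real.mul_le_sin (by positivity) (by linarith)
      have h3 : Real.sin (|w.im| / 2) ^ 2 = Real.sin (w.im / 2) ^ 2 := by
        rcases abs_cases w.im with ⟨h4, _⟩ | ⟨h4, _⟩
        · rw [h4]
        · rw [h4, neg_div, Real.sin_neg, neg_sq]
      rw [← h3]
      have h5 : (w.im / Real.pi) ^ 2 = (2 / Real.pi * (|w.im| / 2)) ^ 2 := by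
        rw [mul_pow, div_pow, div_pow, div_pow, sq_abs]
        field_simp
      rw [h5]
      exact pow_le_pow_left₀ (by positivity) h2 2
    have e4 : Real.pi ^ 2 ≤ 10 := by nlinarith [Real.pi_lt_d2]
    have e5 : w.im ^ 2 / 10 ≤ (w.im / Real.pi) ^ 2 := by
      rw [div_pow]
      exact div_le_div_of_nonneg_left (sq_nonneg _) (by positivity) e4
    have e6 : ‖w‖ ^ 2 = w.re ^ 2 + w.im ^ 2 := by
      rw [← Complex.normSq_eq_norm_sq, Complex.normSq_apply]; ring
    have e7 : (η / 6) ^ 2 ≤ ‖Complex.exp w - 1‖ ^ 2 := by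
      rw [hsq]
      have h2 : (-w.re / 2) ^ 2 ≤ (1 - Real.exp w.re) ^ 2 :=
        pow_le_pow_left₀ (by linarith) e1 2
      have h3 : 4 * (1 / 3) * (w.im ^ 2 / 10) ≤
          4 * Real.exp w.re * Real.sin (w.im / 2) ^ 2 :=
        mul_le_mul (by linarith) (e5.trans e3) (by positivity) (by positivity)
      have h4 : η ^ 2 ≤ ‖w‖ ^ 2 := pow_le_pow_left₀ hη.le h 2
      nlinarith [sq_nonneg w.re, sq_nonneg w.im]
    exact le_of_sq_le_sq e7 (norm_nonneg _)
  · -- `Re w ≤ -1`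
    have e1 : Real.exp w.re ≤ 1 / 2 := by
      have h2 : Real.exp w.re ≤ Real.exp (-1) := Real.exp_le_exp.2 h1
      have h3 : 2 ≤ Real.exp 1 := by linarith [Real.exp_one_gt_d9]
      have h4 : Real.exp (-1) * Real.exp 1 = 1 := by rw [← Real.exp_add]; simp
      have h5 := Real.exp_pos (-1)
      nlinarith
    have e2 : (η / 6) ^ 2 ≤ ‖Complex.exp w - 1‖ ^ 2 := by
      rw [hsq]
      have h2 : 0 ≤ 4 * Real.exp w.re * Real.sin (w.im / 2) ^ 2 := by positivity
      have h3 : (1 / 2 : ℝ) ^ 2 ≤ (1 - Real.exp w.re) ^ 2 :=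
        pow_le_pow_left₀ (by norm_num) (by linarith) 2
      nlinarith
    exact le_of_sq_le_sq e2 (norm_nonneg _)

/-- Proof. If the real parts satisfy `-1 ≤ Re w ≤ 0` then `‖e^w - 1‖² = (1 - e^a)² + 4 e^a sin² (b/2) ≥ a²/4 + 4 e^{-1} b²/π²`
(`w = a + ib`, `|b| ≤ π`; `Real.mul_le_sin`), at least `‖w‖²/36`; if `Re w ≤ -1` then `‖e^w - 1‖ ≥ 1 - e^{-1} ≥ 1/6`. For
`Re w ≥ 0` use `‖e^w - 1‖ = e^{Re w} ‖e^{-w} - 1‖`. -/
theorem exp_sub_one_ge {w : ℂ} (hw : |w.im| ≤ Real.pi) {η : ℝ} (hη : 0 < η) (hη1 : η ≤ 1)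
    (h : η ≤ ‖w‖) : η / 6 * max 1 (Real.exp w.re) ≤ ‖Complex.exp w - 1‖ := by
  rcases le_total w.re 0 with h0 | h0
  · rw [max_eq_left (Real.exp_le_one_iff.2 h0), mul_one]
    exact radius_exp_sub_one_ge_neg hw h0 hη hη1 h
  · rw [max_eq_right (Real.one_le_exp h0)]
    have h1 := radius_exp_sub_one_ge_neg (w := -w) (by rw [Complex.neg_im, abs_neg]; exact hw)
      (by rw [Complex.neg_re]; linarith) hη hη1 (by rw [norm_neg]; exact h)
    have h2 : Complex.exp w - 1 = -(Complex.exp w * (Complex.exp (-w) - 1)) := by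
      rw [mul_sub, ← Complex.exp_add]
      simp
    rw [h2, norm_neg, norm_mul, Complex.norm_exp, mul_comm]
    exact mul_le_mul_of_nonneg_left h1 (Real.exp_pos _).le

/-- Proof. Let `w = ρ - log r`; `|Im w| ≤ 3 + π < 2π + π`, so there is `m` with `|m| ≤ 1` and `|Im w - 2π m| ≤ π`; apply
`exp_sub_one_ge` to `w - 2π i m`: `‖e^ρ - r‖ = ‖r‖ ‖e^w - 1‖`, `‖r‖ max 1 (e^{Re w}) = max ‖r‖ (e^{Re ρ})`. The upper bound:
`‖e^ρ - r‖ ≤ 2 max ‖r‖ (e^{Re ρ})`, `log 2 ≤ log (6/η)`. -/
theorem log_exp_sub {r ρ : ℂ} (hr : r ≠ 0) (hρ : |ρ.im| ≤ 3) {η : ℝ} (hη : 0 < η) (hη1 : η ≤ 1)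
    (h : ∀ m : ℤ, |m| ≤ 1 → η ≤ ‖ρ - (Complex.log r + m * (2 * Real.pi * Complex.I))‖) :
    Complex.exp ρ - r ≠ 0 ∧
      |Real.log ‖Complex.exp ρ - r‖ - max ρ.re (Real.log ‖r‖)| ≤ Real.log (6 / η) := by
  have hp := Real.pi_pos
  have hp3 := Real.pi_gt_three
  have hr0 : 0 < ‖r‖ := norm_pos_iff.2 hr
  have hlog : |(Complex.log r).im| ≤ Real.pi := by
    rw [Complex.log_im]; exact Complex.abs_arg_le_pi r
  obtain ⟨m, hm, him⟩ : ∃ m : ℤ, |m| ≤ 1 ∧ |(ρ.im - (Complex.log r).im) - m * (2 * Real.pi)| ≤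
      Real.pi := by
    rw [abs_le] at hρ hlog
    rcases le_total (ρ.im - (Complex.log r).im) Real.pi with h1 | h1
    · rcases le_total (-Real.pi) (ρ.im - (Complex.log r).im) with h2 | h2
      · exact ⟨0, by norm_num, by rw [abs_le]; push_cast; constructor <;> linarith⟩
      · exact ⟨-1, by norm_num, by rw [abs_le]; push_cast; constructor <;> linarith⟩
    · exact ⟨1, by norm_num, by rw [abs_le]; push_cast; constructor <;> linarith⟩
  set w : ℂ := ρ - (Complex.log r + m * (2 * Real.pi * Complex.I)) with hw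
  have hwim : w.im = (ρ.im - (Complex.log r).im) - m * (2 * Real.pi) := by
    rw [hw]
    simp
    ring
  have hwre : w.re = ρ.re - Real.log ‖r‖ := by
    rw [hw]
    simp [Complex.log_re]
  have hexp : Complex.exp ρ = r * Complex.exp w := by
    have e1 : ρ = Complex.log r + (w + m * (2 * Real.pi * Complex.I)) := by rw [hw]; ring
    rw [e1, Complex.exp_add, Complex.exp_log hr, Complex.exp_add,
      Complex.exp_int_mul_two_pi_mul_I, mul_one]
  have key := exp_sub_one_ge (w := w) (by rw [hwim]; exact him) hη hη1 (h m hm)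
  have hre : Real.exp w.re = Real.exp ρ.re / ‖r‖ := by
    rw [hwre, Real.exp_sub, Real.exp_log hr0]
  have hM : max ρ.re (Real.log ‖r‖) = Real.log (max (Real.exp ρ.re) ‖r‖) := by
    rcases le_total ρ.re (Real.log ‖r‖) with h1 | h1
    · have h2 : Real.exp ρ.re ≤ ‖r‖ := by
        rw [← Real.exp_log hr0]; exact Real.exp_le_exp.2 h1
      rw [max_eq_right h1, max_eq_right h2]
    · have h2 : ‖r‖ ≤ Real.exp ρ.re := by
        rw [← Real.exp_log hr0]; exact Real.exp_le_exp.2 h1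
      rw [max_eq_left h1, max_eq_left h2, Real.log_exp]
  set A : ℝ := max (Real.exp ρ.re) ‖r‖ with hA
  have hA0 : 0 < A := lt_max_of_lt_right hr0
  have hlow : η / 6 * A ≤ ‖Complex.exp ρ - r‖ := by
    have e1 : Complex.exp ρ - r = r * (Complex.exp w - 1) := by rw [hexp]; ring
    rw [e1, norm_mul]
    have e2 : A = ‖r‖ * max 1 (Real.exp w.re) := by
      rw [hre, hA, mul_max_of_nonneg _ _ hr0.le, mul_one, mul_div_cancel₀ _ hr0.ne', max_comm]
    rw [e2]
    calc η / 6 * (‖r‖ * max 1 (Real.exp w.re)) = ‖r‖ * (η / 6 * max 1 (Real.exp w.re)) := by ring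
      _ ≤ _ := mul_le_mul_of_nonneg_left key hr0.le
  have hup : ‖Complex.exp ρ - r‖ ≤ 2 * A := by
    calc ‖Complex.exp ρ - r‖ ≤ ‖Complex.exp ρ‖ + ‖r‖ := norm_sub_le _ _
      _ ≤ A + A := by
        rw [Complex.norm_exp]
        exact add_le_add (le_max_left _ _) (le_max_right _ _)
      _ = 2 * A := by ring
  have hpos : 0 < ‖Complex.exp ρ - r‖ := lt_of_lt_of_le (by positivity) hlow
  refine ⟨norm_pos_iff.1 hpos, ?_⟩
  have h6 : Real.log (6 / η) = Real.log 6 - Real.log η := Real.log_div (by norm_num) hη.ne'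
  rw [hM, abs_le]
  constructor
  · have h1 := Real.log_le_log (by positivity) hlow
    rw [Real.log_mul (by positivity) hA0.ne', Real.log_div hη.ne' (by norm_num)] at h1
    rw [h6]
    linarith
  · have h1 := Real.log_le_log hpos hup
    rw [Real.log_mul (by norm_num) hA0.ne'] at h1
    have h2 : Real.log 2 ≤ Real.log (6 / η) := by
      apply Real.log_le_log (by norm_num)
      rw [le_div_iff₀ hη]
      linarith
    linarith

end Pool.Agent.Lib.MP_95e7ec_an
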