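import Mathlib
import Pool.Agent.Lib.MP_95e7ec_an.Rt.Defs
import Pool.Agent.Lib.MP_95e7ec_an.Rt.Radius
import Pool.Agent.Lib.MP_95e7ec_an.Ry.CenVar

/-!
# Rt, CVar: the coefficients on a good circle
-/

set_option autoImplicit false

open Set Filter Topology MeasureTheory Polynomial
open scoped ContDiff ENNReal Polynomial.Bivariate

namespace Pool.Agent.Lib.MP_95e7ec_an

private theorem cvar_prod (s : Multiset ℂ) {z : ℂ} {g : ℂ → ℝ} {E : ℝ}
    (h : ∀ r ∈ s, z - r ≠ 0 ∧ |Real.log ‖z - r‖ - g r| ≤ E) :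
    (s.map fun r => z - r).prod ≠ 0 ∧
      |Real.log ‖(s.map fun r => z - r).prod‖ - (s.map g).sum| ≤ E * (Multiset.card s : ℝ) := by
  induction s using Multiset.induction_on with
  | empty => simp
  | cons r s ih =>
    obtain ⟨a1, a3⟩ := h r (Multiset.mem_cons_self r s)
    obtain ⟨b1, b3⟩ := ih fun q hq => h q (Multiset.mem_cons_of_mem hq)
    rw [Multiset.map_cons, Multiset.prod_cons, Multiset.map_cons, Multiset.sum_cons]
    refine ⟨mul_ne_zero a1 b1, ?_⟩
    rw [norm_mul, Real.log_mul (norm_ne_zero_iff.2 a1) (norm_ne_zero_iff.2 b1), Multiset.card_cons]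
    push_cast
    rw [abs_le] at a3 b3 ⊢
    constructor <;> linarith [a3.1, a3.2, b3.1, b3.2]

private theorem cvar_max {a x u t : ℝ} (h : |a - x| ≤ t) : |max a u - max x u| ≤ t := by
  rw [abs_le] at h ⊢
  constructor
  · have h1 : max x u ≤ max a u + t := max_le (by linarith [le_max_left a u, h.1])
      (by linarith [le_max_right a u, h.1, h.2])
    linarith
  · have h1 : max a u ≤ max x u + t := max_le (by linarith [le_max_left x u, h.2])
      (by linarith [le_max_right x u, h.1, h.2])
    linarith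

/-- Proof. Let `T` be the set of the numbers `‖log r + 2π i m - x‖`, `r` a nonzero root of a coefficient `A.coeff k ≠ 0`
(`k ≤ N`), `m ∈ {-1,0,1}`: at most `M = 3 (N+1) e` points; `s` from `good_radius`, `η = 1 / (2 (M+1))`. If `‖ρ - x‖ = s`
then `|Im ρ| ≤ 3` and `‖ρ - (log r + 2π i m)‖ ≥ |s - ‖log r + 2π i m - x‖| ≥ η`, so `log_exp_sub` applies to all the
nonzero roots, `6/η = 12 (M+1)`. Write `a = A.coeff k` as `C lc * ∏ (X - r)` (`ℂ` is algebraically closed); let
`ℓ k = log ‖lc‖ + ∑_r (if r = 0 then x else max x (log ‖r‖))` (the sum over the multiset of the roots, at most `e`); for every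
root the error is at most `3 + log (6/η)` (`|Re ρ - x| ≤ s ≤ 3`; `log ‖e^ρ‖ = Re ρ`). (Compare `log_var`, Ry/CenVar.lean.) -/
theorem circle_var {A : ℂ[X][Y]} {N e : ℕ} (hN : A.natDegree ≤ N) (he : IDeg A e) (he1 : 1 ≤ e)
    (x : ℝ) : ∃ s : ℝ, 2 ≤ s ∧ s ≤ 3 ∧ ∃ ℓ : ℕ → ℝ, ∀ k, A.coeff k ≠ 0 →
      ∀ ρ : ℂ, ‖ρ - x‖ = s → (A.coeff k).eval (Complex.exp ρ) ≠ 0 ∧
        |Real.log ‖(A.coeff k).eval (Complex.exp ρ)‖ - ℓ k| ≤ cV N e := by
  classical
  set M : ℕ := 3 * ((N + 1) * e) with hM
  let f : ℂ → Finset ℝ := fun r => ({-1, 0, 1} : Finset ℤ).image fun m : ℤ =>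
    ‖Complex.log r + (m : ℂ) * (2 * Real.pi * Complex.I) - x‖
  let T : Finset ℝ := A.support.biUnion fun k =>
    ((A.coeff k).roots.toFinset.filter fun r => r ≠ 0).biUnion f
  have hT : T.card ≤ M := by
    calc T.card ≤ ∑ k ∈ A.support,
          (((A.coeff k).roots.toFinset.filter fun r => r ≠ 0).biUnion f).card :=
        Finset.card_biUnion_le
      _ ≤ ∑ _k ∈ A.support, e * 3 := by
        refine Finset.sum_le_sum fun k _ => ?_
        calc _ ≤ ∑ r ∈ ((A.coeff k).roots.toFinset.filter fun r => r ≠ 0), (f r).card :=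
              Finset.card_biUnion_le
          _ ≤ ∑ _r ∈ ((A.coeff k).roots.toFinset.filter fun r => r ≠ 0), 3 :=
              Finset.sum_le_sum fun r _ => Finset.card_image_le.trans (by decide)
          _ = ((A.coeff k).roots.toFinset.filter fun r => r ≠ 0).card * 3 := by
              rw [Finset.sum_const, smul_eq_mul]
          _ ≤ e * 3 := by
              refine Nat.mul_le_mul_right 3 ?_
              calc _ ≤ (A.coeff k).roots.toFinset.card := Finset.card_filter_le _ _
                _ ≤ Multiset.card (A.coeff k).roots := Multiset.toFinset_card_le _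
                _ ≤ (A.coeff k).natDegree := Polynomial.card_roots' _
                _ ≤ e := he k
      _ = A.support.card * (e * 3) := by rw [Finset.sum_const, smul_eq_mul]
      _ ≤ (N + 1) * (e * 3) := by
        refine Nat.mul_le_mul_right _ ?_
        have h1 : A.support ⊆ Finset.range (A.natDegree + 1) :=
          Polynomial.supp_subset_range_natDegree_succ
        have h2 := Finset.card_le_card h1
        rw [Finset.card_range] at h2
        omega
      _ = M := by rw [hM]; ring
  obtain ⟨s, hs2, hs3, hsT⟩ := good_radius T hT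
  set η : ℝ := 1 / (2 * ((M : ℝ) + 1)) with hη
  have hM0 : (0 : ℝ) ≤ M := Nat.cast_nonneg M
  have hη0 : 0 < η := by rw [hη]; positivity
  have hη1 : η ≤ 1 := by
    rw [hη, div_le_one (by positivity)]
    linarith
  have h6 : 6 / η = 12 * (3 * ((N : ℝ) + 1) * e + 1) := by
    rw [hη, hM]
    push_cast
    field_simp
    ring
  have hlog : 0 ≤ Real.log (6 / η) := by
    refine Real.log_nonneg ?_
    rw [h6]
    have : (0 : ℝ) ≤ 3 * ((N : ℝ) + 1) * e := by positivity
    linarith
  refine ⟨s, hs2, hs3, fun k => Real.log ‖(A.coeff k).leadingCoeff‖ +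
    ((A.coeff k).roots.map fun r => if r = 0 then x else max x (Real.log ‖r‖)).sum, ?_⟩
  intro k hk ρ hρ
  have hsp : (A.coeff k).Splits := IsAlgClosed.splits _
  have hlc : (A.coeff k).leadingCoeff ≠ 0 := leadingCoeff_ne_zero.2 hk
  have hre : |ρ.re - x| ≤ 3 := by
    have h1 := Complex.abs_re_le_norm (ρ - x)
    rw [Complex.sub_re, Complex.ofReal_re] at h1
    linarith
  have him : |ρ.im| ≤ 3 := by
    have h1 := Complex.abs_im_le_norm (ρ - x)
    rw [Complex.sub_im, Complex.ofReal_im, sub_zero] at h1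
    linarith
  obtain ⟨h1, h2⟩ := cvar_prod (A.coeff k).roots (z := Complex.exp ρ)
    (g := fun r => if r = 0 then x else max x (Real.log ‖r‖)) (E := 3 + Real.log (6 / η)) (by
      intro r hr
      by_cases h0 : r = 0
      · subst h0
        rw [sub_zero, if_pos rfl, Complex.norm_exp, Real.log_exp]
        exact ⟨Complex.exp_ne_zero _, by linarith⟩
      · rw [if_neg h0]
        obtain ⟨a1, a2⟩ := log_exp_sub h0 him hη0 hη1 (by
          intro m hm
          have hmem : ‖Complex.log r + m * (2 * Real.pi * Complex.I) - x‖ ∈ T := by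
            refine Finset.mem_biUnion.2 ⟨k, Polynomial.mem_support_iff.2 hk,
              Finset.mem_biUnion.2 ⟨r, Finset.mem_filter.2 ⟨Multiset.mem_toFinset.2 hr, h0⟩, ?_⟩⟩
            refine Finset.mem_image.2 ⟨m, ?_, rfl⟩
            rw [abs_le] at hm
            rw [Finset.mem_insert, Finset.mem_insert, Finset.mem_singleton]
            omega
          have h3 := hsT _ hmem
          refine h3.trans ?_
          rw [abs_sub_comm, ← hρ]
          refine (abs_norm_sub_norm_le _ _).trans (le_of_eq ?_)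
          congr 1
          ring)
        refine ⟨a1, ?_⟩
        have h3 := cvar_max (u := Real.log ‖r‖) hre
        rw [abs_le] at a2 h3 ⊢
        constructor <;> linarith [a2.1, a2.2, h3.1, h3.2])
  rw [hsp.eval_eq_prod_roots]
  refine ⟨mul_ne_zero hlc h1, ?_⟩
  rw [norm_mul, Real.log_mul (norm_ne_zero_iff.2 hlc) (norm_ne_zero_iff.2 h1),
    add_sub_add_left_eq_sub]
  refine h2.trans ?_
  have h4 : (Multiset.card (A.coeff k).roots : ℝ) ≤ e := by
    exact_mod_cast (Polynomial.card_roots' _).trans (he k)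
  rw [cV, ← h6, mul_comm]
  exact mul_le_mul_of_nonneg_right h4 (by linarith)

end Pool.Agent.Lib.MP_95e7ec_an
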