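import Mathlib
import Pool.Agent.Lib.MP_95e7ec_an.Rt.Defs
import Pool.Agent.Lib.MP_95e7ec_an.Rt.CVar
import Pool.Agent.Lib.MP_95e7ec_an.Rt.CTwo
import Pool.Agent.Lib.MP_95e7ec_an.Rt.BorC
import Pool.Agent.Lib.MP_95e7ec_an.Ry.TwoTerm

/-!
# Rt, TwoD: the derivatives of the roots
-/

set_option autoImplicit false

open Set Filter Topology MeasureTheory Polynomial
open scoped ContDiff ENNReal Polynomial.Bivariate

namespace Pool.Agent.Lib.MP_95e7ec_an

private theorem twoD_log {N e : ℕ} : 0 ≤ Real.log (12 * (3 * ((N : ℝ) + 1) * e + 1)) := by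
  apply Real.log_nonneg
  have : (0 : ℝ) ≤ 3 * ((N : ℝ) + 1) * e := by positivity
  linarith

theorem cM_ge {N e : ℕ} (he1 : 1 ≤ e) : 1 ≤ cM N e := by
  have hx : (1 : ℝ) ≤ e := by exact_mod_cast he1
  have h0 : 3 ≤ cV N e := by
    have h1 := @twoD_log N e
    unfold cV
    nlinarith
  have hN : (0 : ℝ) ≤ N := by positivity
  have h2 : 0 ≤ Real.log ((N : ℝ) + 1) := Real.log_nonneg (by linarith)
  have h3 : (1 : ℝ) ≤ ((N : ℝ) + 1) ^ 2 := one_le_pow₀ (by linarith)
  unfold cM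
  have h4 : (1 : ℝ) ≤ 2 * (Real.log ((N : ℝ) + 1) + 2 * cV N e) := by linarith
  exact one_le_mul_of_one_le_of_one_le h3 h4

theorem cM_mono {N N' e e' : ℕ} (h : N ≤ N') (h' : e ≤ e') : cM N e ≤ cM N' e' := by
  have hN : (0 : ℝ) ≤ N := by positivity
  have hNN : (N : ℝ) ≤ N' := by exact_mod_cast h
  have hee : (e : ℝ) ≤ e' := by exact_mod_cast h'
  have he : (0 : ℝ) ≤ e := by positivity
  have he' : (0 : ℝ) ≤ e' := by positivity
  have h1 : 3 * ((N : ℝ) + 1) * e ≤ 3 * ((N' : ℝ) + 1) * e' :=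
    mul_le_mul (by linarith) hee he (by positivity)
  have h2 : Real.log (12 * (3 * ((N : ℝ) + 1) * e + 1)) ≤
      Real.log (12 * (3 * ((N' : ℝ) + 1) * e' + 1)) :=
    Real.log_le_log (by positivity) (by linarith)
  have h3 := @twoD_log N e
  have h4 : cV N e ≤ cV N' e' := by
    unfold cV
    exact mul_le_mul hee (by linarith) (by linarith) he'
  have h5 : 0 ≤ cV N e := by
    unfold cV
    positivity
  have h6 : Real.log ((N : ℝ) + 1) ≤ Real.log ((N' : ℝ) + 1) :=
    Real.log_le_log (by linarith) (by linarith)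
  have h7 : 0 ≤ Real.log ((N : ℝ) + 1) := Real.log_nonneg (by linarith)
  unfold cM
  exact mul_le_mul (pow_le_pow_left₀ (by linarith) (by linarith) 2) (by linarith) (by positivity)
    (by positivity)

private theorem twoD_evalEval {A : ℂ[X][Y]} {N : ℕ} (hN : A.natDegree ≤ N) (r y : ℂ) :
    A.evalEval r y = ∑ k ∈ Finset.range (N + 1), (A.coeff k).eval r * y ^ k := by
  unfold evalEval
  rw [eval_eq_sum_range' (Nat.lt_succ_of_le hN), eval_finsetSum]
  refine Finset.sum_congr rfl fun k _ => ?_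
  rw [eval_mul, eval_pow, eval_C]

private theorem twoD_hol (a : ℂ[X]) (U : Set ℂ) :
    DifferentiableOn ℂ (fun ρ => a.eval (Complex.exp ρ)) U :=
  (a.differentiable.comp Complex.differentiable_exp).differentiableOn

private theorem twoD_zero {g : ℂ → ℂ} {x : ℂ} {r : ℝ} (hr : 0 < r)
    (h : ∀ ρ ∈ Metric.ball x r, g ρ = 0) (L : ℝ) : DBd L g x := by
  have h1 : g =ᶠ[𝓝 x] fun _ => (0 : ℂ) :=
    Filter.mem_of_superset (Metric.ball_mem_nhds x hr) fun ρ hρ => h ρ hρ
  have h2 : deriv g =ᶠ[𝓝 x] fun _ => (0 : ℂ) := by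
    refine h1.deriv.trans (Filter.Eventually.of_forall fun z => ?_)
    simp
  constructor
  · rw [h2.eq_of_nhds, h1.eq_of_nhds]
    simp
  · rw [h2.deriv_eq, h1.eq_of_nhds]
    simp

private theorem twoD_ne {A : ℂ[X][Y]} (hA : A ≠ 0) {x : ℝ}
    (hx : ∀ u ∈ cen1 A.trailingCoeff, 4 ≤ |x - u|) {g : ℂ → ℂ}
    (hg : DifferentiableOn ℂ g (Metric.ball (x : ℂ) 4))
    (h : ∀ ρ ∈ Metric.ball (x : ℂ) 4, A.evalEval (Complex.exp ρ) (g ρ) = 0) :
    (∀ ρ ∈ Metric.ball (x : ℂ) 4, g ρ = 0) ∨ ∀ ρ ∈ Metric.ball (x : ℂ) 4, g ρ ≠ 0 := by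
  have hpre : IsPreconnected (Metric.ball (x : ℂ) 4) := (convex_ball _ _).isPreconnected
  set m := A.natTrailingDegree with hm
  have hm0 : A.coeff m ≠ 0 := trailingCoeff_nonzero_iff_nonzero.2 hA
  have hmN : m ≤ A.natDegree := le_natDegree_of_ne_zero hm0
  set F : ℂ → ℂ := fun ρ => ∑ k ∈ Finset.range (A.natDegree + 1 - m),
    (A.coeff (m + k)).eval (Complex.exp ρ) * g ρ ^ k with hF
  have hprod : ∀ ρ ∈ Metric.ball (x : ℂ) 4, g ρ ^ m * F ρ = 0 := by
    intro ρ hρ
    have h1 := h ρ hρ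
    rw [twoD_evalEval le_rfl] at h1
    have h2 : A.natDegree + 1 = m + (A.natDegree + 1 - m) := by omega
    rw [h2, Finset.sum_range_add] at h1
    have h3 : ∑ k ∈ Finset.range m, (A.coeff k).eval (Complex.exp ρ) * g ρ ^ k = 0 := by
      refine Finset.sum_eq_zero fun k hk => ?_
      rw [coeff_eq_zero_of_lt_natTrailingDegree (Finset.mem_range.1 hk), eval_zero, zero_mul]
    rw [h3, zero_add] at h1
    rw [hF, Finset.mul_sum, ← h1]
    refine Finset.sum_congr rfl fun k _ => ?_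
    rw [pow_add]
    ring
  have hgan : AnalyticOnNhd ℂ (fun ρ => g ρ ^ m) (Metric.ball (x : ℂ) 4) :=
    (hg.pow m).analyticOnNhd Metric.isOpen_ball
  have hFan : AnalyticOnNhd ℂ F (Metric.ball (x : ℂ) 4) := by
    refine DifferentiableOn.analyticOnNhd ?_ Metric.isOpen_ball
    rw [hF]
    exact DifferentiableOn.fun_sum fun k _ => (twoD_hol _ _).mul (hg.pow k)
  rcases hgan.eq_zero_or_eq_zero_of_mul_eq_zero hFan hprod hpre with h0 | h0
  · refine Or.inl fun ρ hρ => ?_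
    by_contra hne
    exact pow_ne_zero m hne (h0 ρ hρ)
  · refine Or.inr fun ρ hρ hg0 => ?_
    have h1 := h0 ρ hρ
    rw [hF] at h1
    simp only [hg0] at h1
    rw [Finset.sum_eq_single 0] at h1
    · rw [add_zero, pow_zero, mul_one] at h1
      refine eval_exp_ne hm0 (fun u hu hne => ?_) h1
      have h2 := hx u hu
      have h3 := Complex.abs_re_le_norm (ρ - x)
      rw [Metric.mem_ball, Complex.dist_eq] at hρ
      rw [Complex.sub_re, Complex.ofReal_re, hne, abs_sub_comm] at h3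
      linarith
    · intro k _ hk
      rw [zero_pow hk, mul_zero]
    · intro hk
      exact absurd (Finset.mem_range.2 (by omega)) hk

/-- Proof. As in the proof of `two_term` (Ry/TwoTerm.lean) on the disc of radius `4`: `g` is `0` on the disc (then everything
is `0`) or `F ρ (g ρ) = 0` on the disc and `g` has no zero there, as `A.trailingCoeff (e^ρ) ≠ 0` (`eval_exp_ne`: the real
parts of the points of the disc are at distance less than `4` from `x`). In the second case: `circle_var`, `circle_two`,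
`max_disc`, `bor_dbd`. -/
theorem two_dbd {A : ℂ[X][Y]} (hA : A ≠ 0) {N e : ℕ} (he1 : 1 ≤ e) (hN : A.natDegree ≤ N)
    (he : IDeg A e) {x : ℝ} (hx : ∀ u ∈ cen1 A.trailingCoeff, 4 ≤ |x - u|) {g : ℂ → ℂ}
    (hg : DifferentiableOn ℂ g (Metric.ball (x : ℂ) 4))
    (h : ∀ ρ ∈ Metric.ball (x : ℂ) 4, A.evalEval (Complex.exp ρ) (g ρ) = 0) :
    DBd (cM N e ^ 2) g x := by
  rcases twoD_ne hA hx hg h with h0 | hne
  · exact twoD_zero (by norm_num) h0 _
  obtain ⟨s, hs2, hs3, ℓ, hℓ⟩ := circle_var hN he he1 x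
  have hsub : Metric.sphere (x : ℂ) s ⊆ Metric.ball (x : ℂ) 4 := by
    intro ρ hρ
    rw [Metric.mem_sphere] at hρ
    rw [Metric.mem_ball]
    linarith
  have h1 := circle_two hA hN he1 (x := x) (s := s) (by linarith) hℓ (hg.continuousOn.mono hsub)
    (fun ρ hρ => hne ρ (hsub hρ)) (fun ρ hρ => h ρ (hsub hρ))
  have h2 := max_disc hs2 hs3 hg hne h1
  have hsub2 : Metric.ball (x : ℂ) 2 ⊆ Metric.ball (x : ℂ) 4 := Metric.ball_subset_ball (by norm_num)
  exact bor_dbd (cM_ge he1) (hg.mono hsub2) (fun ρ hρ => hne ρ (hsub2 hρ)) h2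

/-- Proof. `two_dbd` for the polynomial `X - C a` (`N = 1`); its trailing coefficient is `- a`. -/
theorem poly_dbd {a : ℂ[X]} (ha : a ≠ 0) {e : ℕ} (he1 : 1 ≤ e) (he : a.natDegree ≤ e) {x : ℝ}
    (hx : ∀ u ∈ cen1 a, 4 ≤ |x - u|) :
    DBd (cM 1 e ^ 2) (fun ρ => a.eval (Complex.exp ρ)) x := by
  have hc0 : (X - C a : ℂ[X][Y]).coeff 0 = -a := by
    rw [coeff_sub, coeff_X_zero, coeff_C_zero, zero_sub]
  have hA : (X - C a : ℂ[X][Y]) ≠ 0 := X_sub_C_ne_zero a
  have hN : (X - C a : ℂ[X][Y]).natDegree ≤ 1 := natDegree_X_sub_C_le a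
  have hI : IDeg (X - C a : ℂ[X][Y]) e := by
    intro k
    rcases k with _ | _ | k
    · rw [hc0, natDegree_neg]
      exact he
    · rw [coeff_sub, coeff_X_one, coeff_C_succ, sub_zero, natDegree_one]
      exact Nat.zero_le e
    · rw [coeff_sub, coeff_X_of_ne_one (by omega), coeff_C_succ, sub_zero, natDegree_zero]
      exact Nat.zero_le e
  have ht : (X - C a : ℂ[X][Y]).trailingCoeff = -a := by
    have h0 : (X - C a : ℂ[X][Y]).natTrailingDegree = 0 := by
      apply natTrailingDegree_eq_zero_of_constantCoeff_ne_zero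
      rw [constantCoeff_apply, hc0]
      exact neg_ne_zero.2 ha
    rw [trailingCoeff, h0, hc0]
  have hcen : cen1 (-a) = cen1 a := by
    unfold cen1
    rw [roots_neg]
  refine two_dbd hA he1 hN hI (x := x) ?_ (twoD_hol a _) ?_
  · rw [ht, hcen]
    exact hx
  · intro ρ _
    simp [evalEval]

theorem DBd.mono {L L' : ℝ} {g : ℂ → ℂ} {x : ℂ} (h : DBd L g x) (hL : L ≤ L') : DBd L' g x := by
  have h0 := norm_nonneg (g x)
  exact ⟨h.1.trans (mul_le_mul_of_nonneg_right (by linarith) h0),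
    h.2.trans (mul_le_mul_of_nonneg_right (by linarith) h0)⟩

end Pool.Agent.Lib.MP_95e7ec_an
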