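import Mathlib
import Pool.Agent.Lib.MP_95e7ec_an.Rt.Defs
import Pool.Agent.Lib.MP_95e7ec_an.Rt.Branch2
import Pool.Agent.Lib.MP_95e7ec_an.Rt.TwoD
import Pool.Agent.Lib.MP_95e7ec_an.Ry.RCore

/-!
# Rt, RCore2: the bounds for the roots
-/

set_option autoImplicit false

open Set Filter Topology MeasureTheory Polynomial
open scoped ContDiff ENNReal Polynomial.Bivariate

namespace Pool.Agent.Lib.MP_95e7ec_an

private theorem rCore2_rel (A B : ℂ[X][Y]) {N e : ℕ} (hAN : A.natDegree ≤ N)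
    (hBN : B.natDegree ≤ N) (hAe : IDeg A e) (hBe : IDeg B e) :
    ∃ R : ℂ[X][Y], R ≠ 0 ∧ R.natDegree ≤ 2 * N * N ∧ IDeg R (2 * N * e) ∧
      (0 < A.natDegree → 0 < B.natDegree →
        ∀ r s t : ℂ, A.evalEval r s = 0 → B.evalEval r t = 0 → R.evalEval r (s - t) = 0) := by
  by_cases h : 0 < A.natDegree ∧ 0 < B.natDegree
  · obtain ⟨R, h1, h2, h3, h4⟩ := exists_rel h.1 h.2 hAN hBN hAe hBe
    exact ⟨R, h1, h2, h3, fun _ _ => h4⟩
  · refine ⟨1, one_ne_zero, by simp, ?_, fun h1 h2 => absurd ⟨h1, h2⟩ h⟩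
    exact RelRes.ideg_mono RelRes.ideg_one (Nat.zero_le _)

private theorem rCore2_root {A : ℂ[X][Y]} {I : Set ℝ} {ι : Type} [Fintype ι] {b : ι → ℂ → ℂ}
    (h : Branches A I b) (j : ι) {ρ : ℂ} (hρ : ρ ∈ strip I) :
    A.evalEval (Complex.exp ρ) (b j ρ) = 0 := by
  have h1 := congrArg (eval (b j ρ)) (h.fac ρ hρ)
  rw [eval_map, eval₂_evalRingHom, eval_mul, eval_prod] at h1
  rw [h1, Finset.prod_eq_zero (Finset.mem_univ j), mul_zero]
  rw [eval_sub, eval_X, eval_C, sub_self]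

private theorem rCore2_star_ne {A : ℂ[X][Y]} (h0 : A.coeff 0 ≠ 0) (N : ℕ) : starP N A ≠ 0 := by
  intro h
  unfold starP at h
  rw [reflect_eq_zero_iff] at h
  have hA : A ≠ 0 := by
    rintro rfl
    exact h0 (coeff_zero 0)
  refine hA ((Polynomial.map_eq_zero_iff ?_).1 h)
  exact Polynomial.map_injective _ (RingHom.injective _)

private theorem rCore2_trail {A : ℂ[X][Y]} (h0 : A.coeff 0 ≠ 0) : A.trailingCoeff = A.coeff 0 := by
  have h : A.natTrailingDegree = 0 := by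
    rw [natTrailingDegree_eq_zero]
    exact Or.inr h0
  rw [trailingCoeff, h]

private theorem rCore2_mono {N N' e e' : ℕ} (he1 : 1 ≤ e) (h : N ≤ N') (h' : e ≤ e') :
    cM N e ^ 2 ≤ cM N' e' ^ 2 :=
  pow_le_pow_left₀ (zero_le_one.trans (cM_ge he1)) (cM_mono h h') 2

/-- Proof. The proof of `roots_core` (Ry/RCore.lean) with `two_dbd` in place of `two_term` and with the smaller set of centres:
`U = U₀ ∪ cen1 (A.coeff 0) ∪ cen1 A.leadingCoeff ∪ cen1 As.trailingCoeff ∪ cen1 R₁.trailingCoeff ∪ cen1 R₂.trailingCoeff`,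
`U₀` the set of `exists_branches2` (`2Ne + e ≤ 3Ne` points), the others have at most `e, e, e, 2Ne, 2Ne` points (`cen1_card`):
together at most `10 N e`. `A.trailingCoeff = A.coeff 0`. `one`: `two_dbd` for `A` and `b j`; `star`: `As` and
`c_j = 1/conj (b j (conj ·))`; `two`: `R₁`; `refl`: `R₂`; `lead`: `poly_dbd`. All the constants are at most
`cM (2N²) (2Ne) ^ 2` (`cM_mono`, `cM_ge`, `DBd.mono`). -/
theorem roots_core2 {A : ℂ[X][Y]} (h0 : A.coeff 0 ≠ 0) {N e : ℕ} (hN1 : 1 ≤ N) (he1 : 1 ≤ e)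
    (hN : A.natDegree ≤ N) (he : IDeg A e) : ∃ U : Finset ℝ, U.card ≤ 10 * N * e ∧
      ∀ I : Set ℝ, IsOpen I → I.OrdConnected → I.Nonempty →
        (∀ x ∈ I, ∀ u ∈ U, 4 ≤ |x - u|) →
          ∃ b : Fin A.natDegree → ℂ → ℂ, Branches A I b ∧
            (∀ j, ∀ ρ ∈ strip I, b j ρ ≠ 0) ∧
            (∀ ρ ∈ strip I, A.leadingCoeff.eval (Complex.exp ρ) ≠ 0) ∧
            DerBd A I b (cM (2 * N * N) (2 * N * e) ^ 2) := by
  classical
  have hA : A ≠ 0 := by
    rintro rfl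
    exact h0 (coeff_zero 0)
  obtain ⟨As, hAs⟩ : ∃ As, As = starP A.natDegree A := ⟨_, rfl⟩
  have hAs0 : As ≠ 0 := by
    rw [hAs]
    exact rCore2_star_ne h0 _
  have hAsd : As.natDegree = A.natDegree := by
    rw [hAs]
    exact starP_natDegree le_rfl h0
  have hAsN : As.natDegree ≤ N := by rw [hAsd]; exact hN
  have hAse : IDeg As e := by
    rw [hAs]
    exact starP_ideg he
  obtain ⟨R₁, hR1, hR1N, hR1e, hR1r⟩ := rCore2_rel A A hN hN he he
  obtain ⟨R₂, hR2, hR2N, hR2e, hR2r⟩ := rCore2_rel A As hN hAsN he hAse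
  obtain ⟨U₀, hU0, hbr⟩ := exists_branches2 hA hN he
  have hNe : 1 ≤ N * e := Nat.mul_pos hN1 he1
  have h2Ne : 1 ≤ 2 * N * e := by
    rw [mul_assoc]
    omega
  refine ⟨U₀ ∪ cen1 (A.coeff 0) ∪ cen1 A.leadingCoeff ∪ cen1 As.trailingCoeff ∪
    cen1 R₁.trailingCoeff ∪ cen1 R₂.trailingCoeff, ?_, ?_⟩
  · have hs : 2 * N * e + e + e + e + e + 2 * N * e + 2 * N * e ≤ 10 * N * e := by
      have h1 : e ≤ N * e := Nat.le_mul_of_pos_left e hN1
      have h2 : 2 * N * e = 2 * (N * e) := mul_assoc _ _ _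
      have h3 : 10 * N * e = 10 * (N * e) := mul_assoc _ _ _
      omega
    refine le_trans ?_ hs
    refine (Finset.card_union_le _ _).trans (add_le_add ?_ ((cen1_card _).trans (hR2e _)))
    refine (Finset.card_union_le _ _).trans (add_le_add ?_ ((cen1_card _).trans (hR1e _)))
    refine (Finset.card_union_le _ _).trans (add_le_add ?_ ((cen1_card _).trans (hAse _)))
    refine (Finset.card_union_le _ _).trans (add_le_add ?_ ((cen1_card _).trans (he _)))
    exact (Finset.card_union_le _ _).trans (add_le_add hU0 ((cen1_card _).trans (he _)))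
  intro I hIo hIc hIne hIU
  have hU0' : ∀ x ∈ I, ∀ u ∈ U₀, 4 ≤ |x - u| := fun x hx u hu =>
    hIU x hx u (by simp only [Finset.mem_union]; tauto)
  have hU00 : ∀ x ∈ I, ∀ u ∈ cen1 (A.coeff 0), 4 ≤ |x - u| := fun x hx u hu =>
    hIU x hx u (by simp only [Finset.mem_union]; tauto)
  have hUl : ∀ x ∈ I, ∀ u ∈ cen1 A.leadingCoeff, 4 ≤ |x - u| := fun x hx u hu =>
    hIU x hx u (by simp only [Finset.mem_union]; tauto)
  have hUAs : ∀ x ∈ I, ∀ u ∈ cen1 As.trailingCoeff, 4 ≤ |x - u| := fun x hx u hu =>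
    hIU x hx u (by simp only [Finset.mem_union]; tauto)
  have hUR1 : ∀ x ∈ I, ∀ u ∈ cen1 R₁.trailingCoeff, 4 ≤ |x - u| := fun x hx u hu =>
    hIU x hx u (by simp only [Finset.mem_union]; tauto)
  have hUR2 : ∀ x ∈ I, ∀ u ∈ cen1 R₂.trailingCoeff, 4 ≤ |x - u| := fun x hx u hu =>
    hIU x hx u (by simp only [Finset.mem_union]; tauto)
  have hUA : ∀ x ∈ I, ∀ u ∈ cen1 A.trailingCoeff, 4 ≤ |x - u| := by
    rw [rCore2_trail h0]
    exact hU00
  have hneq : ∀ {x u : ℝ}, 4 ≤ |x - u| → x ≠ u := by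
    rintro x u h rfl
    rw [sub_self, abs_zero] at h
    linarith
  obtain ⟨b, hb⟩ := hbr I hIo hIc hIne (fun x hx u hu => hneq (hU0' x hx u hu))
  have hroot : ∀ j, ∀ ρ ∈ strip I, A.evalEval (Complex.exp ρ) (b j ρ) = 0 :=
    fun j ρ hρ => rCore2_root hb j hρ
  have hbne : ∀ j, ∀ ρ ∈ strip I, b j ρ ≠ 0 := by
    intro j ρ hρ h
    have h1 := hroot j ρ hρ
    rw [h, evalEval, C_0, ← coeff_zero_eq_eval_zero] at h1
    exact eval_exp_ne h0 (fun u hu => hneq (hU00 _ hρ u hu)) h1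
  have hlc : A.leadingCoeff ≠ 0 := leadingCoeff_ne_zero.2 hA
  have hconj : ∀ ρ ∈ strip I, (starRingEnd ℂ) ρ ∈ strip I := by
    intro ρ hρ
    change ((starRingEnd ℂ) ρ).re ∈ I
    rw [Complex.conj_re]
    exact hρ
  have hcroot : ∀ j, ∀ ρ ∈ strip I, As.evalEval (Complex.exp ρ)
      (1 / (starRingEnd ℂ) (b j ((starRingEnd ℂ) ρ))) = 0 := by
    intro j ρ hρ
    have h1 := hbne j _ (hconj ρ hρ)
    have h2 : (1 / (starRingEnd ℂ) (b j ((starRingEnd ℂ) ρ)) : ℂ) ≠ 0 := by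
      rw [one_div]
      exact inv_ne_zero ((_root_.map_ne_zero _).2 h1)
    rw [hAs, starP_eval le_rfl h2]
    have h3 : (1 / (starRingEnd ℂ) (1 / (starRingEnd ℂ) (b j ((starRingEnd ℂ) ρ))) : ℂ) =
        b j ((starRingEnd ℂ) ρ) := by
      rw [map_div₀, map_one, Complex.conj_conj, one_div_one_div]
    rw [h3, ← Complex.exp_conj, hroot j _ (hconj ρ hρ), map_zero, mul_zero]
  have hstripo : IsOpen (strip I) := hIo.preimage Complex.continuous_re
  have hcdiff : ∀ j, DifferentiableOn ℂ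
      (fun ρ => (1 / (starRingEnd ℂ) (b j ((starRingEnd ℂ) ρ)) : ℂ)) (strip I) := by
    intro j ρ hρ
    have h1 : DifferentiableAt ℂ (b j) ((starRingEnd ℂ) ρ) :=
      (hb.hol j).differentiableAt (hstripo.mem_nhds (hconj ρ hρ))
    have h2 : DifferentiableAt ℂ (fun z => (starRingEnd ℂ) (b j ((starRingEnd ℂ) z))) ρ :=
      differentiableAt_conj_conj_iff.2 h1
    refine (DifferentiableAt.div (differentiableAt_const 1) h2 ?_).differentiableWithinAt
    exact (_root_.map_ne_zero _).2 (hbne j _ (hconj ρ hρ))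
  have hm1 : N ≤ 2 * N * N := by nlinarith
  have hm2 : e ≤ 2 * N * e := by nlinarith
  have hm3 : 1 ≤ 2 * N * N := hN1.trans hm1
  refine ⟨b, hb, hbne, ?_, ?_⟩
  · intro ρ hρ
    exact eval_exp_ne hlc (fun u hu => hneq (hUl _ hρ u hu))
  refine ⟨?_, ?_, ?_, ?_, ?_⟩
  · intro x hx hball j
    exact (two_dbd hA he1 hN he (hUA x hx) ((hb.hol j).mono hball)
      (fun ρ hρ => hroot j ρ (hball hρ))).mono (rCore2_mono he1 hm1 hm2)
  · intro x hx hball j
    exact (two_dbd hAs0 he1 hAsN hAse (hUAs x hx) ((hcdiff j).mono hball)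
      (fun ρ hρ => hcroot j ρ (hball hρ))).mono (rCore2_mono he1 hm1 hm2)
  · intro x hx hball i j
    have hd : 0 < A.natDegree := Nat.pos_of_ne_zero (fun h => by
      rw [h] at i
      exact i.elim0)
    exact two_dbd hR1 h2Ne hR1N hR1e (hUR1 x hx) (((hb.hol i).sub (hb.hol j)).mono hball)
      (fun ρ hρ => hR1r hd hd _ _ _ (hroot i ρ (hball hρ)) (hroot j ρ (hball hρ)))
  · intro x hx hball j
    have hd : 0 < A.natDegree := Nat.pos_of_ne_zero (fun h => by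
      rw [h] at j
      exact j.elim0)
    exact two_dbd hR2 h2Ne hR2N hR2e (hUR2 x hx) (((hb.hol j).sub (hcdiff j)).mono hball)
      (fun ρ hρ => hR2r hd (by rw [hAsd]; exact hd) _ _ _ (hroot j ρ (hball hρ))
        (hcroot j ρ (hball hρ)))
  · intro x hx hball
    exact (poly_dbd hlc he1 (he A.natDegree) (hUl x hx)).mono (rCore2_mono he1 hm3 hm2)

end Pool.Agent.Lib.MP_95e7ec_an
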