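import Mathlib
import Pool.Agent.Lib.MP_95e7ec_an.Rt.Defs

/-!
# Rt, RParam2: the parameters of part R
-/

set_option autoImplicit false

open Set Filter Topology MeasureTheory Polynomial
open scoped ContDiff ENNReal Polynomial.Bivariate

namespace Pool.Agent.Lib.MP_95e7ec_an

/-- the constant `L` of `roots_core2` for `N = 2n`, `e = n+1` -/
noncomputable def rL2 (n : ℕ) : ℝ := cM (2 * (2 * n) * (2 * n)) (2 * (2 * n) * (n + 1)) ^ 2

/-- the constant `Λ` -/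
noncomputable def rLam2 (n : ℕ) : ℝ := 60 * rL2 n ^ 2

/-- the distance of the good rays from the zeros of the dominating term -/
noncomputable def rK2 (n : ℕ) (t : ℝ) : ℝ := t ^ 3 / (96 * n)

/-- the bound for the velocities of the near roots -/
noncomputable def rV2 (n : ℕ) (t : ℝ) : ℝ := kapV (2 * n + 2) (rLam2 n) (rK2 n t / 2) t

/-- the radius of the discs round the zeros of the dominating term -/
noncomputable def rEps2 (n : ℕ) (t : ℝ) : ℝ := rV2 n t / (100 * n)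

private theorem rp2_lgn {n : ℕ} (hn : 1 ≤ n) : 1 ≤ lgn n ∧ Real.log n ≤ lgn n := by
  have hx : (1 : ℝ) ≤ n := by exact_mod_cast hn
  have := Real.log_nonneg hx
  unfold lgn
  constructor <;> linarith

private theorem rp2_cV_ge {N e : ℕ} (he : 1 ≤ e) : 3 ≤ cV N e := by
  have hx : (1 : ℝ) ≤ e := by exact_mod_cast he
  have h1 : 0 ≤ Real.log (12 * (3 * ((N : ℝ) + 1) * e + 1)) := by
    apply Real.log_nonneg
    have : (0 : ℝ) ≤ 3 * ((N : ℝ) + 1) * e := by positivity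
    linarith
  unfold cV
  nlinarith

private theorem rp2_cM_ge {N e : ℕ} (he : 1 ≤ e) : 1 ≤ cM N e := by
  have h1 := rp2_cV_ge (N := N) he
  have h2 : 0 ≤ Real.log ((N : ℝ) + 1) := by
    apply Real.log_nonneg
    have : (0 : ℝ) ≤ N := by positivity
    linarith
  have h3 : (1 : ℝ) ≤ ((N : ℝ) + 1) ^ 2 := by
    apply one_le_pow₀
    have : (0 : ℝ) ≤ N := by positivity
    linarith
  unfold cM
  have h4 : (1 : ℝ) ≤ 2 * (Real.log ((N : ℝ) + 1) + 2 * cV N e) := by linarith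
  exact one_le_mul_of_one_le_of_one_le h3 h4

/-- Proof. `cM N e ≥ 1` for `e ≥ 1`. -/
theorem rL2_ge {n : ℕ} (hn : 1 ≤ n) : 1 ≤ rL2 n := by
  unfold rL2
  apply one_le_pow₀
  apply rp2_cM_ge
  have : 1 ≤ n * (n + 1) := Nat.mul_pos hn (Nat.succ_pos n)
  nlinarith

theorem rLam2_ge {n : ℕ} (hn : 1 ≤ n) : 1 ≤ rLam2 n := by
  unfold rLam2
  have h := one_le_pow₀ (rL2_ge hn) (n := 2)
  linarith

private theorem rp2_cM_le {n : ℕ} (hn : 1 ≤ n) :
    cM (2 * (2 * n) * (2 * n)) (2 * (2 * n) * (n + 1)) ≤ 6758640 * (n : ℝ) ^ 10 := by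
  have hx : (1 : ℝ) ≤ n := by exact_mod_cast hn
  have hN : (((2 * (2 * n) * (2 * n) : ℕ) : ℝ)) = 8 * (n : ℝ) ^ 2 := by
    push_cast
    ring
  have he : (((2 * (2 * n) * (n + 1) : ℕ) : ℝ)) = 4 * (n : ℝ) * (n + 1) := by
    push_cast
    ring
  have hx2 : (n : ℝ) ≤ (n : ℝ) ^ 2 := by nlinarith
  have q2 : (1 : ℝ) ≤ (n : ℝ) ^ 2 := one_le_pow₀ hx
  have q4 : (1 : ℝ) ≤ (n : ℝ) ^ 4 := one_le_pow₀ hx
  have p26 : (n : ℝ) ^ 2 ≤ (n : ℝ) ^ 6 := pow_le_pow_right₀ hx (by norm_num)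
  have e1 : 4 * (n : ℝ) * (n + 1) ≤ 8 * (n : ℝ) ^ 2 := by nlinarith
  have e0 : 0 ≤ 4 * (n : ℝ) * (n + 1) := by positivity
  have hlogN : Real.log (8 * (n : ℝ) ^ 2 + 1) ≤ 8 * (n : ℝ) ^ 2 := by
    have := Real.log_le_sub_one_of_pos (show (0 : ℝ) < 8 * (n : ℝ) ^ 2 + 1 by positivity)
    linarith
  have hlogN0 : 0 ≤ Real.log (8 * (n : ℝ) ^ 2 + 1) := by
    apply Real.log_nonneg
    linarith
  have hin : 3 * (8 * (n : ℝ) ^ 2 + 1) * (4 * (n : ℝ) * (n + 1)) ≤ 216 * (n : ℝ) ^ 4 := by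
    have h1 : 3 * (8 * (n : ℝ) ^ 2 + 1) ≤ 27 * (n : ℝ) ^ 2 := by linarith
    calc 3 * (8 * (n : ℝ) ^ 2 + 1) * (4 * (n : ℝ) * (n + 1))
        ≤ (27 * (n : ℝ) ^ 2) * (8 * (n : ℝ) ^ 2) :=
          mul_le_mul h1 e1 e0 (by positivity)
      _ = 216 * (n : ℝ) ^ 4 := by ring
  have hin0 : 0 ≤ 3 * (8 * (n : ℝ) ^ 2 + 1) * (4 * (n : ℝ) * (n + 1)) := by positivity
  have hlog : Real.log (12 * (3 * (8 * (n : ℝ) ^ 2 + 1) * (4 * (n : ℝ) * (n + 1)) + 1)) ≤
      2604 * (n : ℝ) ^ 4 := by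
    have := Real.log_le_sub_one_of_pos
      (show (0 : ℝ) < 12 * (3 * (8 * (n : ℝ) ^ 2 + 1) * (4 * (n : ℝ) * (n + 1)) + 1) by
        positivity)
    linarith
  have hlog0 : 0 ≤ Real.log (12 * (3 * (8 * (n : ℝ) ^ 2 + 1) * (4 * (n : ℝ) * (n + 1)) + 1)) := by
    apply Real.log_nonneg
    linarith
  have hcV : cV (2 * (2 * n) * (2 * n)) (2 * (2 * n) * (n + 1)) ≤ 20856 * (n : ℝ) ^ 6 := by
    unfold cV
    rw [hN, he]
    calc 4 * (n : ℝ) * (n + 1) *
          (3 + Real.log (12 * (3 * (8 * (n : ℝ) ^ 2 + 1) * (4 * (n : ℝ) * (n + 1)) + 1)))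
        ≤ (8 * (n : ℝ) ^ 2) * (2607 * (n : ℝ) ^ 4) :=
          mul_le_mul e1 (by linarith) (by linarith) (by positivity)
      _ = 20856 * (n : ℝ) ^ 6 := by ring
  have hcV0 : 0 ≤ cV (2 * (2 * n) * (2 * n)) (2 * (2 * n) * (n + 1)) := by
    unfold cV
    rw [hN, he]
    exact mul_nonneg e0 (by linarith)
  have h1 : (8 * (n : ℝ) ^ 2 + 1) ^ 2 ≤ (9 * (n : ℝ) ^ 2) ^ 2 := by
    apply pow_le_pow_left₀ (by positivity)
    linarith
  unfold cM
  rw [hN]
  calc (8 * (n : ℝ) ^ 2 + 1) ^ 2 * (2 * (Real.log (8 * (n : ℝ) ^ 2 + 1) +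
        2 * cV (2 * (2 * n) * (2 * n)) (2 * (2 * n) * (n + 1))))
      ≤ (9 * (n : ℝ) ^ 2) ^ 2 * (83440 * (n : ℝ) ^ 6) :=
        mul_le_mul h1 (by linarith) (by linarith) (by positivity)
    _ = 6758640 * (n : ℝ) ^ 10 := by ring

/-- Proof. `N = 8 n²`, `e = 4 n (n+1) ≤ 8 n²`: `cV N e` and `cM N e` are at most a constant times a power of `n`
(`log y ≤ y`), so their logarithms are at most `K (1 + log n)`. -/
theorem rLam2_le : ∃ K : ℝ, 1 ≤ K ∧ ∀ n : ℕ, 1 ≤ n → Real.log (rLam2 n) ≤ K * lgn n := by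
  refine ⟨60 + 4 * 6758640 + 40, by norm_num, ?_⟩
  intro n hn
  have hx : (1 : ℝ) ≤ n := by exact_mod_cast hn
  obtain ⟨g1, g2⟩ := rp2_lgn hn
  have he : 1 ≤ 2 * (2 * n) * (n + 1) := by
    have : 1 ≤ n * (n + 1) := Nat.mul_pos hn (Nat.succ_pos n)
    nlinarith
  have hM1 : 1 ≤ cM (2 * (2 * n) * (2 * n)) (2 * (2 * n) * (n + 1)) := rp2_cM_ge he
  have hM2 := rp2_cM_le hn
  have h60 : Real.log 60 ≤ 59 := by
    have := Real.log_le_sub_one_of_pos (show (0 : ℝ) < 60 by norm_num)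
    linarith
  have hC : Real.log (6758640 : ℝ) ≤ 6758640 := by
    have := Real.log_le_sub_one_of_pos (show (0 : ℝ) < 6758640 by norm_num)
    linarith
  have h1 : Real.log (cM (2 * (2 * n) * (2 * n)) (2 * (2 * n) * (n + 1))) ≤
      6758640 + 10 * Real.log n := by
    have h2 := Real.log_le_log (by linarith) hM2
    rw [Real.log_mul (by norm_num) (by positivity), Real.log_pow] at h2
    push_cast at h2
    linarith
  unfold rLam2 rL2
  rw [Real.log_mul (by norm_num) (by positivity), Real.log_pow, Real.log_pow]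
  push_cast
  nlinarith

/-- Proof. `rparam_small` (Ry/RParam.lean). -/
theorem rparam_small2 {n : ℕ} (hn : 1 ≤ n) {t : ℝ} (ht : 0 < t) (ht1 : t ≤ 1 / 20) :
    0 < rK2 n t ∧ rK2 n t ≤ 1 ∧ 0 < rV2 n t ∧ rV2 n t ≤ rK2 n t ∧ 0 < rEps2 n t ∧
      rEps2 n t ≤ rK2 n t / 2 ∧ 4 * (2 * n) * rEps2 n t < 1 ∧ 42 * (2 * n) * rEps2 n t ≤ rV2 n t ∧
      48 * (2 * n) * rK2 n t ≤ t ^ 3 := by
  have hx : (1 : ℝ) ≤ n := by exact_mod_cast hn
  have hn0 : (n : ℝ) ≠ 0 := by positivity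
  have hΛ := rLam2_ge hn
  have hK0 : 0 < rK2 n t := by
    unfold rK2
    positivity
  have ht3 : t ^ 3 ≤ 1 := pow_le_one₀ ht.le (by linarith)
  have hK1 : rK2 n t ≤ 1 := by
    unfold rK2
    rw [div_le_one (by positivity)]
    linarith
  have hV0 : 0 < rV2 n t := by
    unfold rV2 kapV
    have : 0 < rLam2 n := by linarith
    positivity
  have hV1 : rV2 n t ≤ rK2 n t := by
    have hden : (1 : ℝ) ≤ 10 ^ 6 * (((2 * n + 2 : ℕ) : ℝ) + 1) ^ 3 * rLam2 n ^ 2 := by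
      have e1 : (1 : ℝ) ≤ (((2 * n + 2 : ℕ) : ℝ) + 1) ^ 3 := by
        apply one_le_pow₀
        have : (0 : ℝ) ≤ ((2 * n + 2 : ℕ) : ℝ) := Nat.cast_nonneg _
        linarith
      have e2 : (1 : ℝ) ≤ rLam2 n ^ 2 := one_le_pow₀ hΛ
      have e3 : (1 : ℝ) ≤ 10 ^ 6 * (((2 * n + 2 : ℕ) : ℝ) + 1) ^ 3 := by linarith
      exact one_le_mul_of_one_le_of_one_le e3 e2
    unfold rV2 kapV
    have ht2 : t ^ 2 ≤ 1 := pow_le_one₀ ht.le (by linarith)
    calc t ^ 2 * (rK2 n t / 2) ^ 3 / (10 ^ 6 * (((2 * n + 2 : ℕ) : ℝ) + 1) ^ 3 * rLam2 n ^ 2)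
        ≤ t ^ 2 * (rK2 n t / 2) ^ 3 := div_le_self (by positivity) hden
      _ ≤ 1 * (rK2 n t / 2) ^ 3 := mul_le_mul_of_nonneg_right ht2 (by positivity)
      _ = (rK2 n t / 2) ^ 3 := one_mul _
      _ ≤ (rK2 n t / 2) ^ 1 := pow_le_pow_of_le_one (by positivity) (by linarith) (by norm_num)
      _ ≤ rK2 n t := by
        rw [pow_one]
        linarith
  have hE : rEps2 n t * (100 * n) = rV2 n t := by
    unfold rEps2
    field_simp
  have hE0 : 0 < rEps2 n t := by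
    unfold rEps2
    positivity
  have hnE : rEps2 n t ≤ n * rEps2 n t := le_mul_of_one_le_left hE0.le hx
  have hnE2 : 100 * (n * rEps2 n t) = rV2 n t := by
    rw [← hE]
    ring
  refine ⟨hK0, hK1, hV0, hV1, hE0, ?_, ?_, ?_, ?_⟩
  · linarith
  · have : 4 * (2 * (n : ℝ)) * rEps2 n t = 8 * (n * rEps2 n t) := by ring
    rw [this]
    linarith
  · have : 42 * (2 * (n : ℝ)) * rEps2 n t = 84 * (n * rEps2 n t) := by ring
    rw [this]
    linarith
  · have : 48 * (2 * (n : ℝ)) * rK2 n t = t ^ 3 := by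
      unfold rK2
      field_simp
      norm_num
    rw [this]

private theorem rp2_logE {n : ℕ} (hn : 1 ≤ n) {t : ℝ} (ht : 0 < t) :
    Real.log (rEps2 n t / 5) =
      -(Real.log (500 * n * (10 ^ 6 * (2 * (n : ℝ) + 3) ^ 3)) + 3 * Real.log (192 * n) +
        2 * Real.log (rLam2 n) + 11 * Real.log (1 / t)) := by
  have hx : (1 : ℝ) ≤ n := by exact_mod_cast hn
  have hn0 : (n : ℝ) ≠ 0 := by positivity
  have hΛ0 : 0 < rLam2 n := by linarith [rLam2_ge hn]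
  have e1 : rEps2 n t / 5 = (t ^ 11) / ((500 * n * (10 ^ 6 * (2 * (n : ℝ) + 3) ^ 3)) *
      (192 * n) ^ 3 * rLam2 n ^ 2) := by
    unfold rEps2 rV2 kapV rK2
    push_cast
    field_simp
    ring
  have e2 : (500 * n * (10 ^ 6 * (2 * (n : ℝ) + 3) ^ 3)) ≠ 0 := by positivity
  have e3 : (192 * (n : ℝ)) ^ 3 ≠ 0 := by positivity
  have e4 : rLam2 n ^ 2 ≠ 0 := by positivity
  rw [e1, Real.log_div (by positivity) (by positivity), Real.log_mul (mul_ne_zero e2 e3) e4,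
    Real.log_mul e2 e3, Real.log_pow, Real.log_pow, Real.log_pow, one_div, Real.log_inv]
  push_cast
  ring

/-- Proof. The proof of `rparam_main` (Ry/RParam.lean): the logarithm of the inequality is
`log (n+1) + 2n log 2 + (2n+1) (log (500 n 10⁶ (2n+3)³) + 3 log (192 n) + 2 log Λ + 11 log (1/t)) ≤ D`, and every
logarithm on the left except `log (1/t)` is at most a constant times `lgn n` (`rLam2_le`). -/
theorem rparam_main2 : ∃ K : ℝ, 1 ≤ K ∧ ∀ n : ℕ, 1 ≤ n → ∀ t : ℝ, 0 < t → t ≤ 1 / 20 → ∀ D : ℝ,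
    K * n * (lgn n + Real.log (1 / t)) ≤ D →
      ((n + 1 : ℕ) : ℝ) * 2 ^ (2 * n) * Real.exp (-D) ≤ (rEps2 n t / 5) ^ (2 * n + 1) := by
  obtain ⟨K₀, hK₀, hLam⟩ := rLam2_le
  refine ⟨3 + 3 * (62500000004 + 3 * 193 + 2 * K₀) + 33, by linarith, ?_⟩
  intro n hn t ht ht1 D hD
  have hx : (1 : ℝ) ≤ n := by exact_mod_cast hn
  obtain ⟨g1, g2⟩ := rp2_lgn hn
  have hln : 0 ≤ Real.log n := Real.log_nonneg hx
  have hL0 : 0 ≤ Real.log (1 / t) := by
    apply Real.log_nonneg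
    rw [le_div_iff₀ ht]
    linarith
  obtain ⟨-, -, -, -, hE0, -⟩ := rparam_small2 hn ht ht1
  have hlogE := rp2_logE hn ht
  have hG := hLam n hn
  have hG0 : 0 ≤ Real.log (rLam2 n) := Real.log_nonneg (rLam2_ge hn)
  -- the logarithms
  have hA : Real.log (500 * n * (10 ^ 6 * (2 * (n : ℝ) + 3) ^ 3)) ≤ 62500000004 * lgn n := by
    have e2 : (2 * (n : ℝ) + 3) ^ 3 ≤ (5 * (n : ℝ)) ^ 3 :=
      pow_le_pow_left₀ (by positivity) (by linarith) 3
    have e3 : 500 * n * (10 ^ 6 * (2 * (n : ℝ) + 3) ^ 3) ≤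
        500 * n * (10 ^ 6 * (5 * (n : ℝ)) ^ 3) := by
      apply mul_le_mul_of_nonneg_left _ (by positivity)
      apply mul_le_mul_of_nonneg_left e2 (by positivity)
    have e4 : 500 * n * (10 ^ 6 * (5 * (n : ℝ)) ^ 3) = 62500000000 * (n : ℝ) ^ 4 := by ring
    rw [e4] at e3
    have e5 := Real.log_le_log (by positivity) e3
    have e7 : Real.log (62500000000 * (n : ℝ) ^ 4) = Real.log 62500000000 + 4 * Real.log n := by
      rw [Real.log_mul (by norm_num) (by positivity), Real.log_pow]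
      push_cast
      ring
    rw [e7] at e5
    have e6 : Real.log (62500000000 : ℝ) ≤ 62500000000 := by
      have := Real.log_le_sub_one_of_pos (show (0 : ℝ) < 62500000000 by norm_num)
      linarith
    linarith
  have hA0 : 0 ≤ Real.log (500 * n * (10 ^ 6 * (2 * (n : ℝ) + 3) ^ 3)) := by
    apply Real.log_nonneg
    have h1 : (1 : ℝ) ≤ (2 * (n : ℝ) + 3) ^ 3 := one_le_pow₀ (by linarith)
    have h2 : (1 : ℝ) ≤ 10 ^ 6 * (2 * (n : ℝ) + 3) ^ 3 := by linarith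
    nlinarith
  have hB : Real.log (192 * n) ≤ 193 * lgn n := by
    rw [Real.log_mul (by norm_num) (by positivity)]
    have : Real.log (192 : ℝ) ≤ 192 := by
      have := Real.log_le_sub_one_of_pos (show (0 : ℝ) < 192 by norm_num)
      linarith
    linarith
  have hB0 : 0 ≤ Real.log (192 * n) := Real.log_nonneg (by linarith)
  have hP : Real.log ((n : ℝ) + 1) ≤ n := by
    have := Real.log_le_sub_one_of_pos (show (0 : ℝ) < (n : ℝ) + 1 by positivity)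
    linarith
  have hlog2 : Real.log 2 ≤ 1 := by
    have := Real.log_le_sub_one_of_pos (show (0 : ℝ) < 2 by norm_num)
    linarith
  have hpos1 : 0 < ((n + 1 : ℕ) : ℝ) * 2 ^ (2 * n) * Real.exp (-D) := by positivity
  have hpos2 : 0 < (rEps2 n t / 5) ^ (2 * n + 1) := by positivity
  rw [← Real.log_le_log_iff hpos1 hpos2]
  rw [Real.log_mul (by positivity) (Real.exp_ne_zero _), Real.log_exp,
    Real.log_mul (by positivity) (by positivity), Real.log_pow, Real.log_pow, hlogE]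
  have hcast : ((n + 1 : ℕ) : ℝ) = (n : ℝ) + 1 := by push_cast; ring
  rw [hcast]
  push_cast
  set L := Real.log (1 / t) with hL
  set A := Real.log (500 * n * (10 ^ 6 * (2 * (n : ℝ) + 3) ^ 3)) with hAd
  set B := Real.log (192 * (n : ℝ)) with hBd
  set G := Real.log (rLam2 n) with hGd
  set P := Real.log ((n : ℝ) + 1) with hPd
  set l := lgn n with hld
  have h1 : (2 * (n : ℝ) + 1) * (A + 3 * B + 2 * G + 11 * L) ≤
      (3 * n) * ((62500000004 + 3 * 193 + 2 * K₀) * l + 11 * L) := by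
    apply mul_le_mul (by linarith) _ (by positivity) (by positivity)
    nlinarith
  have h2 : 2 * (n : ℝ) * Real.log 2 ≤ 2 * n := by nlinarith
  have h3 : (n : ℝ) ≤ n * l := by nlinarith
  have h4 : 0 ≤ (n : ℝ) * L := by positivity
  have h5 : 0 ≤ (n : ℝ) * l := by positivity
  have h6 : 0 ≤ K₀ * ((n : ℝ) * L) := by positivity
  have h7 : (3 * (n : ℝ)) * ((62500000004 + 3 * 193 + 2 * K₀) * l + 11 * L) =
      (3 * (62500000004 + 3 * 193 + 2 * K₀)) * (n * l) + 33 * (n * L) := by ring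
  have h8 : (3 + 3 * (62500000004 + 3 * 193 + 2 * K₀) + 33) * n * (l + L) =
      (3 + 3 * (62500000004 + 3 * 193 + 2 * K₀) + 33) * (n * l) +
        (3 + 3 * (62500000004 + 3 * 193) + 33) * (n * L) + 6 * (K₀ * (n * L)) := by ring
  rw [h8] at hD
  rw [h7] at h1
  linarith

end Pool.Agent.Lib.MP_95e7ec_an
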