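import Mathlib
import Pool.Agent.Lib.MP_95e7ec_an.Ry.RDefs
import Pool.Agent.Lib.MP_95e7ec_an.Ry.Wp
import Pool.Agent.Lib.MP_95e7ec_an.Rt.Defs
import Pool.Agent.Lib.MP_95e7ec_an.Rt.RCore2
import Pool.Agent.Lib.MP_95e7ec_an.Rt.RParam2
import Pool.Agent.Lib.MP_95e7ec_an.Rt.VelD
import Pool.Agent.Lib.MP_95e7ec_an.Ry.VelBd
import Pool.Agent.Lib.MP_95e7ec_an.Ry.Domin
import Pool.Agent.Lib.MP_95e7ec_an.Ry.OscRoot
import Pool.Agent.Lib.MP_95e7ec_an.Ry.CutTau
import Pool.Agent.Lib.MP_95e7ec_an.Ry.GoodRho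
import Pool.Agent.Lib.MP_95e7ec_an.Rq.ZoneData
import Pool.Agent.Lib.MP_95e7ec_an.Zeros

/-!
# Rt, PartR2: the roots, explicit exponents
-/

set_option autoImplicit false

open Set Filter Topology MeasureTheory Polynomial
open scoped ContDiff ENNReal Polynomial.Bivariate

namespace Pool.Agent.Lib.MP_95e7ec_an

private theorem partRX_natDegree_homc {A : ℂ[X][Y]} {N : ℕ} (hN : A.natDegree ≤ N) (k : ℕ) :
    (homc A k).natDegree ≤ N := by
  rw [natDegree_le_iff_coeff_eq_zero]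
  intro j hj
  rw [coeff_homc, coeff_eq_zero_of_natDegree_lt (by omega : A.natDegree < j)]
  simp

private theorem partRX_evalEval {A : ℂ[X][Y]} {I : Set ℝ} {d : ℕ} {b : Fin d → ℂ → ℂ}
    (hb : Branches A I b) {ρ : ℂ} (hρ : ρ ∈ strip I) (s : ℂ) :
    A.evalEval (Complex.exp ρ) s =
      A.leadingCoeff.eval (Complex.exp ρ) * ∏ j, (s - b j ρ) := by
  rw [← map_evalRingHom_eval, hb.fac ρ hρ, eval_mul, eval_C, eval_prod]
  simp

/-- the thickened interval -/
private def partRX_th (I : Set ℝ) : Set ℝ := {x | ∃ s ∈ I, |x - s| < 5}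

private theorem partRX_th_open (I : Set ℝ) : IsOpen (partRX_th I) := by
  have : partRX_th I = ⋃ s ∈ I, Metric.ball s 5 := by
    ext x
    simp [partRX_th, Real.dist_eq]
  rw [this]
  exact isOpen_biUnion fun s _ => Metric.isOpen_ball

private theorem partRX_th_conn {I : Set ℝ} (hI : I.OrdConnected) : (partRX_th I).OrdConnected := by
  refine ⟨?_⟩
  rintro x ⟨s, hs, hxs⟩ y ⟨r, hr, hyr⟩ z ⟨h1, h2⟩
  rw [abs_lt] at hxs hyr
  rcases le_total z s with h3 | h3
  · rcases le_total (s - z) 1 with h4 | h4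
    · exact ⟨s, hs, by rw [abs_lt]; constructor <;> linarith⟩
    · exact ⟨s, hs, by rw [abs_lt]; constructor <;> linarith⟩
  · rcases le_total z r with h4 | h4
    · exact ⟨z, hI.out hs hr ⟨h3, h4⟩, by simp⟩
    · exact ⟨r, hr, by rw [abs_lt]; constructor <;> linarith⟩

private theorem partRX_th_ball {I : Set ℝ} {x : ℝ} (hx : x ∈ I) :
    Metric.ball (x : ℂ) 4 ⊆ strip (partRX_th I) := by
  intro ρ hρ
  rw [Metric.mem_ball, dist_eq_norm] at hρ
  refine ⟨x, hx, ?_⟩
  have h1 : |(ρ - x).re| ≤ ‖ρ - x‖ := Complex.abs_re_le_norm _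
  simp only [Complex.sub_re, Complex.ofReal_re] at h1
  linarith

private theorem partRX_sub {I : Set ℝ} : I ⊆ partRX_th I := fun x hx => ⟨x, hx, by simp⟩

/-- the bounds, for given branches on the thickened strip -/
private theorem partRX_bd {n : ℕ} (hn : 1 ≤ n) {A : ℂ[X][Y]} (hN : A.natDegree ≤ 2 * n)
    (I : Set ℝ) (hI : IsOpen I) (hIc : I.OrdConnected) {t : ℝ} (ht : 0 < t) (ht1 : t ≤ 1 / 20)
    {b : Fin A.natDegree → ℂ → ℂ} (hb : Branches A (partRX_th I) b)
    (hb0 : ∀ j, ∀ ρ ∈ strip (partRX_th I), b j ρ ≠ 0)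
    (hl0 : ∀ ρ ∈ strip (partRX_th I), A.leadingCoeff.eval (Complex.exp ρ) ≠ 0)
    (hS : DerBd A (partRX_th I) b (rL2 n))
    {k : ℕ} {δ : ℝ} (hD : DomAt A (partRX_th I) k δ)
    (hδ : δ ≤ (rEps2 n t / 5) ^ (2 * n + 1)) {τ : ℝ → ℝ}
    (hτ : ∀ θ : ℝ, τ θ < 1 → ∀ c ∈ (homc A k).roots.toFinset,
      rK2 n t ≤ ‖Complex.exp (θ * Complex.I) - c‖)
    (hu : ∀ j, ∀ s ∈ I, ‖b j s‖ ≠ 1) :
    RootBd I A.natDegree b (fun ρ => A.leadingCoeff.eval (Complex.exp ρ)) τ (rLam2 n)
      (kapV (2 * n + 2) (rLam2 n) (rK2 n t / 2) t) (rK2 n t / 2) := by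
  obtain ⟨p1, p2, p3, p4, p5, p6, p7, p8, p9⟩ := rparam_small2 hn ht ht1
  set L : ℝ := rL2 n with hL
  have hLam : rLam2 n = 60 * L ^ 2 := rfl
  have hL1 : 1 ≤ L := rL2_ge hn
  have hv : kapV (2 * n + 2) (rLam2 n) (rK2 n t / 2) t = rV2 n t := rfl
  rw [hv]
  set ε := rEps2 n t with hε
  set κ := rK2 n t with hκ
  have hn' : (1 : ℝ) ≤ n := by exact_mod_cast hn
  have hε1 : ε ≤ 1 := by linarith
  have hpow : 0 < (ε / 5) ^ (2 * n) := by positivity
  have hδ1 : δ < (ε / 5) ^ (2 * n) := by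
    refine lt_of_le_of_lt hδ ?_
    rw [pow_succ]
    have : ε / 5 < 1 := by linarith
    nlinarith
  have hhN : (homc A k).natDegree ≤ 2 * n := partRX_natDegree_homc hN k
  have hball4 : ∀ s ∈ I, Metric.ball (s : ℂ) 4 ⊆ strip (partRX_th I) := fun s hs =>
    partRX_th_ball hs
  have hball : ∀ s ∈ I, Metric.ball (s : ℂ) 1 ⊆ strip (partRX_th I) := fun s hs =>
    (Metric.ball_subset_ball (by norm_num)).trans (partRX_th_ball hs)
  have hself : ∀ s ∈ I, (s : ℂ) ∈ strip (partRX_th I) := fun s hs => partRX_sub hs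
  have hbd : ∀ j, ∀ s ∈ I, DifferentiableOn ℂ (b j) (Metric.ball (s : ℂ) 1) := fun j s hs =>
    (hb.hol j).mono (hball s hs)
  have hone : ∀ j, ∀ s ∈ I, DBd L (b j) s :=
    fun j s hs => hS.one s (partRX_sub hs) (hball4 s hs) j
  have hroot : ∀ j, ∀ ρ ∈ strip (partRX_th I), A.evalEval (Complex.exp ρ) (b j ρ) = 0 := by
    intro j ρ hρ
    rw [partRX_evalEval hb hρ]
    rw [Finset.prod_eq_zero (Finset.mem_univ j) (sub_self _), mul_zero]
  have hL2 : 1 ≤ L ^ 2 := one_le_pow₀ hL1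
  have hLL : L ≤ L ^ 2 := by nlinarith
  have hosc : ∀ j, ∀ s ∈ I, near (b j s) → ‖vel (b j) s‖ ≤ rV2 n t ∧
      ‖deriv (vel (b j)) s‖ ≤ rV2 n t := by
    intro j s hs hnr
    have h1 := root_osc (N := 2 * n) (partRX_th_conn hIc) hD hhN p5
      (by push_cast; linarith) hε1 hδ1 (hb.hol j).continuousOn (hroot j) (hself s hs) hnr.2
    have h2 : 42 * (2 * n) * ε ≤ 1 := by linarith
    have h3 : 2 * ((2 * n : ℕ) : ℝ) * ε ≤ 1 := by
      push_cast
      nlinarith
    obtain ⟨h4, h5⟩ := vel_osc (hbd j s hs) hnr.1 h3 fun ρ hρ => h1 ρ (hball s hs hρ)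
    push_cast at h4 h5
    have h6 : 0 < (n : ℝ) * ε := by positivity
    constructor <;> nlinarith
  refine ⟨?_, ?_, ?_, ?_, ?_, ?_, ?_, ?_, ?_, ?_, hu, ?_, ?_⟩
  · intro j s hs
    have := (vel_bounds2 (hbd j s hs) (hb0 j _ (hself s hs)) hL1 (hone j s hs)).1
    rw [hLam]
    nlinarith
  · intro j s hs
    have := (vel_bounds2 (hbd j s hs) (hb0 j _ (hself s hs)) hL1 (hone j s hs)).2
    rw [hLam]
    nlinarith
  · exact fun j s hs hnr => (hosc j s hs hnr).1
  · exact fun j s hs hnr => (hosc j s hs hnr).2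
  · intro j s hs hnr
    have := (vel_refl2 (hbd j s hs) (fun ρ hρ => hb0 j ρ (hball s hs hρ)) hnr hL1 (hone j s hs)
      (hS.star s (partRX_sub hs) (hball4 s hs) j)
      (hS.refl s (partRX_sub hs) (hball4 s hs) j)).1
    refine this.trans ?_
    rw [hLam]
    apply mul_le_mul_of_nonneg_right _ (abs_nonneg _)
    nlinarith
  · intro j s hs hnr
    have := (vel_refl2 (hbd j s hs) (fun ρ hρ => hb0 j ρ (hball s hs hρ)) hnr hL1 (hone j s hs)
      (hS.star s (partRX_sub hs) (hball4 s hs) j)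
      (hS.refl s (partRX_sub hs) (hball4 s hs) j)).2
    refine this.trans ?_
    rw [hLam]
  · intro i j s hs hi hj
    have := (vel_diff2 (hbd i s hs) (hbd j s hs) hi.1 hj.1 hL1 (hone i s hs) (hone j s hs)
      (hS.two s (partRX_sub hs) (hball4 s hs) i j)).1
    refine this.trans ?_
    rw [hLam]
    apply mul_le_mul_of_nonneg_right _ (norm_nonneg _)
    nlinarith
  · intro i j s hs hi hj
    have := (vel_diff2 (hbd i s hs) (hbd j s hs) hi.1 hj.1 hL1 (hone i s hs) (hone j s hs)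
      (hS.two s (partRX_sub hs) (hball4 s hs) i j)).2
    refine this.trans ?_
    rw [hLam]
    apply mul_le_mul_of_nonneg_right _ (norm_nonneg _)
    nlinarith
  · intro s hs
    have := (logd_bounds2 (c := fun ρ => A.leadingCoeff.eval (Complex.exp ρ)) (x := (s : ℂ))
      (A.leadingCoeff.differentiable.comp Complex.differentiable_exp).differentiableOn
      (hl0 _ (hself s hs)) hL1
      (hS.lead s (partRX_sub hs) (hball4 s hs))).1
    refine this.trans ?_
    rw [hLam]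
    nlinarith
  · intro s hs
    have := (logd_bounds2 (c := fun ρ => A.leadingCoeff.eval (Complex.exp ρ)) (x := (s : ℂ))
      (A.leadingCoeff.differentiable.comp Complex.differentiable_exp).differentiableOn
      (hl0 _ (hself s hs)) hL1
      (hS.lead s (partRX_sub hs) (hball4 s hs))).2
    refine this.trans ?_
    rw [hLam]
    nlinarith
  · intro θ hθ s hs j
    have he : ‖Complex.exp (θ * Complex.I)‖ = 1 := Complex.norm_exp_ofReal_mul_I θ
    rcases le_total ‖b j s‖ 2 with h2 | h2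
    · obtain ⟨c, hc, hcε⟩ := near_zero (N := 2 * n) hD hhN p5 hε1 hδ1 (hself s hs) h2
        (hroot j _ (hself s hs))
      have h3 := hτ θ hθ c (by simpa using hc)
      have h4 : ‖Complex.exp (θ * Complex.I) - c‖ ≤
          ‖Complex.exp (θ * Complex.I) - b j s‖ + ‖b j s - c‖ := norm_sub_le_norm_sub_add_norm_sub _ _ _
      linarith
    · have h3 : ‖b j s‖ - ‖Complex.exp (θ * Complex.I)‖ ≤ ‖b j s - Complex.exp (θ * Complex.I)‖ :=
        norm_sub_norm_le _ _
      rw [norm_sub_rev] at h3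
      linarith
  · intro θ hθ s hs
    have hεκ : (ε / 5) ^ (2 * n) ≤ (κ / 5) ^ (2 * n) :=
      pow_le_pow_left₀ (by positivity) (by linarith) _
    have hκp : 0 < (κ / 5) ^ (2 * n) := by positivity
    have hδ2 : δ ≤ ε / 5 * (κ / 5) ^ (2 * n) := by
      refine hδ.trans ?_
      rw [pow_succ, mul_comm]
      exact mul_le_mul_of_nonneg_left hεκ (by positivity)
    have := good_rho_of (N := 2 * n) (partRX_th_open I) hD hhN p1 p2
      (by nlinarith) (fun c hc => hτ θ hθ c (by simpa using hc)) (hball s hs) hb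
    refine this.trans ?_
    rw [div_le_iff₀ hκp]
    have h6 : 4 * (ε / 5) ≤ rV2 n t := by
      have : 0 < ε := p5
      nlinarith
    nlinarith

/-- Proof. The proof of `partR` (Ry/PartR.lean), thickening by `5` in place of `2`; `roots_core2`, `rparam_main2`, VelD. -/
theorem partRX : PartRX := by
  obtain ⟨K₁, hK11, hK₁⟩ := rLam2_le
  obtain ⟨K₂, hK21, hK₂⟩ := rparam_main2
  refine ⟨K₁ + K₂ + 10 ^ 5, by linarith, ?_⟩
  intro n hn P Q hP hQ hPQ _
  have hn' : (1 : ℝ) ≤ n := by exact_mod_cast hn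
  classical
  obtain ⟨Z, hZc, hZ⟩ := exists_finset_zeros P Q hPQ hP hQ
  have hW0 := wpoly_ne_zero hP hQ hPQ
  obtain ⟨m₀, A, hWA, hA0, hAN, hAe⟩ := exists_trail hW0 (wpoly_natDegree hP hQ)
    (wpoly_ideg hP hQ)
  have hA : A ≠ 0 := by
    rintro rfl
    exact hA0 (by simp)
  have hAN' : A.natDegree ≤ 2 * n := by omega
  obtain ⟨U₁, hU₁, hcore⟩ := roots_core2 hA0 (N := 2 * n) (e := n + 1) (by omega) (by omega) hAN' hAe
  set U₂ : Finset ℝ := Z.image fun z => Real.log (nm z) with hU₂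
  have hU₂c : U₂.card ≤ n ^ 2 := Finset.card_image_le.trans hZc
  have hg1 : 1 ≤ lgn n := by
    unfold lgn
    linarith [Real.log_nonneg hn']
  refine ⟨U₁ ∪ cenDom A ∪ U₂, rLam2 n, ?_, rLam2_ge hn, ?_, ?_⟩
  · have h1 : (U₁ ∪ cenDom A ∪ U₂).card ≤
        10 * (2 * n) * (n + 1) + (n + 1 + 1) ^ 2 + n ^ 2 := by
      refine (Finset.card_union_le _ _).trans ?_
      refine add_le_add ((Finset.card_union_le _ _).trans ?_) hU₂c
      exact add_le_add hU₁ (cenDom_card hAe)
    have h2 : ((U₁ ∪ cenDom A ∪ U₂).card : ℝ) ≤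
        10 * (2 * n) * (n + 1) + (n + 1 + 1) ^ 2 + n ^ 2 := by exact_mod_cast h1
    have h3 : (n : ℝ) ≤ n ^ 2 := by nlinarith
    have h4 : 0 ≤ (K₁ + K₂) * (n : ℝ) ^ 2 := by positivity
    nlinarith
  · have h1 := hK₁ n hn
    have h2 : 0 ≤ K₂ * lgn n := by positivity
    nlinarith
  · intro t ht ht1 I hI hIc hIne hdist
    have hlog : 0 ≤ Real.log (1 / t) := Real.log_nonneg (by
      rw [le_div_iff₀ ht]
      linarith)
    have hng : 1 ≤ (n : ℝ) * (lgn n + Real.log (1 / t)) := by nlinarith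
    set D : ℝ := (K₁ + K₂ + 10 ^ 5) * n * (lgn n + Real.log (1 / t)) - 5 with hD
    have hDe : (K₁ + K₂ + 10 ^ 5) * n * (lgn n + Real.log (1 / t)) =
        K₁ * (n * (lgn n + Real.log (1 / t))) + K₂ * n * (lgn n + Real.log (1 / t)) +
          10 ^ 5 * (n * (lgn n + Real.log (1 / t))) := by ring
    have hK1n : 0 ≤ K₁ * (n * (lgn n + Real.log (1 / t))) := by positivity
    have hK2n : 0 ≤ K₂ * n * (lgn n + Real.log (1 / t)) := by positivity
    have hD0 : 4 ≤ D := by
      rw [hD, hDe]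
      linarith
    have hD1 : K₂ * n * (lgn n + Real.log (1 / t)) ≤ D := by
      rw [hD, hDe]
      linarith
    have hth : ∀ x ∈ partRX_th I, ∀ u ∈ U₁ ∪ cenDom A ∪ U₂, D ≤ |x - u| := by
      rintro x ⟨s, hs, hxs⟩ u hu
      have h1 := hdist s hs u hu
      have h2 : |s - u| ≤ |s - x| + |x - u| := abs_sub_le _ _ _
      rw [abs_sub_comm s x] at h2
      linarith
    obtain ⟨s₀, hs₀⟩ := hIne
    have hthne : (partRX_th I).Nonempty := ⟨s₀, partRX_sub hs₀⟩
    obtain ⟨b, hb, hb0, hl0, hS⟩ := hcore (partRX_th I) (partRX_th_open I) (partRX_th_conn hIc)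
      hthne (fun x hx u hu => hD0.trans (hth x hx u (by simp [hu])))
    obtain ⟨k, hk, hDom⟩ := exists_domAt hA hAN' hAe (partRX_th_conn hIc) hthne (by linarith)
      (fun x hx u hu => hth x hx u (by simp [hu]))
    have hTc : (homc A k).roots.toFinset.card ≤ 2 * n :=
      (Multiset.toFinset_card_le _).trans
        ((Polynomial.card_roots' _).trans (partRX_natDegree_homc hAN' k))
    obtain ⟨p1, p2, p3, p4, p5, p6, p7, p8, p9⟩ := rparam_small2 hn ht ht1
    obtain ⟨τ, hτ, hτ1⟩ := exists_cut _ hTc p1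
    have hfac : ∀ p : ℝ × ℝ, p.1 ∈ I → ((cf (vf P Q) p).1 : ℂ) + (cf (vf P Q) p).2 * Complex.I =
        A.leadingCoeff.eval (Complex.exp p.1) *
          Complex.exp (((m₀ : ℤ) - ((n : ℤ) + 1) : ℤ) * (p.2 * Complex.I)) *
            ∏ j, (Complex.exp (p.2 * Complex.I) - b j p.1) := by
      intro p hp
      have h1 := wpoly_cf hP hQ p
      rw [hWA, evalEval_mul, evalEval_pow, evalEval_X,
        partRX_evalEval hb (show (p.1 : ℂ) ∈ strip (partRX_th I) from partRX_sub hp)] at h1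
      have h2 : Complex.exp (((m₀ : ℤ) - ((n : ℤ) + 1) : ℤ) * (p.2 * Complex.I)) =
          Complex.exp (p.2 * Complex.I) ^ m₀ *
            (Complex.exp (((n : ℂ) + 1) * (p.2 * Complex.I)))⁻¹ := by
        rw [← Complex.exp_nat_mul, ← Complex.exp_neg, ← Complex.exp_add]
        congr 1
        push_cast
        ring
      have h3 : Complex.exp (((n : ℂ) + 1) * (p.2 * Complex.I)) ≠ 0 := Complex.exp_ne_zero _
      have h4 := inv_mul_cancel_left₀ h3 (((cf (vf P Q) p).1 : ℂ) + (cf (vf P Q) p).2 * Complex.I)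
      rw [h2, ← h4, ← h1]
      ring
    have hu : ∀ j, ∀ s ∈ I, ‖b j s‖ ≠ 1 := by
      intro j s hs hb1
      have h1 : b j s = Complex.exp ((Complex.arg (b j s) : ℝ) * Complex.I) := by
        have := Complex.norm_mul_exp_arg_mul_I (b j s)
        rw [hb1, Complex.ofReal_one, one_mul] at this
        exact this.symm
      have h2 := hfac (s, Complex.arg (b j s)) hs
      rw [Finset.prod_eq_zero (Finset.mem_univ j) (by
        simp only
        rw [← h1, sub_self]), mul_zero] at h2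
      have h3 : cf (vf P Q) (s, Complex.arg (b j s)) = 0 := by
        have h4 := congrArg Complex.re h2
        have h5 := congrArg Complex.im h2
        simp only [Complex.add_re, Complex.ofReal_re, Complex.mul_re, Complex.I_re, mul_zero,
          Complex.ofReal_im, Complex.I_im, mul_one, sub_self, add_zero, Complex.zero_re,
          Complex.add_im, Complex.mul_im, zero_add, Complex.zero_im] at h4 h5
        exact Prod.ext h4 h5
      have h4 : vf P Q (cyl (s, Complex.arg (b j s))) = 0 := wf_eq_zero (cyl_ne_zero _) h3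
      have h5 : s ∈ U₂ := by
        rw [hU₂, Finset.mem_image]
        refine ⟨_, (hZ _).1 h4, ?_⟩
        rw [nm_cyl, Real.log_exp]
      have h6 := hdist s hs s (by simp [h5])
      rw [sub_self, abs_zero] at h6
      have : 0 < (K₁ + K₂ + 10 ^ 5) * n * (lgn n + Real.log (1 / t)) := by positivity
      linarith
    refine ⟨A.natDegree, b, fun ρ => A.leadingCoeff.eval (Complex.exp ρ),
      (m₀ : ℤ) - ((n : ℤ) + 1), τ, rK2 n t / 2, by omega, ?_, ?_, ?_, by linarith, by linarith, ?_⟩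
    · rw [abs_le]
      constructor <;> omega
    · refine ⟨?_, ?_, ?_, ?_, hfac⟩
      · intro j
        exact (hb.hol j).mono fun ρ hρ => partRX_sub hρ
      · exact (A.leadingCoeff.differentiable.comp Complex.differentiable_exp).differentiableOn
      · exact fun j ρ hρ => hb0 j ρ (partRX_sub hρ)
      · exact fun ρ hρ => hl0 ρ (partRX_sub hρ)
    · refine ⟨hτ.cont, hτ.periodic, hτ.nonneg, hτ.le_one, hτ.int.trans ?_⟩
      push_cast
      exact p9
    · exact partRX_bd hn hAN' I hI hIc ht ht1 hb hb0 hl0 hS hDom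
        (hK₂ n hn t ht ht1 D hD1) hτ1 hu

end Pool.Agent.Lib.MP_95e7ec_an
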