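import Mathlib
import Pool.Agent.Lib.MP_95e7ec_an.Rt.Defs

/-!
# Rt, Hull: the breakpoints of the upper hull
-/

set_option autoImplicit false

open Set Filter Topology MeasureTheory Polynomial
open scoped ContDiff ENNReal Polynomial.Bivariate

namespace Pool.Agent.Lib.MP_95e7ec_an

/-- The breakpoints of the maximum of `log |b k| + k x`. Proof. For `k` with `b k ≠ 0` let `l k` be the maximum of
`(log |b j| - log |b k|) / (k - j)` over the `j < k` with `b j ≠ 0` and `r k` the minimum of
`(log |b k| - log |b j|) / (j - k)` over the `j > k` with `b j ≠ 0` (`0` if there is no such `j`); `U` is the set of all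
the `l k`, `r k`: at most `2 (A+1)` points. Let `k` be an index with the largest `|b k| e^{kx}` (so `b k ≠ 0`); then
`l k ≤ x ≤ r k` (where they are defined), so `l k + W < x < r k - W`, and for `j < k`:
`log |b j| + j x = log |b k| + k x - (k - j) (x - (log |b j| - log |b k|)/(k - j)) ≤ log |b k| + k x - W`;
the same for `j > k`. (`b j = 0` is trivial.) -/
theorem hull_breaks {A : ℕ} (b : Fin (A + 1) → ℝ) : ∃ U : Finset ℝ, U.card ≤ 2 * (A + 1) ∧
    ∀ W x : ℝ, 0 ≤ W → (∀ u ∈ U, W < |x - u|) → (∃ k, b k ≠ 0) →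
      ∃ k, b k ≠ 0 ∧ ∀ j, j ≠ k →
        |b j| * Real.exp ((j : ℕ) * x) * Real.exp W ≤ |b k| * Real.exp ((k : ℕ) * x) := by
  classical
  set L : Fin (A + 1) → Finset (Fin (A + 1)) := fun k =>
    Finset.univ.filter fun j => j < k ∧ b j ≠ 0 with hL
  set R : Fin (A + 1) → Finset (Fin (A + 1)) := fun k =>
    Finset.univ.filter fun j => k < j ∧ b j ≠ 0 with hR
  set f : Fin (A + 1) → Fin (A + 1) → ℝ := fun k j =>
    (Real.log |b j| - Real.log |b k|) / (((k : ℕ) : ℝ) - ((j : ℕ) : ℝ)) with hf
  set l : Fin (A + 1) → ℝ := fun k => if h : (L k).Nonempty then (L k).sup' h (f k) else 0 with hl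
  set r : Fin (A + 1) → ℝ := fun k => if h : (R k).Nonempty then (R k).inf' h (f k) else 0 with hr
  refine ⟨Finset.univ.image l ∪ Finset.univ.image r, ?_, ?_⟩
  · refine (Finset.card_union_le _ _).trans ?_
    have h1 := Finset.card_image_le (s := (Finset.univ : Finset (Fin (A + 1)))) (f := l)
    have h2 := Finset.card_image_le (s := (Finset.univ : Finset (Fin (A + 1)))) (f := r)
    rw [Finset.card_univ, Fintype.card_fin] at h1 h2
    omega
  · intro W x hW hU hne
    obtain ⟨k, -, hk⟩ := Finset.exists_max_image (Finset.univ : Finset (Fin (A + 1)))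
      (fun k => |b k| * Real.exp ((k : ℕ) * x)) Finset.univ_nonempty
    have hbk : b k ≠ 0 := by
      obtain ⟨k', hk'⟩ := hne
      intro h0
      have h1 := hk k' (Finset.mem_univ _)
      rw [h0, abs_zero, zero_mul] at h1
      have h2 : 0 < |b k'| * Real.exp ((k' : ℕ) * x) := mul_pos (abs_pos.mpr hk') (Real.exp_pos _)
      exact absurd h1 (not_le.mpr h2)
    have hkpos : 0 < |b k| := abs_pos.mpr hbk
    -- the logarithmic form of the maximality
    have hlog : ∀ m, b m ≠ 0 →
        Real.log |b m| + ((m : ℕ) : ℝ) * x ≤ Real.log |b k| + ((k : ℕ) : ℝ) * x := by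
      intro m hm
      have hmpos : 0 < |b m| := abs_pos.mpr hm
      have h1 := hk m (Finset.mem_univ _)
      have h2 := Real.log_le_log (mul_pos hmpos (Real.exp_pos _)) h1
      rwa [Real.log_mul hmpos.ne' (Real.exp_pos _).ne', Real.log_exp,
        Real.log_mul hkpos.ne' (Real.exp_pos _).ne', Real.log_exp] at h2
    refine ⟨k, hbk, ?_⟩
    intro j hj
    by_cases hbj : b j = 0
    · rw [hbj, abs_zero, zero_mul, zero_mul]
      positivity
    have hjpos : 0 < |b j| := abs_pos.mpr hbj
    suffices hs : Real.log |b j| + ((j : ℕ) : ℝ) * x + W ≤ Real.log |b k| + ((k : ℕ) : ℝ) * x by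
      have h1 := Real.exp_le_exp.mpr hs
      rw [Real.exp_add, Real.exp_add, Real.exp_add, Real.exp_log hjpos, Real.exp_log hkpos] at h1
      exact h1
    rcases lt_or_gt_of_ne hj with hjk | hkj
    · have hjL : j ∈ L k := by simp [hL, hjk, hbj]
      have hne' : (L k).Nonempty := ⟨j, hjL⟩
      have hlk : l k = (L k).sup' hne' (f k) := by simp only [hl, dif_pos hne']
      obtain ⟨m, hm, hm'⟩ := Finset.exists_mem_eq_sup' hne' (f k)
      have hmL : m < k ∧ b m ≠ 0 := by simpa [hL] using hm
      have hmk : 0 < ((k : ℕ) : ℝ) - ((m : ℕ) : ℝ) := by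
        have : ((m : ℕ) : ℝ) < ((k : ℕ) : ℝ) := by exact_mod_cast hmL.1
        linarith
      have h1 : l k ≤ x := by
        rw [hlk, hm']
        simp only [hf]
        rw [div_le_iff₀ hmk]
        linarith [hlog m hmL.2]
      have h2 : W < |x - l k| := hU _ (Finset.mem_union_left _
        (Finset.mem_image_of_mem _ (Finset.mem_univ _)))
      rw [abs_of_nonneg (by linarith)] at h2
      have h3 : f k j ≤ l k := by
        rw [hlk]
        exact Finset.le_sup' (f k) hjL
      have hjk1 : (1 : ℝ) ≤ ((k : ℕ) : ℝ) - ((j : ℕ) : ℝ) := by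
        have : ((j : ℕ) : ℝ) + 1 ≤ ((k : ℕ) : ℝ) := by exact_mod_cast hjk
        linarith
      have h4 : Real.log |b j| - Real.log |b k| ≤ (x - W) * (((k : ℕ) : ℝ) - ((j : ℕ) : ℝ)) := by
        have h5 : f k j ≤ x - W := by linarith
        simp only [hf] at h5
        rwa [div_le_iff₀ (by linarith)] at h5
      nlinarith
    · have hjR : j ∈ R k := by simp [hR, hkj, hbj]
      have hne' : (R k).Nonempty := ⟨j, hjR⟩
      have hrk : r k = (R k).inf' hne' (f k) := by simp only [hr, dif_pos hne']
      obtain ⟨m, hm, hm'⟩ := Finset.exists_mem_eq_inf' hne' (f k)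
      have hmR : k < m ∧ b m ≠ 0 := by simpa [hR] using hm
      have hmk : ((k : ℕ) : ℝ) - ((m : ℕ) : ℝ) < 0 := by
        have : ((k : ℕ) : ℝ) < ((m : ℕ) : ℝ) := by exact_mod_cast hmR.1
        linarith
      have h1 : x ≤ r k := by
        rw [hrk, hm']
        simp only [hf]
        rw [le_div_iff_of_neg hmk]
        linarith [hlog m hmR.2]
      have h2 : W < |x - r k| := hU _ (Finset.mem_union_right _
        (Finset.mem_image_of_mem _ (Finset.mem_univ _)))
      rw [abs_of_nonpos (by linarith)] at h2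
      have h3 : r k ≤ f k j := by
        rw [hrk]
        exact Finset.inf'_le (f k) hjR
      have hjk1 : ((k : ℕ) : ℝ) - ((j : ℕ) : ℝ) ≤ -1 := by
        have : ((k : ℕ) : ℝ) + 1 ≤ ((j : ℕ) : ℝ) := by exact_mod_cast hkj
        linarith
      have h4 : Real.log |b j| - Real.log |b k| ≤ (x + W) * (((k : ℕ) : ℝ) - ((j : ℕ) : ℝ)) := by
        have h5 : x + W ≤ f k j := by linarith
        simp only [hf] at h5
        rwa [le_div_iff_of_neg (by linarith)] at h5
      nlinarith

end Pool.Agent.Lib.MP_95e7ec_an
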