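import Mathlib
import Pool.Agent.Lib.MP_95e7ec_an.Rt.Defs
import Pool.Agent.Lib.MP_95e7ec_an.Rt.Hull
import Pool.Agent.Lib.MP_95e7ec_an.Ry.ZRad

/-!
# Rt, ZRad2: the radii of the special points, with few fixed centres
-/

set_option autoImplicit false

open Set Filter Topology MeasureTheory Polynomial
open scoped ContDiff ENNReal Polynomial.Bivariate

namespace Pool.Agent.Lib.MP_95e7ec_an

/-- The roots are near the breakpoints of the hull of comparable coefficients. -/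
private theorem zrad_hull {A : ℕ} (b₀ : Fin (A + 1) → ℝ) : ∃ U : Finset ℝ,
    U.card ≤ 2 * (A + 1) ∧ ∀ (b : Fin (A + 1) → ℝ) (L : ℝ), 0 ≤ L →
      (∀ k, |b k| ≤ Real.exp L * |b₀ k|) → (∀ k, |b₀ k| ≤ Real.exp L * |b k|) →
      (∃ k, b k ≠ 0) → ∀ x : ℝ, ∑ k : Fin (A + 1), b k * Real.exp ((k : ℕ) * x) = 0 →
        ∃ u ∈ U, |x - u| ≤ Real.log (A + 1) + 2 * L := by
  classical
  obtain ⟨U, hU, hull⟩ := hull_breaks b₀
  refine ⟨U, hU, ?_⟩
  intro b L hL h1 h2 hne x hx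
  by_contra hcon
  push Not at hcon
  have hA : (0 : ℝ) ≤ A := Nat.cast_nonneg A
  have hlogA : 0 ≤ Real.log ((A : ℝ) + 1) := Real.log_nonneg (by linarith)
  have hne₀ : ∃ k, b₀ k ≠ 0 := by
    obtain ⟨k, hk⟩ := hne
    refine ⟨k, fun h0 => hk ?_⟩
    have h3 := h1 k
    rw [h0, abs_zero, mul_zero] at h3
    exact abs_eq_zero.1 (le_antisymm h3 (abs_nonneg _))
  obtain ⟨k, hk0, hk⟩ := hull (Real.log (A + 1) + 2 * L) x (by linarith) hcon hne₀
  have hbk : 0 < |b k| := by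
    by_contra hc
    have h0 : |b k| = 0 := le_antisymm (not_lt.1 hc) (abs_nonneg _)
    have h3 := h2 k
    rw [h0, mul_zero] at h3
    exact hk0 (abs_eq_zero.1 (le_antisymm h3 (abs_nonneg _)))
  set E : Fin (A + 1) → ℝ := fun i => |b i| * Real.exp ((i : ℕ) * x) with hE
  have hEk : 0 < E k := mul_pos hbk (Real.exp_pos _)
  have hW : Real.exp (Real.log ((A : ℝ) + 1) + 2 * L) =
      (A + 1) * (Real.exp L * Real.exp L) := by
    rw [Real.exp_add, Real.exp_log (by linarith), two_mul, Real.exp_add]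
  have heL : 0 < Real.exp L := Real.exp_pos L
  have hterm : ∀ j, j ≠ k → ((A : ℝ) + 1) * E j ≤ E k := by
    intro j hj
    have h3 := hk j hj
    rw [hW] at h3
    have h4 : E j ≤ Real.exp L * |b₀ j| * Real.exp ((j : ℕ) * x) :=
      mul_le_mul_of_nonneg_right (h1 j) (Real.exp_pos _).le
    have h5 : |b₀ k| * Real.exp ((k : ℕ) * x) ≤ Real.exp L * E k := by
      have := mul_le_mul_of_nonneg_right (h2 k) (Real.exp_pos ((k : ℕ) * x)).le
      simpa only [hE, mul_assoc] using this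
    have h6 : Real.exp L * (((A : ℝ) + 1) * E j) ≤ Real.exp L * E k := by
      calc Real.exp L * (((A : ℝ) + 1) * E j)
          = (((A : ℝ) + 1) * Real.exp L) * E j := by ring
        _ ≤ (((A : ℝ) + 1) * Real.exp L) * (Real.exp L * |b₀ j| * Real.exp ((j : ℕ) * x)) :=
          mul_le_mul_of_nonneg_left h4 (by positivity)
        _ = |b₀ j| * Real.exp ((j : ℕ) * x) * (((A : ℝ) + 1) * (Real.exp L * Real.exp L)) := by
          ring
        _ ≤ |b₀ k| * Real.exp ((k : ℕ) * x) := h3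
        _ ≤ Real.exp L * E k := h5
    exact le_of_mul_le_mul_left h6 heL
  have hsum : E k ≤ ∑ l ∈ Finset.univ.erase k, E l := by
    have h3 : b k * Real.exp ((k : ℕ) * x) =
        -∑ l ∈ Finset.univ.erase k, b l * Real.exp ((l : ℕ) * x) := by
      have h4 := Finset.add_sum_erase Finset.univ (fun l : Fin (A + 1) =>
        b l * Real.exp ((l : ℕ) * x)) (Finset.mem_univ k)
      linarith
    have h5 : E k = |b k * Real.exp ((k : ℕ) * x)| := by
      rw [abs_mul, abs_of_pos (Real.exp_pos _)]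
    rw [h5, h3, abs_neg]
    refine (Finset.abs_sum_le_sum_abs _ _).trans (Finset.sum_le_sum fun l _ => ?_)
    rw [abs_mul, abs_of_pos (Real.exp_pos _)]
  have h6 : ∑ l ∈ Finset.univ.erase k, ((A : ℝ) + 1) * E l ≤
      ∑ l ∈ Finset.univ.erase k, E k :=
    Finset.sum_le_sum fun l hl => hterm l (Finset.ne_of_mem_erase hl)
  rw [← Finset.mul_sum, Finset.sum_const, Finset.card_erase_of_mem (Finset.mem_univ k),
    Finset.card_univ, Fintype.card_fin, Nat.add_sub_cancel, nsmul_eq_mul] at h6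
  have h7 : ((A : ℝ) + 1) * E k ≤ (A + 1) * ∑ l ∈ Finset.univ.erase k, E l :=
    mul_le_mul_of_nonneg_left hsum (by linarith)
  nlinarith

/-- `special_radii_fix` (Ry/ZRad.lean) with at most `2 (8 d² + 1)` centres. Proof. The proof of `special_radii_fix`, where
`zrad_near` is replaced by the following (`b = bform (r ·) c`, `b₀ = bform (r ·) c₀`, `|b i| ≤ e^L |b₀ i|`, `|b₀ i| ≤ e^L |b i|`,
`L = 8 d log (2/η)`): let `U` be the set of `hull_breaks` for `b₀` (`A = 8 d²`), `W = log (A+1) + 2 L`. If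
`W < |x - u|` for all `u ∈ U` then for the index `k` of `hull_breaks` and `j ≠ k`:
`|b j| e^{jx} ≤ e^L |b₀ j| e^{jx} ≤ e^{L-W} |b₀ k| e^{kx} ≤ e^{2L-W} |b k| e^{kx} = |b k| e^{kx} / (A+1)`, so the sum of the
other `A` terms is smaller than `|b k| e^{kx}` (`b k ≠ 0`) and `∑ b i e^{ix} ≠ 0`. So at a root there is `u ∈ U` with
`|x - u| ≤ W`; here `x = 2 p.1`, and the centres are `u / 2`. -/
theorem special_radii_hull {d : ℕ} (hd : 1 ≤ d) {K F G : MvPolynomial (Fin 2) ℝ} (hK : K ≠ 0)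
    (hKd : K.totalDegree ≤ 2 * d) (hF : F.totalDegree ≤ d) (hG : G.totalDegree ≤ d) :
    ∃ S U : Finset ℝ, S.card ≤ (8 * d ^ 2 + 1) * (8 * d + 1) ∧ U.card ≤ 2 * (8 * d ^ 2 + 1) ∧
      ∀ η : ℝ, 0 < η → η * (4 * (((8 * d ^ 2 + 1) * (8 * d + 1) : ℕ) + 1)) ≤ 1 →
      ∀ c : ℝ, (∀ φ ∈ S, η ≤ |Real.sin (c - φ)|) →
        ∀ p : ℝ × ℝ, Real.sin c * ev G (cyl p) + Real.cos c * ev F (cyl p) = 0 →
          ev K (cyl p) = 0 → (ev G (cyl p) ≠ 0 ∨ ev F (cyl p) ≠ 0) →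
            ∃ u ∈ U, |p.1 - u| ≤ Real.log (8 * d ^ 2 + 1) + 8 * d * Real.log (2 / η) := by
  classical
  obtain ⟨r, ⟨i₀, j₀, hr₀⟩, hdvd⟩ := exists_relation hd hK hKd hF hG
  have hch : ∀ i : Fin (8 * d ^ 2 + 1), ∃ S : Finset ℝ, S.card ≤ 8 * d + 1 ∧
      (r i ≠ 0 → ∀ η : ℝ, 0 < η → η ≤ 1 →
      ∀ c c' : ℝ, (∀ φ ∈ S, η ≤ |Real.sin (c - φ)|) → (∀ φ ∈ S, η ≤ |Real.sin (c' - φ)|) →
        bform (r i) c ≠ 0 ∧ |bform (r i) c| ≤ (2 / η) ^ (8 * d) * |bform (r i) c'|) := by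
    intro i
    by_cases hi : r i = 0
    · exact ⟨∅, by simp, fun h => absurd hi h⟩
    · obtain ⟨S, hS, h⟩ := form_variation (r i) hi
      exact ⟨S, hS, fun _ => h⟩
  choose Sf hSc hSv using hch
  set S : Finset ℝ := Finset.univ.biUnion Sf with hS
  have hScard : S.card ≤ (8 * d ^ 2 + 1) * (8 * d + 1) := by
    refine Finset.card_biUnion_le.trans ?_
    refine (Finset.sum_le_sum fun i _ => hSc i).trans ?_
    rw [Finset.sum_const, Finset.card_univ, Fintype.card_fin, smul_eq_mul]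
  obtain ⟨c₀, -, -, hc₀⟩ := exists_good S one_pos le_rfl 0
  obtain ⟨U₀, hU₀, hhull⟩ := zrad_hull (A := 8 * d ^ 2) (fun i => bform (r i) c₀)
  refine ⟨S, U₀.image (fun u => u / 2), hScard, Finset.card_image_le.trans hU₀, ?_⟩
  intro η hη hη0 c hc p hlev hKz hne
  set M : ℝ := (((8 * d ^ 2 + 1) * (8 * d + 1) : ℕ) : ℝ) with hM
  have hM0 : 0 ≤ M := Nat.cast_nonneg _
  have hη1 : η ≤ 1 := by nlinarith
  have hSM : (S.card : ℝ) ≤ M := by
    rw [hM]
    exact_mod_cast hScard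
  have hc₀' : ∀ φ ∈ S, η ≤ |Real.sin (c₀ - φ)| := by
    intro φ hφ
    refine le_trans ?_ (hc₀ φ hφ)
    rw [le_div_iff₀ (by positivity)]
    nlinarith
  have h2η : (1 : ℝ) ≤ 2 / η := by
    rw [le_div_iff₀ hη]
    linarith
  have hLnn : (0 : ℝ) ≤ ((8 * d : ℕ) : ℝ) * Real.log (2 / η) :=
    mul_nonneg (Nat.cast_nonneg _) (Real.log_nonneg h2η)
  have hexp : Real.exp (((8 * d : ℕ) : ℝ) * Real.log (2 / η)) = (2 / η) ^ (8 * d) := by
    rw [Real.exp_nat_mul, Real.exp_log (by positivity)]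
  have hgood : ∀ c : ℝ, (∀ φ ∈ S, η ≤ |Real.sin (c - φ)|) →
      ∀ i, ∀ φ ∈ Sf i, η ≤ |Real.sin (c - φ)| := by
    intro c hc i φ hφ
    exact hc φ (Finset.mem_biUnion.2 ⟨i, Finset.mem_univ i, hφ⟩)
  have hzero : ∀ i, r i = 0 → ∀ c, bform (r i) c = 0 := by
    intro i hi c
    unfold bform
    refine Finset.sum_eq_zero fun j _ => ?_
    rw [hi]
    simp
  have hcmp : ∀ c : ℝ, (∀ φ ∈ S, η ≤ |Real.sin (c - φ)|) → ∀ c' : ℝ,
      (∀ φ ∈ S, η ≤ |Real.sin (c' - φ)|) → ∀ i,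
      |bform (r i) c| ≤ Real.exp (((8 * d : ℕ) : ℝ) * Real.log (2 / η)) * |bform (r i) c'| := by
    intro c hc c' hc' i
    by_cases hi : r i = 0
    · simp only [hzero i hi, abs_zero, mul_zero, le_refl]
    · rw [hexp]
      exact (hSv i hi η hη hη1 c c' (hgood c hc i) (hgood c' hc' i)).2
  have hi₀ : r i₀ ≠ 0 := by
    intro h
    apply hr₀
    rw [h]
    rfl
  set g := ev G (cyl p) with hg
  set f := ev F (cyl p) with hf
  set l := g * Real.cos c - f * Real.sin c with hl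
  have hcs := Real.sin_sq_add_cos_sq c
  have hgl : g = l * Real.cos c := by
    rw [hl]
    linear_combination (-g) * hcs + Real.sin c * hlev
  have hfl : -f = l * Real.sin c := by
    rw [hl]
    linear_combination f * hcs - Real.cos c * hlev
  have hl0 : l ≠ 0 := by
    intro h
    rw [h, zero_mul] at hgl hfl
    rcases hne with h1 | h1
    · exact h1 hgl
    · exact h1 (neg_eq_zero.1 hfl)
  obtain ⟨H, hH⟩ := hdvd
  have hev := congrArg (MvPolynomial.eval ![(cyl p).1, (cyl p).2]) hH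
  rw [map_mul] at hev
  have hKz' : MvPolynomial.eval ![(cyl p).1, (cyl p).2] K = 0 := hKz
  rw [hKz', zero_mul, map_sum] at hev
  have hnorm : (cyl p).1 ^ 2 + (cyl p).2 ^ 2 = Real.exp (2 * p.1) := by
    have h1 := Real.sin_sq_add_cos_sq p.2
    simp only [cyl]
    rw [mul_comm 2 p.1, mul_two, Real.exp_add]
    linear_combination (Real.exp p.1 * Real.exp p.1) * h1
  have hsum : ∑ i : Fin (8 * d ^ 2 + 1), bform (r i) c * Real.exp ((i : ℕ) * (2 * p.1)) = 0 := by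
    have hterm : ∀ i : Fin (8 * d ^ 2 + 1),
        MvPolynomial.eval ![(cyl p).1, (cyl p).2] (∑ j : Fin (8 * d + 1),
          MvPolynomial.C (r i j) * ((MvPolynomial.X 0 ^ 2 + MvPolynomial.X 1 ^ 2) ^ (i : ℕ) *
          (G ^ (8 * d - (j : ℕ)) * (-F) ^ (j : ℕ)))) =
        l ^ (8 * d) * (bform (r i) c * Real.exp ((i : ℕ) * (2 * p.1))) := by
      intro i
      rw [map_sum]
      unfold bform
      rw [Finset.sum_mul, Finset.mul_sum]
      refine Finset.sum_congr rfl fun j _ => ?_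
      simp only [map_mul, map_pow, map_add, map_neg, MvPolynomial.eval_C, MvPolynomial.eval_X,
        Matrix.cons_val_zero, Matrix.cons_val_one]
      have e1 : MvPolynomial.eval ![(cyl p).1, (cyl p).2] G = l * Real.cos c := hgl
      have e2 : -MvPolynomial.eval ![(cyl p).1, (cyl p).2] F = l * Real.sin c := hfl
      have e3 : (cyl p).1 ^ 2 + (cyl p).2 ^ 2 = Real.exp (2 * p.1) := hnorm
      rw [e1, e2, e3, Real.exp_nat_mul]
      have e4 : l ^ (8 * d) = l ^ (8 * d - (j : ℕ)) * l ^ (j : ℕ) := by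
        rw [← pow_add, Nat.sub_add_cancel (Nat.lt_succ_iff.1 j.2)]
      rw [e4, mul_pow, mul_pow]
      ring
    rw [Finset.sum_congr rfl fun i _ => hterm i, ← Finset.mul_sum] at hev
    exact (mul_eq_zero.1 hev).resolve_left (pow_ne_zero _ hl0)
  obtain ⟨y, hyU, hy⟩ := hhull (fun i => bform (r i) c) _ hLnn
    (fun i => hcmp c hc c₀ hc₀' i) (fun i => hcmp c₀ hc₀' c hc i)
    ⟨i₀, (hSv i₀ hi₀ η hη hη1 c c (hgood c hc i₀) (hgood c hc i₀)).1⟩ (2 * p.1) hsum
  refine ⟨y / 2, Finset.mem_image_of_mem _ hyU, ?_⟩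
  have h3 : p.1 - y / 2 = (2 * p.1 - y) / 2 := by ring
  rw [h3, abs_div, abs_of_pos (by norm_num : (0 : ℝ) < 2)]
  push_cast at hy
  have hlogA : 0 ≤ Real.log (8 * (d : ℝ) ^ 2 + 1) := Real.log_nonneg (by
    have : (0 : ℝ) ≤ 8 * (d : ℝ) ^ 2 := by positivity
    linarith)
  linarith

end Pool.Agent.Lib.MP_95e7ec_an
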