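import Mathlib
import Pool.Agent.Lib.MP_95e7ec_an.Rt.Defs
import Pool.Agent.Lib.MP_95e7ec_an.Ry.SGlue

/-!
# Rt, SGlue2: the zones with fixed centres are good, explicit exponents
-/

set_option autoImplicit false

open Set Filter Topology MeasureTheory
open scoped ContDiff ENNReal

namespace Pool.Agent.Lib.MP_95e7ec_an

theorem sglue_lgn_ge {n : ℕ} (hn : 1 ≤ n) : 1 ≤ lgn n := by
  unfold lgn
  have h : 0 ≤ Real.log (n : ℝ) := Real.log_nonneg (by exact_mod_cast hn)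
  linarith

private theorem glue_width2 {A B E g : ℝ} (hB : 1 ≤ B) (hE : 1 ≤ E) (hg : 0 ≤ g)
    (hA : B * (g + 3 + Real.log (10 ^ 4 * E ^ 2)) + 2 ≤ A) (i : ℕ) :
    B * (g + Real.log (1 / ((1 / 4) ^ i / (10 ^ 4 * E ^ 2)))) ≤ A * ((i : ℝ) + 1) - 2 := by
  have hE2 : (1 : ℝ) ≤ E ^ 2 := by nlinarith
  have hc : (1 : ℝ) ≤ 10 ^ 4 * E ^ 2 := by linarith
  have hc0 : (0 : ℝ) < 10 ^ 4 * E ^ 2 := by linarith
  have hlc : 0 ≤ Real.log (10 ^ 4 * E ^ 2) := Real.log_nonneg hc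
  have hl4 : Real.log 4 ≤ 3 := by
    have := Real.log_le_sub_one_of_pos (show (0 : ℝ) < 4 by norm_num)
    linarith
  have heq : Real.log (1 / ((1 / 4) ^ i / (10 ^ 4 * E ^ 2))) =
      Real.log (10 ^ 4 * E ^ 2) + i * Real.log 4 := by
    have h1 : (1 : ℝ) / ((1 / 4) ^ i / (10 ^ 4 * E ^ 2)) = (10 ^ 4 * E ^ 2) * 4 ^ i := by
      rw [one_div_pow]
      field_simp
    rw [h1, Real.log_mul hc0.ne' (by positivity), Real.log_pow]
  rw [heq]
  have hi : (0 : ℝ) ≤ i := Nat.cast_nonneg i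
  have h2 : (B * (g + 3 + Real.log (10 ^ 4 * E ^ 2)) + 2) * ((i : ℝ) + 1) ≤ A * ((i : ℝ) + 1) :=
    mul_le_mul_of_nonneg_right hA (by linarith)
  have h3 : (i : ℝ) * Real.log 4 ≤ i * 3 := mul_le_mul_of_nonneg_left hl4 hi
  have h4 : 0 ≤ B * ((i : ℝ) * Real.log (10 ^ 4 * E ^ 2)) := by positivity
  have h5 : B * ((i : ℝ) * Real.log 4) ≤ B * (i * 3) := mul_le_mul_of_nonneg_left h3 (by linarith)
  have h6 : 0 ≤ B * ((i : ℝ) * g) := by positivity
  nlinarith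

/-- `log (10^4 E²)` for `E = bigE (2n+2) Λ` -/
private theorem glue_log2 {K : ℝ} {n : ℕ} (hn : 1 ≤ n) {Λ : ℝ} (hΛ : 1 ≤ Λ)
    (h : Real.log Λ ≤ K * lgn n) :
    1 ≤ bigE (2 * n + 2) Λ ∧
    Real.log (10 ^ 4 * bigE (2 * n + 2) Λ ^ 2) ≤ (4 * K + 200) * lgn n := by
  have hn' : (1 : ℝ) ≤ n := by exact_mod_cast hn
  have hN : ((2 * n + 2 : ℕ) : ℝ) + 1 = 2 * n + 3 := by push_cast; ring
  have hE : bigE (2 * n + 2) Λ = 10 ^ 5 * (2 * (n : ℝ) + 3) ^ 4 * Λ ^ 2 := by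
    rw [bigE, hN]
  have hp4 : (1 : ℝ) ≤ (2 * (n : ℝ) + 3) ^ 4 := one_le_pow₀ (by linarith)
  have hL2 : (1 : ℝ) ≤ Λ ^ 2 := one_le_pow₀ hΛ
  have hΛ0 : (0 : ℝ) < Λ := by linarith
  have h23 : (0 : ℝ) < 2 * (n : ℝ) + 3 := by linarith
  refine ⟨?_, ?_⟩
  · rw [hE]
    have h1 : (1 : ℝ) ≤ 10 ^ 5 * (2 * (n : ℝ) + 3) ^ 4 := by linarith
    nlinarith
  · have heq : Real.log (10 ^ 4 * bigE (2 * n + 2) Λ ^ 2) =
        14 * Real.log 10 + 8 * Real.log (2 * n + 3) + 4 * Real.log Λ := by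
      have h1 : (10 : ℝ) ^ 4 * bigE (2 * n + 2) Λ ^ 2 =
          10 ^ 14 * (2 * (n : ℝ) + 3) ^ 8 * Λ ^ 4 := by
        rw [hE]
        ring
      rw [h1, Real.log_mul (by positivity) (by positivity),
        Real.log_mul (by positivity) (by positivity), Real.log_pow, Real.log_pow, Real.log_pow]
      push_cast
      ring
    rw [heq]
    have h10 : Real.log 10 ≤ 9 := by
      have := Real.log_le_sub_one_of_pos (show (0 : ℝ) < 10 by norm_num)
      linarith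
    have h5 : Real.log 5 ≤ 4 := by
      have := Real.log_le_sub_one_of_pos (show (0 : ℝ) < 5 by norm_num)
      linarith
    have hl : Real.log (2 * (n : ℝ) + 3) ≤ 4 + Real.log n := by
      have h1 : Real.log (2 * (n : ℝ) + 3) ≤ Real.log (5 * n) :=
        Real.log_le_log h23 (by linarith)
      rw [Real.log_mul (by norm_num) (by linarith)] at h1
      linarith
    have hlog : 0 ≤ Real.log (n : ℝ) := Real.log_nonneg hn'
    have hg : lgn n = 1 + Real.log n := rfl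
    rw [hg] at h ⊢
    nlinarith

theorem good_zones_one2 (hZ : PartZX) (hR : PartRX) (hV : PartV) :
    ∃ K : ℝ, 1 ≤ K ∧ ∀ n : ℕ, 1 ≤ n → ∀ P Q : MvPolynomial (Fin 2) ℝ,
      P.totalDegree ≤ n → Q.totalDegree ≤ n → IsRelPrime P Q → vf P Q 0 = 0 →
        ∃ (U : Finset ℝ) (A : ℝ), (U.card : ℝ) ≤ K * n ^ 2 ∧ 1 ≤ A ∧ A ≤ K * (n * lgn n) ∧
          GoodZones (cf (vf P Q)) U A := by
  classical
  obtain ⟨K1, hK1, h1⟩ := hZ
  obtain ⟨K2, hK2, h2⟩ := hR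
  obtain ⟨K3, hK3⟩ : ∃ K3, K3 = K1 + K2 := ⟨_, rfl⟩
  have hK31 : 1 ≤ K3 := by linarith
  refine ⟨K3 * (4 * K3 + 204) + 2, by nlinarith, fun n hn P Q hP hQ hrel h0 => ?_⟩
  obtain ⟨U1, hU1, hz⟩ := h1 n hn P Q hP hQ hrel h0
  obtain ⟨U2, Λ, hU2, hΛ, hlog, hr⟩ := h2 n hn P Q hP hQ hrel h0
  obtain ⟨hE, hEl⟩ := glue_log2 hn hΛ hlog
  have hn' : (1 : ℝ) ≤ n := by exact_mod_cast hn
  have hg1 := sglue_lgn_ge hn
  set g : ℝ := lgn n with hg
  set E : ℝ := bigE (2 * n + 2) Λ with hEdef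
  obtain ⟨B, hBdef⟩ : ∃ B : ℝ, B = K3 * n := ⟨_, rfl⟩
  have hB : 1 ≤ B := by nlinarith
  have hE2 : (1 : ℝ) ≤ E ^ 2 := one_le_pow₀ hE
  have hc0 : (1 : ℝ) ≤ 10 ^ 4 * E ^ 2 := by linarith
  have hl0 : 0 ≤ Real.log (10 ^ 4 * E ^ 2) := Real.log_nonneg hc0
  have hng : 1 ≤ (n : ℝ) * g := by nlinarith
  refine ⟨U1 ∪ U2, B * (g + 3 + Real.log (10 ^ 4 * E ^ 2)) + 2, ?_, ?_, ?_, ?_⟩
  · have hc : ((U1 ∪ U2).card : ℝ) ≤ U1.card + U2.card := by
      exact_mod_cast Finset.card_union_le U1 U2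
    have hn2 : (1 : ℝ) ≤ (n : ℝ) ^ 2 := one_le_pow₀ hn'
    have h3 : K3 ≤ K3 * (4 * K3 + 204) + 2 := by nlinarith
    have h4 : K3 * (n : ℝ) ^ 2 ≤ (K3 * (4 * K3 + 204) + 2) * (n : ℝ) ^ 2 :=
      mul_le_mul_of_nonneg_right h3 (by linarith)
    have h5 : K3 * (n : ℝ) ^ 2 = K1 * (n : ℝ) ^ 2 + K2 * (n : ℝ) ^ 2 := by rw [hK3]; ring
    linarith
  · nlinarith
  · have h3 : g + 3 + Real.log (10 ^ 4 * E ^ 2) ≤ (4 * K3 + 204) * g := by
      have h4 : (4 * K2 + 200) * g ≤ (4 * K3 + 200) * g :=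
        mul_le_mul_of_nonneg_right (by linarith) (by linarith)
      nlinarith
    have h4 : B * (g + 3 + Real.log (10 ^ 4 * E ^ 2)) ≤ B * ((4 * K3 + 204) * g) :=
      mul_le_mul_of_nonneg_left h3 (by linarith)
    have h5 : B * ((4 * K3 + 204) * g) = K3 * (4 * K3 + 204) * (n * g) := by rw [hBdef]; ring
    rw [h5] at h4
    have h6 : (K3 * (4 * K3 + 204) + 2) * ((n : ℝ) * g) =
        K3 * (4 * K3 + 204) * (n * g) + 2 * (n * g) := by ring
    rw [h6]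
    linarith
  · intro i I hI hIo hs
    set t : ℝ := (1 / 4) ^ i / (10 ^ 4 * E ^ 2) with htdef
    have h4i : (0 : ℝ) < (1 / 4) ^ i := by positivity
    have h4i' : ((1 : ℝ) / 4) ^ i ≤ 1 := pow_le_one₀ (by norm_num) (by norm_num)
    have ht0 : 0 < t := by positivity
    have ht1 : t ≤ 1 / 20 := by
      rw [htdef, div_le_iff₀ (by linarith)]
      linarith
    have hEt : 10 ^ 4 * E ^ 2 * t = (1 / 4) ^ i := by
      rw [htdef]
      field_simp
    have hsq : 10 * E * Real.sqrt t = (1 / 2) ^ i / 10 := by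
      have hE0 : 0 < E := by linarith
      have h3 : t = ((1 / 2) ^ i / (100 * E)) ^ 2 := by
        have h4 : ((1 : ℝ) / 4) ^ i = ((1 / 2) ^ i) ^ 2 := by
          rw [← pow_mul, mul_comm i 2, pow_mul]
          norm_num
        rw [htdef, h4]
        field_simp
        norm_num
      rw [h3, Real.sqrt_sq (by positivity)]
      field_simp
      norm_num
    have hlt : 0 ≤ Real.log (1 / t) := by
      apply Real.log_nonneg
      rw [le_div_iff₀ ht0]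
      linarith
    have hfar : ∀ s ∈ fat2 I, ∀ u ∈ U1 ∪ U2, B * (g + Real.log (1 / t)) < |s - u| := by
      rintro s' ⟨s, hsI, hss⟩ u hu
      have h3 := hs s hsI u hu
      have h4 := glue_width2 (A := B * (g + 3 + Real.log (10 ^ 4 * E ^ 2)) + 2) hB hE
        (by linarith : (0 : ℝ) ≤ g) le_rfl i
      rw [← htdef] at h4
      have h5 : |s - u| ≤ |s' - s| + |s' - u| := by
        have h6 : s - u = -(s' - s) + (s' - u) := by ring
        rw [h6]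
        exact (abs_add_le _ _).trans (by rw [abs_neg])
      have h6 := (h4.trans_lt (sub_lt_sub_right h3 2)).trans_le (sub_le_sub_right h5 2)
      have h7 : |s' - s| + |s' - u| - 2 < |s' - u| := by linarith
      exact h6.trans h7
    have hgt : 0 ≤ (n : ℝ) * (g + Real.log (1 / t)) := by positivity
    have hfar1 : ∀ s ∈ fat2 I, ∀ u ∈ U1, K1 * n * (g + Real.log (1 / t)) < |s - u| := by
      intro s hsI u hu
      refine lt_of_le_of_lt ?_ (hfar s hsI u (Finset.mem_union_left _ hu))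
      rw [hBdef, mul_assoc, mul_assoc]
      exact mul_le_mul_of_nonneg_right (by linarith) hgt
    have hfar2 : ∀ s ∈ fat2 I, ∀ u ∈ U2, K2 * n * (g + Real.log (1 / t)) < |s - u| := by
      intro s hsI u hu
      refine lt_of_le_of_lt ?_ (hfar s hsI u (Finset.mem_union_right _ hu))
      rw [hBdef, mul_assoc, mul_assoc]
      exact mul_le_mul_of_nonneg_right (by linarith) hgt
    obtain ⟨G, hG, hzone⟩ := hz t ht0 ht1
    have hZn := hzone (fat2 I) (fat2_ord hIo) hfar1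
    have hsub : ∀ s ∈ I, s ∈ fat2 I := fun s hsI => ⟨s, hsI, by simp⟩
    refine ⟨fun p hp => hZn.ne p (hsub _ hp), fun b C hC => ?_⟩
    have hC' : PosOrb (cf (vf P Q)) (fat2 I) b C := by
      obtain ⟨σ, T, k, hk, hσ, hσI, hCe⟩ := hC
      exact ⟨σ, T, k, hk, hσ, fun r => hsub _ (hσI r), hCe⟩
    have hne : (fat2 I).Nonempty := by
      obtain ⟨σ, T, k, hk, hσ, hσI, hCe⟩ := hC'
      exact ⟨_, hσI 0⟩
    have harc : ∀ p : ℝ × ℝ, p.1 ∈ fat2 I →
        -(Real.sin (3 * t) * nm (cf (vf P Q) p)) < (turn b (cf (vf P Q)) p).2 := fun p hp =>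
      zone_arc (contDiff_cf P Q) (fun p => cf_period _ p) ht0 ht1 le_rfl hG hZn hC' hp
    obtain ⟨d, bb, c, m, τ, κ, hd, hm, hsys, hcut, hκ0, hκ1, hbd⟩ :=
      hr t ht0 ht1 (fat2 I) (fat2_open I) (fat2_ord hIo) hne hfar2
    have hJ : ∀ s ∈ I, Set.Icc (s - 1) (s + 1) ⊆ fat2 I := by
      intro s hsI x hx
      refine ⟨s, hsI, ?_⟩
      rw [abs_lt]
      constructor
      · linarith [hx.1]
      · linarith [hx.2]
    obtain ⟨V, hV'⟩ := hV (cf (vf P Q)) (contDiff_cf P Q) (fun p => cf_period _ p) (fat2 I) I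
      (fat2_open I) (fat2_ord hIo) hJ d (2 * n + 2) bb c m τ Λ κ t hd (by push_cast; exact hm)
      hsys hcut hΛ hκ0 hκ1 ht0 (by rw [← hEdef, hEt]; exact h4i') hbd b harc
    rw [← hEdef, hsq] at hV'
    exact ⟨V, τ, E, t ^ 2, t ^ 3, t, hV'⟩

/-- Proof. `good_zones_one2` for `(P,Q)` and for `(-P,-Q)`. -/
theorem good_zones2 (hZ : PartZX) (hR : PartRX) (hV : PartV) :
    ∃ K : ℝ, 1 ≤ K ∧ ∀ n : ℕ, 1 ≤ n → ∀ P Q : MvPolynomial (Fin 2) ℝ,
      P.totalDegree ≤ n → Q.totalDegree ≤ n → IsRelPrime P Q → vf P Q 0 = 0 →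
        ∃ (U : Finset ℝ) (A : ℝ), U.Nonempty ∧ (U.card : ℝ) ≤ K * n ^ 2 ∧ 1 ≤ A ∧
          A ≤ K * (n * lgn n) ∧ GoodZones (cf (vf P Q)) U A ∧
          GoodZones (fun p => -cf (vf P Q) p) U A := by
  classical
  obtain ⟨K, hK1, h⟩ := good_zones_one2 hZ hR hV
  refine ⟨2 * K + 1, by linarith, fun n hn P Q hP hQ hrel h0 => ?_⟩
  have hn' : (1 : ℝ) ≤ n := by exact_mod_cast hn
  have hg1 := sglue_lgn_ge hn
  have hp : (1 : ℝ) ≤ (n : ℝ) ^ 2 := one_le_pow₀ hn'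
  have hvf : ∀ z, vf (-P) (-Q) z = -vf P Q z := by
    intro z
    simp [vf]
  have hcf : cf (vf (-P) (-Q)) = fun p => -cf (vf P Q) p := by
    funext p
    unfold cf wf
    rw [hvf]
    ext
    · simp only [Prod.fst_neg, Prod.snd_neg]
      ring
    · simp only [Prod.fst_neg, Prod.snd_neg]
      ring
  have hrel' : IsRelPrime (-P) (-Q) := fun d hd1 hd2 =>
    hrel ((dvd_neg).1 hd1) ((dvd_neg).1 hd2)
  obtain ⟨U1, A1, hU1, hA1, hA1', hg1'⟩ := h n hn P Q hP hQ hrel h0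
  obtain ⟨U2, A2, hU2, hA2, hA2', hg2⟩ := h n hn (-P) (-Q)
    (by rw [MvPolynomial.totalDegree_neg]; exact hP)
    (by rw [MvPolynomial.totalDegree_neg]; exact hQ) hrel' (by rw [hvf, h0, neg_zero])
  rw [hcf] at hg2
  have hng : 1 ≤ (n : ℝ) * lgn n := by nlinarith
  have hKn : 0 ≤ K * (n * lgn n) := by positivity
  refine ⟨insert 0 (U1 ∪ U2), max A1 A2, Finset.insert_nonempty _ _, ?_,
    hA1.trans (le_max_left _ _), ?_, ?_, ?_⟩
  · have h1 : ((insert (0 : ℝ) (U1 ∪ U2)).card : ℝ) ≤ U1.card + U2.card + 1 := by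
      have h2 := Finset.card_insert_le (0 : ℝ) (U1 ∪ U2)
      have h3 := Finset.card_union_le U1 U2
      have h4 : (insert (0 : ℝ) (U1 ∪ U2)).card ≤ U1.card + U2.card + 1 := by omega
      exact_mod_cast h4
    nlinarith
  · have hexp : (2 * K + 1) * ((n : ℝ) * lgn n) =
        2 * (K * (n * lgn n)) + n * lgn n := by ring
    rw [hexp]
    refine max_le ?_ ?_
    · linarith
    · linarith
  · exact hg1'.mono (fun u hu => Finset.mem_insert_of_mem (Finset.mem_union_left _ hu))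
      (le_max_left _ _)
  · exact hg2.mono (fun u hu => Finset.mem_insert_of_mem (Finset.mem_union_right _ hu))
      (le_max_right _ _)

end Pool.Agent.Lib.MP_95e7ec_an
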