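import Mathlib
import Pool.Agent.Lib.MP_95e7ec_an.Rt.SCentre2
import Pool.Agent.Lib.MP_95e7ec_an.Rq.Final

/-!
# Rt, SFinal2: the mean theorem from the parts, explicit exponent
-/

set_option autoImplicit false

open Set Filter Topology MeasureTheory
open scoped ContDiff ENNReal

namespace Pool.Agent.Lib.MP_95e7ec_an

theorem mean_coprime2 (hL : PartL) (hZ : PartZX) (hR : PartRX) (hV : PartV) :
    ∃ K : ℝ, 1 ≤ K ∧ ∀ n : ℕ, 1 ≤ n → ∀ P Q : MvPolynomial (Fin 2) ℝ,
      P.totalDegree ≤ n → Q.totalDegree ≤ n → IsRelPrime P Q →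
        ∃ H : ℝ → ℝ≥0∞, AEMeasurable H (volume.restrict (Set.Ioo 0 Real.pi)) ∧
          ∫⁻ a in Set.Ioo 0 Real.pi, H a ≤ ENNReal.ofReal (K * (n ^ 6 * lgn n)) ∧
          ∀ a ∈ Set.Ioo 0 Real.pi, allN (turn a (vf P Q)) ≤ H a := by
  classical
  obtain ⟨K, hK, hcm⟩ := centre_mean2 hL hZ hR hV
  refine ⟨K, hK, ?_⟩
  intro n hn P Q hP hQ hPQ
  have hn1 : (1 : ℝ) ≤ n := by exact_mod_cast hn
  have hlg : 0 ≤ lgn n := by linarith [sglue_lgn_ge hn]
  obtain ⟨Z, hZc, hZ⟩ := exists_finset_zeros P Q hPQ hP hQ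
  choose! H hHm hHi hBH using fun (q : ℝ × ℝ) (hq : q ∈ Z) =>
    hcm n hn P Q hP hQ hPQ q ((hZ q).2 hq)
  have hZr : (Z.card : ℝ) ≤ (n : ℝ) ^ 2 := by exact_mod_cast hZc
  refine ⟨fun a => ∑ q ∈ Z, H q a, ?_, ?_, ?_⟩
  · have := Finset.aemeasurable_sum (f := fun q => H q) Z fun q hq => hHm q hq
    refine this.congr (Eventually.of_forall fun a => ?_)
    simp only [Finset.sum_apply]
  · rw [lintegral_finsetSum' _ fun q hq => hHm q hq]
    calc _ ≤ ∑ q ∈ Z, ENNReal.ofReal (K * (n ^ 4 * lgn n)) := Finset.sum_le_sum hHi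
      _ = ENNReal.ofReal (Z.card * (K * (n ^ 4 * lgn n))) := by
        rw [Finset.sum_const, nsmul_eq_mul, ← ENNReal.ofReal_natCast,
          ← ENNReal.ofReal_mul (by positivity)]
      _ ≤ _ := by
        apply ENNReal.ofReal_le_ofReal
        calc (Z.card : ℝ) * (K * (n ^ 4 * lgn n)) ≤ n ^ 2 * (K * (n ^ 4 * lgn n)) :=
              mul_le_mul_of_nonneg_right hZr (by positivity)
          _ = K * (n ^ 6 * lgn n) := by ring
  · intro a ha
    have hcont : ContDiff ℝ 1 (turn a (vf P Q)) := contDiff_turn (contDiff_vf P Q) a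
    have h8 : {C : Set (ℝ × ℝ) | IsClosedOrbit (turn a (vf P Q)) C} ⊆
        ⋃ q ∈ Z, {C : Set (ℝ × ℝ) | IsClosedOrbit (turn a (vf P Q)) C ∧
          q ∈ convexHull ℝ C} := by
      intro C hC
      obtain ⟨q, hq, hq0⟩ := exists_zero_in_hull hcont hC
      exact Set.mem_biUnion (by exact_mod_cast (hZ q).1 (turn_eq_zero.1 hq0)) ⟨hC, hq⟩
    refine (encard_le_sum_of_subset Z _ _ h8).trans ?_
    exact Finset.sum_le_sum fun q hq => hBH q hq a ha

/-- **The mean theorem.** -/
theorem mean_all2 (hL : PartL) (hZ : PartZX) (hR : PartRX) (hV : PartV) :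
    ∃ K : ℝ, ∀ n : ℕ, 1 ≤ n → ∀ P Q : MvPolynomial (Fin 2) ℝ,
      P.totalDegree ≤ n → Q.totalDegree ≤ n →
        ∃ H : ℝ → ℝ≥0∞, Measurable H ∧ (∀ a, allN (turn a (vf P Q)) ≤ H a) ∧
          ∫⁻ a in Set.Icc 0 (2 * Real.pi), H a ≤ ENNReal.ofReal (K * (n ^ 6 * lgn n)) := by
  classical
  obtain ⟨K, hK, hmc⟩ := mean_coprime2 hL hZ hR hV
  refine ⟨2 * K, ?_⟩
  intro n hn P Q hP hQ
  let _ : NormalizedGCDMonoid (MvPolynomial (Fin 2) ℝ) := Nonempty.some inferInstance
  have hn1 : (1 : ℝ) ≤ n := by exact_mod_cast hn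
  have hlg : 0 ≤ lgn n := by linarith [sglue_lgn_ge hn]
  have hpi := Real.pi_pos
  by_cases hPQ : P = 0 ∧ Q = 0
  · -- the zero field has no closed orbit
    have h0 : ∀ a : ℝ, allN (turn a (vf P Q)) = 0 := by
      intro a
      have h1 : {C : Set (ℝ × ℝ) | IsClosedOrbit (turn a (vf P Q)) C} = ∅ := by
        rw [Set.eq_empty_iff_forall_notMem]
        intro C hC
        have hz : turn a (vf P Q) = fun _ => (0 : ℝ × ℝ) := by
          funext z
          simp [turn, vf, hPQ.1, hPQ.2]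
        have hC' : IsClosedOrbit (fun _ : ℝ × ℝ => (0 : ℝ × ℝ)) C := by
          rw [← hz]; exact hC
        obtain ⟨z, hz⟩ := hC'.nonempty
        exact hC'.ne_zero_of_contDiff contDiff_const hz rfl
      unfold allN
      rw [h1]
      simp
    refine ⟨fun _ => 0, measurable_const, fun a => (h0 a).le, ?_⟩
    simp
  have hPQ' : P ≠ 0 ∨ Q ≠ 0 := by
    by_contra hcon
    push Not at hcon
    exact hPQ hcon
  obtain ⟨P₁, Q₁, hP₁, hQ₁, hu⟩ := extract_gcd P Q
  set g := gcd P Q with hg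
  have hg0 : g ≠ 0 := by
    intro h0
    rw [hg, gcd_eq_zero_iff] at h0
    rcases hPQ' with h | h
    · exact h h0.1
    · exact h h0.2
  have hrel : IsRelPrime P₁ Q₁ := gcd_isUnit_iff_isRelPrime.1 hu
  have hdeg : ∀ (A B : MvPolynomial (Fin 2) ℝ), A = g * B → A.totalDegree ≤ n →
      B.totalDegree ≤ n := by
    intro A B hAB hA
    rcases eq_or_ne B 0 with h0 | h0
    · simp [h0]
    · have := MvPolynomial.totalDegree_mul_of_isDomain hg0 h0
      rw [← hAB] at this
      omega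
  have hsm : ∀ z, vf P Q z = (MvPolynomial.eval ![z.1, z.2] g) • vf P₁ Q₁ z := by
    intro z
    unfold vf
    conv_lhs => rw [hP₁, hQ₁]
    simp only [map_mul, Prod.smul_mk, smul_eq_mul]
  have hgc : Continuous fun z : ℝ × ℝ => MvPolynomial.eval ![z.1, z.2] g :=
    (contDiff_eval g (k := 0)).continuous
  have hcd : ∀ a : ℝ, ContDiff ℝ 1 (turn a (vf P Q)) := fun a =>
    contDiff_turn (contDiff_vf P Q) a
  have hle : ∀ a : ℝ, allN (turn a (vf P Q)) ≤ allN (turn a (vf P₁ Q₁)) := by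
    intro a
    refine allN_mono fun C hC => ?_
    refine IsClosedOrbit.of_smul_field hgc (hcd a) (Y := turn a (vf P₁ Q₁)) (fun z => ?_) hC
    exact congrFun (turn_smul_field hsm a) z
  have hpi' : ∀ a : ℝ, allN (turn (a + Real.pi) (vf P₁ Q₁)) ≤ allN (turn a (vf P₁ Q₁)) := by
    intro a
    refine allN_mono fun C hC => ?_
    rw [turn_add_pi] at hC
    simpa using hC.neg
  obtain ⟨H₀, hH₀m, hH₀i, hH₀⟩ := hmc n hn P₁ Q₁ (hdeg P P₁ hP₁ hP) (hdeg Q Q₁ hQ₁ hQ) hrel
  obtain ⟨H₁, hm, hH₁, hi⟩ := meas_majorant measurableSet_Ioo hH₀m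
  -- the majorant on the circle
  have hper2 : ∀ (a : ℝ) (j : ℤ), turn (a + j * (2 * Real.pi)) (vf P Q) = turn a (vf P Q) := by
    intro a j
    funext z
    unfold turn
    rw [Real.cos_add_int_mul_two_pi, Real.sin_add_int_mul_two_pi]
  set G : ℝ → ℝ≥0∞ := fun b =>
    if b ∈ Set.Ioo 0 Real.pi then H₁ b else
      if b ∈ Set.Ioo Real.pi (2 * Real.pi) then H₁ (b - Real.pi) else ∞ with hG
  have hGm : Measurable G :=
    Measurable.ite measurableSet_Ioo hm
      (Measurable.ite measurableSet_Ioo (hm.comp (measurable_id.sub_const _)) measurable_const)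
  set fl : ℝ → ℝ := fun a => a - ⌊a / (2 * Real.pi)⌋ * (2 * Real.pi) with hfl
  have hflm : Measurable fl := by
    have h1 : Measurable fun a : ℝ => ((⌊a / (2 * Real.pi)⌋ : ℤ) : ℝ) :=
      (measurable_from_top).comp (Int.measurable_floor.comp (measurable_id.div_const _))
    exact measurable_id.sub (h1.mul_const _)
  have hflr : ∀ a, 0 ≤ fl a ∧ fl a < 2 * Real.pi := by
    intro a
    have h1 := Int.floor_le (a / (2 * Real.pi))
    have h2 := Int.lt_floor_add_one (a / (2 * Real.pi))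
    rw [le_div_iff₀ (by positivity)] at h1
    rw [div_lt_iff₀ (by positivity)] at h2
    constructor
    · simp only [hfl]; linarith
    · simp only [hfl]; nlinarith
  have hval : ∀ b : ℝ, 0 ≤ b → b < 2 * Real.pi → allN (turn b (vf P Q)) ≤ G b := by
    intro b hb0 hb1
    simp only [hG]
    split_ifs with h1 h2
    · exact (hle b).trans ((hH₀ b h1).trans (hH₁ b h1))
    · have h3 : b - Real.pi ∈ Set.Ioo 0 Real.pi := ⟨by linarith [h2.1], by linarith [h2.2]⟩
      have h4 := hpi' (b - Real.pi)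
      rw [sub_add_cancel] at h4
      exact (hle b).trans (h4.trans ((hH₀ _ h3).trans (hH₁ _ h3)))
    · exact le_top
  refine ⟨fun a => G (fl a), hGm.comp hflm, ?_, ?_⟩
  · intro a
    obtain ⟨h1, h2⟩ := hflr a
    refine le_trans (le_of_eq ?_) (hval _ h1 h2)
    congr 1
    have := hper2 (fl a) ⌊a / (2 * Real.pi)⌋
    rw [← this]
    simp only [hfl]
    congr 1
    ring
  · have hflid : ∀ a ∈ Set.Ico 0 (2 * Real.pi), fl a = a := by
      intro a ha
      simp only [hfl]
      have : ⌊a / (2 * Real.pi)⌋ = 0 := by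
        rw [Int.floor_eq_zero_iff]
        refine ⟨div_nonneg ha.1 (by positivity), ?_⟩
        rw [div_lt_one (by positivity)]
        exact ha.2
      rw [this]
      simp
    have hA : ∀ᵐ a ∂(volume.restrict (Set.Icc 0 (2 * Real.pi))),
        G (fl a) = (Set.Ioo 0 Real.pi).indicator H₁ a +
          (Set.Ioo Real.pi (2 * Real.pi)).indicator (fun b => H₁ (b - Real.pi)) a := by
      have hnull : volume ({0, Real.pi, 2 * Real.pi} : Set ℝ) = 0 :=
        (Set.toFinite _).measure_zero volume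
      have h1 : ∀ᵐ a ∂(volume.restrict (Set.Icc 0 (2 * Real.pi))),
          a ∉ ({0, Real.pi, 2 * Real.pi} : Set ℝ) :=
        ae_restrict_of_ae (measure_eq_zero_iff_ae_notMem.1 hnull)
      filter_upwards [h1, ae_restrict_mem measurableSet_Icc] with a h2 h3
      simp only [Set.mem_insert_iff, Set.mem_singleton_iff, not_or] at h2
      have h4 : a ∈ Set.Ico 0 (2 * Real.pi) := ⟨h3.1, lt_of_le_of_ne h3.2 h2.2.2⟩
      rw [hflid a h4]
      simp only [hG]
      rcases lt_or_gt_of_ne h2.2.1 with h5 | h5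
      · have h6 : a ∈ Set.Ioo 0 Real.pi := ⟨lt_of_le_of_ne h3.1 (Ne.symm h2.1), h5⟩
        have h7 : a ∉ Set.Ioo Real.pi (2 * Real.pi) := fun h => by linarith [h.1]
        rw [if_pos h6, Set.indicator_of_mem h6, Set.indicator_of_notMem h7, add_zero]
      · have h6 : a ∉ Set.Ioo 0 Real.pi := fun h => by linarith [h.2]
        have h7 : a ∈ Set.Ioo Real.pi (2 * Real.pi) := ⟨h5, h4.2⟩
        rw [if_neg h6, if_pos h7, Set.indicator_of_notMem h6, Set.indicator_of_mem h7, zero_add]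
    rw [lintegral_congr_ae hA, lintegral_add_left (hm.indicator measurableSet_Ioo)]
    have e1 : ∫⁻ a in Set.Icc 0 (2 * Real.pi), (Set.Ioo 0 Real.pi).indicator H₁ a ≤
        ∫⁻ a in Set.Ioo 0 Real.pi, H₁ a := by
      refine (setLIntegral_le_lintegral _ _).trans (le_of_eq ?_)
      exact lintegral_indicator measurableSet_Ioo _
    have e2 : ∫⁻ a in Set.Icc 0 (2 * Real.pi),
        (Set.Ioo Real.pi (2 * Real.pi)).indicator (fun b => H₁ (b - Real.pi)) a ≤
        ∫⁻ a in Set.Ioo 0 Real.pi, H₁ a := by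
      refine (setLIntegral_le_lintegral _ _).trans (le_of_eq ?_)
      rw [lintegral_indicator measurableSet_Ioo]
      have h := (measurePreserving_sub_right (volume : Measure ℝ)
        Real.pi).setLIntegral_comp_preimage_emb
        (MeasurableEquiv.subRight Real.pi).measurableEmbedding H₁ (Set.Ioo 0 Real.pi)
      rw [← h]
      congr 2
      ext x
      simp only [Set.mem_Ioo, Set.mem_preimage]
      constructor
      · rintro ⟨a, b⟩
        constructor <;> linarith
      · rintro ⟨a, b⟩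
        constructor <;> linarith
    refine (add_le_add e1 e2).trans ?_
    rw [hi]
    refine (add_le_add hH₀i hH₀i).trans ?_
    rw [← ENNReal.ofReal_add (by positivity) (by positivity)]
    apply ENNReal.ofReal_le_ofReal
    apply le_of_eq
    ring

end Pool.Agent.Lib.MP_95e7ec_an
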