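import Mathlib
import Pool.Agent.Lib.MP_95e7ec_an.Rt.SFinal2
import Pool.Agent.Lib.MP_95e7ec_an.Rt.PartZ2
import Pool.Agent.Lib.MP_95e7ec_an.Rt.PartR2
import Pool.Agent.Lib.MP_95e7ec_an.Ry.SMeasN
import Pool.Agent.Lib.MP_95e7ec_an.Ry.PartL
import Pool.Agent.Lib.MP_95e7ec_an.Ry.PartV

/-!
# Rt, Mean2: the mean theorem with an explicit exponent
-/

set_option autoImplicit false

open Set Filter Topology MeasureTheory
open scoped ContDiff ENNReal

namespace Pool.Agent.Lib.MP_95e7ec_an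

/-- **The mean theorem with an explicit exponent.** -/
theorem mean_theorem2 : ∃ K : ℝ, ∀ n : ℕ, 1 ≤ n → ∀ P Q : MvPolynomial (Fin 2) ℝ,
    P.totalDegree ≤ n → Q.totalDegree ≤ n →
      AEMeasurable (fun a => allN (turn a (vf P Q)))
        (volume.restrict (Set.Icc 0 (2 * Real.pi))) ∧
      ∫⁻ a in Set.Icc 0 (2 * Real.pi), allN (turn a (vf P Q)) ≤
        ENNReal.ofReal (K * (n ^ 6 * (1 + Real.log n))) := by
  obtain ⟨K, h⟩ := mean_all2 partL partZX partRX partV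
  refine ⟨K, fun n hn P Q hP hQ => ⟨allN_aemeasurable P Q, ?_⟩⟩
  obtain ⟨H, -, hH, hi⟩ := h n hn P Q hP hQ
  exact (lintegral_mono hH).trans hi

end Pool.Agent.Lib.MP_95e7ec_an
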